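import Pool.Agent.Helper34.Cq.Conv

set_option autoImplicit false

namespace Pool.Agent.Helper34.Cq

open MvPolynomial Topology Filter

universe u v

namespace BSAF

variable {d : ℕ} {Ω : Set (Fin d → ℂ)} {X : Type u} [NormedAddCommGroup X] [NormedSpace ℂ X]
  [CompleteSpace X]

/-- `X` is closed under pointwise multiplication. -/
def IsAlg (S : BSAF d Ω X) : Prop :=
  ∀ f g : X, ∃ h : X, ∀ w : Ω, S.val h w = S.val f w * S.val g w

theorem isMult_val (S : BSAF d Ω X) (hS : S.IsAlg) (f : X) : S.IsMult (S.val f) :=
  fun g => hS f g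

/-- multiplication by an element -/
noncomputable def mA (S : BSAF d Ω X) (hS : S.IsAlg) (f : X) : X →L[ℂ] X :=
  S.multOp (S.isMult_val hS f)

theorem val_mA (S : BSAF d Ω X) (hS : S.IsAlg) (f g : X) (w : Ω) :
    S.val (S.mA hS f g) w = S.val f w * S.val g w :=
  S.val_multOp (S.isMult_val hS f) g w

/-- the left regular representation -/
noncomputable def Lrep (S : BSAF d Ω X) (hS : S.IsAlg) : X →L[ℂ] (X →L[ℂ] X) :=
  ContinuousLinearMap.ofSeqClosedGraph
    (g := { toFun := fun f => S.mA hS f
            map_add' := fun f g => by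
              ext x
              apply S.inj
              funext w
              simp only [val_mA, _root_.add_apply, map_add, Pi.add_apply]
              ring
            map_smul' := fun c f => by
              ext x
              apply S.inj
              funext w
              simp only [val_mA, _root_.smul_apply, map_smul, Pi.smul_apply,
                smul_eq_mul, RingHom.id_apply]
              ring }) (by
      intro un x y hu hL
      ext z
      apply S.inj
      funext w
      have h1 : Tendsto (fun n => S.evΩ w (S.mA hS (un n) z)) atTop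
          (𝓝 (S.evΩ w (y z))) := by
        have h2 : Tendsto (fun n => (S.mA hS (un n)) z) atTop
            (𝓝 (y z)) :=
          ((ContinuousLinearMap.apply ℂ X z).continuous.tendsto y).comp hL
        exact ((S.evΩ w).continuous.tendsto _).comp h2
      have h3 : Tendsto (fun n => S.evΩ w (un n) * S.val z w) atTop (𝓝 (S.evΩ w x * S.val z w)) :=
        (((S.evΩ w).continuous.tendsto _).comp hu).mul_const _
      have h4 : (fun n => S.evΩ w (S.mA hS (un n) z)) =
          fun n => S.evΩ w (un n) * S.val z w := by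
        funext n
        rw [evΩ_apply, val_mA, evΩ_apply]
      rw [h4] at h1
      have h5 := tendsto_nhds_unique h1 h3
      rw [evΩ_apply, evΩ_apply] at h5
      rw [h5]
      exact (S.val_mA hS x z w).symm)

theorem val_Lrep (S : BSAF d Ω X) (hS : S.IsAlg) (f g : X) (w : Ω) :
    S.val (S.Lrep hS f g) w = S.val f w * S.val g w :=
  S.val_mA hS f g w

/-- the algebra of multiplication operators -/
noncomputable def algL (S : BSAF d Ω X) (hS : S.IsAlg) : Subalgebra ℂ (X →L[ℂ] X) where
  carrier := {A | ∃ f, A = S.Lrep hS f}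
  mul_mem' := by
    rintro _ _ ⟨f, rfl⟩ ⟨g, rfl⟩
    refine ⟨S.Lrep hS f g, ?_⟩
    ext x
    apply S.inj
    funext w
    simp only [mul_apply_eq_comp, val_Lrep]
    ring
  add_mem' := by
    rintro _ _ ⟨f, rfl⟩ ⟨g, rfl⟩
    exact ⟨f + g, by rw [map_add]⟩
  algebraMap_mem' := by
    intro c
    refine ⟨c • S.one, ?_⟩
    ext x
    apply S.inj
    funext w
    rw [val_Lrep, map_smul, Pi.smul_apply, S.val_one, Algebra.algebraMap_eq_smul_one]
    simp

theorem algL_comm (S : BSAF d Ω X) (hS : S.IsAlg) (a b : S.algL hS) : a * b = b * a := by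
  obtain ⟨_, f, rfl⟩ := a
  obtain ⟨_, g, rfl⟩ := b
  apply Subtype.ext
  ext x
  apply S.inj
  funext w
  change S.val (S.Lrep hS f (S.Lrep hS g x)) w = S.val (S.Lrep hS g (S.Lrep hS f x)) w
  simp only [val_Lrep]
  ring

theorem algL_closed (S : BSAF d Ω X) (hS : S.IsAlg) : IsClosed (S.algL hS : Set (X →L[ℂ] X)) := by
  have h1 : (S.algL hS : Set (X →L[ℂ] X)) = {A | S.Lrep hS (A S.one) = A} := by
    ext A
    constructor
    · rintro ⟨f, rfl⟩
      change S.Lrep hS (S.Lrep hS f S.one) = S.Lrep hS f
      congr 1
      apply S.inj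
      funext w
      rw [val_Lrep, S.val_one, mul_one]
    · intro hA
      exact ⟨A S.one, hA.symm⟩
  rw [h1]
  exact isClosed_eq ((S.Lrep hS).continuous.comp
    (ContinuousLinearMap.apply ℂ X S.one).continuous) continuous_id

/-- In an algebra, a function without zeros on the maximal domain is invertible. -/
theorem exists_inverse (S : BSAF d Ω X) (hS : S.IsAlg) (F : X)
    (hF : ∀ w : S.maxDomain, S.ev w F ≠ 0) : ∃ G : X, S.Lrep hS F G = S.one := by
  let _ : NormedCommRing (S.algL hS) :=
    { (inferInstance : NormedRing (S.algL hS)) with mul_comm := S.algL_comm hS }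
  have : CompleteSpace (S.algL hS) := (S.algL_closed hS).completeSpace_coe
  set a : S.algL hS := ⟨S.Lrep hS F, ⟨F, rfl⟩⟩ with ha
  by_cases hu : IsUnit a
  · obtain ⟨b, hb⟩ := hu.exists_right_inv
    obtain ⟨_, G, rfl⟩ := b
    refine ⟨G, ?_⟩
    have h1 := congrArg (fun A : S.algL hS => (A : X →L[ℂ] X) S.one) hb
    change S.Lrep hS F (S.Lrep hS G S.one) = S.one at h1
    have h2 : S.Lrep hS G S.one = G := by
      apply S.inj
      funext w
      rw [val_Lrep, S.val_one, mul_one]
    rwa [h2] at h1
  · exfalso
    obtain ⟨χ, hχ⟩ := WeakDual.CharacterSpace.exists_apply_eq_zero hu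
    set LS : X →L[ℂ] S.algL hS := (S.Lrep hS).codRestrict (Subalgebra.toSubmodule (S.algL hS))
      (fun f => ⟨f, rfl⟩) with hLS
    have hLSc : ∀ f : X, ((LS f : S.algL hS) : X →L[ℂ] X) = S.Lrep hS f := fun f => rfl
    set Λ : X →L[ℂ] ℂ := (WeakDual.CharacterSpace.toCLM χ).comp LS with hΛ
    have hΛapp : ∀ f, Λ f = χ (LS f) := fun f => rfl
    have hmul : ∀ f g : X, LS (S.Lrep hS f g) = LS f * LS g := by
      intro f g
      apply Subtype.ext
      ext x
      apply S.inj
      funext w
      change S.val (S.Lrep hS (S.Lrep hS f g) x) w = S.val (S.Lrep hS f (S.Lrep hS g x)) w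
      simp only [val_Lrep]
      ring
    have hone : LS S.one = 1 := by
      apply Subtype.ext
      ext x
      apply S.inj
      funext w
      change S.val (S.Lrep hS S.one x) w = S.val x w
      rw [val_Lrep, S.val_one, one_mul]
    set w0 : Fin d → ℂ := fun j => Λ (S.mul (MvPolynomial.X j) S.one) with hw0
    have hev : S.IsEval w0 Λ := by
      rw [S.isEval_iff]
      intro P
      induction P using MvPolynomial.induction_on with
      | C a =>
        have h1 : S.mul (C a) S.one = a • S.one := by
          apply S.inj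
          funext u
          rw [S.val_mul]
          simp
        rw [h1, map_smul, hΛapp, hone, map_one, eval_C, smul_eq_mul, mul_one]
      | add p q hp hq =>
        have h1 : S.mul (p + q) S.one = S.mul p S.one + S.mul q S.one := by
          apply S.inj
          funext u
          simp only [S.val_mul, map_add, Pi.add_apply]
          ring
        rw [h1, map_add, hp, hq, map_add]
      | mul_X p j hp =>
        have h1 : S.mul (p * MvPolynomial.X j) S.one = S.Lrep hS (S.mul p S.one) (S.mul (MvPolynomial.X j) S.one) := by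
          apply S.inj
          funext u
          rw [val_Lrep, S.val_mul, S.val_mul, S.val_mul, S.val_one, map_mul]
          ring
        rw [h1, hΛapp, hmul, map_mul, ← hΛapp, ← hΛapp, hp, map_mul, eval_X]
    have h1 : S.ev ⟨w0, ⟨Λ, hev⟩⟩ = Λ := S.isEval_unique (S.ev_spec _) hev
    apply hF ⟨w0, ⟨Λ, hev⟩⟩
    rw [h1, hΛapp]
    have h2 : LS F = a := Subtype.ext rfl
    rw [h2]
    exact hχ

/-- In an algebra, a function without zeros on the maximal domain is shift-cyclic. -/
theorem cyclic_of_alg (S : BSAF d Ω X) (hS : S.IsAlg) (F : X)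
    (hF : ∀ w : S.maxDomain, S.ev w F ≠ 0) : S.ShiftCyclic F := by
  obtain ⟨G, hG⟩ := S.exists_inverse hS F hF
  have h1 : Set.MapsTo (S.Lrep hS F) (S.orbit S.one) (S.orbit F) := by
    intro g hg
    obtain ⟨P, rfl⟩ := (S.mem_orbit_iff _ _).mp hg
    refine (S.mem_orbit_iff _ _).mpr ⟨P, S.inj ?_⟩
    funext w
    rw [val_Lrep, S.val_mul, S.val_one, S.val_mul]
    ring
  have h2 : G ∈ closure (S.orbit S.one) := by rw [S.dense_one]; exact Set.mem_univ _
  have h3 := h1.closure (S.Lrep hS F).continuous h2
  rw [hG] at h3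
  exact S.cyclic_of_mem h3 S.cyclic_one

end BSAF

/-- Every Banach space of analytic functions that is an algebra under pointwise multiplication has
property (CP). -/
theorem hasCP_of_alg {d' : ℕ} {Ω' : Set (Fin d' → ℂ)} {Y : Type v} [NormedAddCommGroup Y]
    [NormedSpace ℂ Y] [CompleteSpace Y] (T : BSAF d' Ω' Y) (hT : T.IsAlg) : HasCP.{u} T := by
  intro d Ω X _ _ _ S φ ψ A hψ hA f hf
  apply T.cyclic_of_alg hT
  intro w
  rw [hA]
  exact mul_ne_zero (T.cyclic_ne_zero hψ (T.ev_spec w)) (S.cyclic_ne_zero hf (S.ev_spec _))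

end Pool.Agent.Helper34.Cq
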