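import Pool.Agent.Helper34.Cq.Levels

set_option autoImplicit false
set_option linter.unusedVariables false

namespace Pool.Agent.Helper34.Cq

open Topology Filter Polynomial

/-- a bound of a polynomial on the closed unit disc -/
theorem poly_disc_bdd (P : ℂ[X]) : ∃ B : ℝ, 0 ≤ B ∧ ∀ z : ℂ, ‖z‖ ≤ 1 → ‖P.eval z‖ ≤ B := by
  have hc : IsCompact (Metric.closedBall (0 : ℂ) 1) := isCompact_closedBall _ _
  obtain ⟨C, hC⟩ := hc.exists_bound_of_continuousOn (f := fun z : ℂ => P.eval z)
    P.continuous.continuousOn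
  exact ⟨max C 0, le_max_right _ _, fun z hz =>
    (hC z (by rwa [mem_closedBall_zero_iff])).trans (le_max_left _ _)⟩

theorem sepLevel (K : ℕ) {ε : ℝ} (hε : 0 < ε) : ∃ r : ℂ[X], r.eval 0 = 1 ∧
    (∀ z ∈ UU K, ‖r.eval z‖ ≤ ε) ∧ (∀ j < K, ∀ z ∈ UU j, ‖r.eval z - 1‖ ≤ ε) := by
  obtain ⟨r, h1, h2, h3⟩ := sep ((QP K) ^ 2) hε
  refine ⟨r, ?_, ?_, ?_⟩
  · apply h3
    rw [eval_pow, QP_eval, vv_zero]
    norm_num
  · intro z hz
    apply h1
    rw [eval_pow, norm_pow]
    have := QP_level K z hz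
    nlinarith [norm_nonneg ((QP K).eval z)]
  · intro j hj z hz
    apply h2
    rw [eval_pow, QP_eval]
    have h4 := far hj (le_of_lt hz)
    have h5 : (vv K z - 1) ^ 2 - 1 = vv K z * (vv K z - 2) := by ring
    rw [h5, norm_mul]
    have h6 : ‖vv K z - 2‖ ≤ 1 / 16 + 2 := by
      calc _ ≤ _ := norm_sub_le _ _
        _ ≤ 1 / 16 + 2 := by
            have : ‖(2 : ℂ)‖ = 2 := by norm_num
            rw [this]
            linarith
    calc ‖vv K z‖ * ‖vv K z - 2‖ ≤ 1 / 16 * (1 / 16 + 2) := by gcongr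
      _ ≤ 1 / 4 := by norm_num

theorem fin_app (K : ℕ) : ∀ k ≤ K, ∀ ε : ℝ, 0 < ε → ∃ P : ℂ[X], P.eval 0 = 0 ∧
    ∀ j ≤ K, ∀ z ∈ UU j, ‖P.eval z - (if j = k then 1 else 0)‖ ≤ ε := by
  induction K with
  | zero =>
    intro k hk ε hε
    obtain rfl : k = 0 := by omega
    obtain ⟨r, h0, h1, h2⟩ := sepLevel 0 hε
    refine ⟨1 - r, by rw [eval_sub, eval_one, h0, sub_self], ?_⟩
    intro j hj z hz
    obtain rfl : j = 0 := by omega
    simp only [if_true, eval_sub, eval_one]
    rw [show (1 : ℂ) - r.eval z - 1 = -(r.eval z) by ring, norm_neg]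
    exact h1 z hz
  | succ K ih =>
    intro k hk ε hε
    rcases Nat.lt_or_ge K k with hkK | hkK
    · obtain rfl : k = K + 1 := by omega
      obtain ⟨r, h0, h1, h2⟩ := sepLevel (K + 1) hε
      refine ⟨1 - r, by rw [eval_sub, eval_one, h0, sub_self], ?_⟩
      intro j hj z hz
      rw [eval_sub, eval_one]
      by_cases hjk : j = K + 1
      · subst hjk
        simp only [if_true]
        rw [show (1 : ℂ) - r.eval z - 1 = -(r.eval z) by ring, norm_neg]
        exact h1 z hz
      · simp only [hjk, if_false]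
        rw [show (1 : ℂ) - r.eval z - 0 = -(r.eval z - 1) by ring, norm_neg]
        exact h2 j (by omega) z hz
    · obtain ⟨P0, hP0, hP⟩ := ih k hkK (ε / 2) (half_pos hε)
      obtain ⟨B, hB0, hB⟩ := poly_disc_bdd P0
      obtain ⟨r, h0, h1, h2⟩ := sepLevel (K + 1) (show 0 < ε / (2 * (B + 1)) by positivity)
      have hBe : B * (ε / (2 * (B + 1))) ≤ ε / 2 := by
        rw [mul_div_assoc', div_le_div_iff₀ (by positivity) (by norm_num)]
        nlinarith
      refine ⟨P0 * r, by rw [eval_mul, hP0, zero_mul], ?_⟩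
      intro j hj z hz
      rw [eval_mul]
      have hz1 : ‖P0.eval z‖ ≤ B := hB z (UU_bdd j z hz)
      by_cases hjk : j = K + 1
      · subst hjk
        have hne : ¬ (K + 1 = k) := by omega
        simp only [hne, if_false, sub_zero, norm_mul]
        have := h1 z hz
        calc ‖P0.eval z‖ * ‖r.eval z‖ ≤ B * (ε / (2 * (B + 1))) := by gcongr
          _ ≤ ε := by linarith
      · have h3 := hP j (by omega) z hz
        have h4 := h2 j (by omega) z hz
        have h5 : P0.eval z * r.eval z - (if j = k then 1 else 0) =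
            P0.eval z * (r.eval z - 1) + (P0.eval z - (if j = k then 1 else 0)) := by ring
        rw [h5]
        calc _ ≤ _ := norm_add_le _ _
          _ ≤ B * (ε / (2 * (B + 1))) + ε / 2 := by
              rw [norm_mul]
              gcongr
          _ ≤ ε := by linarith

/-- polynomial approximating the indicator of the `k`-th level on the first `K` levels -/
theorem exists_PK (K k : ℕ) : ∃ P : ℂ[X], P.eval 0 = 0 ∧ (k ≤ K →
    ∀ j ≤ K, ∀ z ∈ UU j, ‖P.eval z - (if j = k then 1 else 0)‖ ≤ (1 / 2) ^ K) := by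
  by_cases h : k ≤ K
  · obtain ⟨P, h1, h2⟩ := fin_app K k h ((1 / 2) ^ K) (by positivity)
    exact ⟨P, h1, fun _ => h2⟩
  · exact ⟨0, by simp, fun h' => absurd h' h⟩

noncomputable def PK (K k : ℕ) : ℂ[X] := Classical.choose (exists_PK K k)

theorem PK_zero (K k : ℕ) : (PK K k).eval 0 = 0 := (Classical.choose_spec (exists_PK K k)).1

theorem PK_spec {K k : ℕ} (h : k ≤ K) : ∀ j ≤ K, ∀ z ∈ UU j,
    ‖(PK K k).eval z - (if j = k then 1 else 0)‖ ≤ (1 / 2) ^ K :=
  (Classical.choose_spec (exists_PK K k)).2 h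

noncomputable def BK (K k : ℕ) : ℝ := Classical.choose (poly_disc_bdd (PK K k))

theorem BK_nonneg (K k : ℕ) : 0 ≤ BK K k := (Classical.choose_spec (poly_disc_bdd (PK K k))).1

theorem BK_spec (K k : ℕ) (z : ℂ) (hz : ‖z‖ ≤ 1) : ‖(PK K k).eval z‖ ≤ BK K k :=
  (Classical.choose_spec (poly_disc_bdd (PK K k))).2 z hz

/-- total bound for the polynomials used before level `j` -/
noncomputable def Tot (j : ℕ) : ℝ := ∑ K ∈ Finset.range j, ∑ k ∈ Finset.range (K + 1), BK K k

theorem Tot_nonneg (j : ℕ) : 0 ≤ Tot j :=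
  Finset.sum_nonneg fun K _ => Finset.sum_nonneg fun k _ => BK_nonneg K k

theorem BK_le_Tot {K k j : ℕ} (hk : k ≤ K) (hj : K < j) : BK K k ≤ Tot j := by
  have h1 : BK K k ≤ ∑ k ∈ Finset.range (K + 1), BK K k :=
    Finset.single_le_sum (f := fun k => BK K k) (fun i _ => BK_nonneg K i)
      (Finset.mem_range.mpr (by omega))
  have h2 : ∑ k ∈ Finset.range (K + 1), BK K k ≤ Tot j :=
    Finset.single_le_sum (f := fun K => ∑ k ∈ Finset.range (K + 1), BK K k)
      (fun i _ => Finset.sum_nonneg fun k _ => BK_nonneg i k) (Finset.mem_range.mpr hj)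
  exact h1.trans h2

/-- the weights -/
noncomputable def cc (j : ℕ) : ℝ := (1 / 4) ^ j / (1 + Tot j)

theorem cc_pos (j : ℕ) : 0 < cc j := by
  have := Tot_nonneg j
  unfold cc
  positivity

theorem cc_le_pow (j : ℕ) : cc j ≤ (1 / 4) ^ j := by
  have := Tot_nonneg j
  unfold cc
  rw [div_le_iff₀ (by positivity)]
  have h : (0 : ℝ) ≤ (1 / 4) ^ j := by positivity
  nlinarith

theorem cc_le (j : ℕ) : cc j ≤ 1 := (cc_le_pow j).trans (pow_le_one₀ (by norm_num) (by norm_num))

theorem cc_mul {K k j : ℕ} (hk : k ≤ K) (hj : K < j) : cc j * (BK K k + 1) ≤ (1 / 4) ^ j := by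
  have h1 := BK_le_Tot hk hj
  have := Tot_nonneg j
  unfold cc
  rw [div_mul_eq_mul_div, div_le_iff₀ (by positivity)]
  have h : (0 : ℝ) ≤ (1 / 4) ^ j := by positivity
  nlinarith

theorem cc_lim : Tendsto cc atTop (𝓝 0) :=
  squeeze_zero (fun j => (cc_pos j).le) cc_le_pow
    (tendsto_pow_atTop_nhds_zero_of_lt_one (by norm_num) (by norm_num))

/-- weighted approximation of the indicators -/
theorem w_app {K k : ℕ} (hk : k ≤ K) (j : ℕ) (z : ℂ) (hz : z ∈ UU j) :
    cc j * ‖(PK K k).eval z - (if j = k then 1 else 0)‖ ≤ (1 / 2) ^ K := by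
  rcases Nat.lt_or_ge K j with hj | hj
  · have hne : ¬ (j = k) := by omega
    simp only [hne, if_false, sub_zero]
    have h1 := BK_spec K k z (UU_bdd j z hz)
    calc cc j * ‖(PK K k).eval z‖ ≤ cc j * (BK K k + 1) := by
          have := cc_pos j
          gcongr
          linarith
      _ ≤ (1 / 4) ^ j := cc_mul hk hj
      _ ≤ (1 / 2) ^ j := by gcongr; norm_num
      _ ≤ (1 / 2) ^ K := pow_le_pow_of_le_one (by norm_num) (by norm_num) hj.le
  · have h1 := PK_spec hk j hj z hz
    calc cc j * ‖(PK K k).eval z - (if j = k then 1 else 0)‖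
        ≤ 1 * ‖(PK K k).eval z - (if j = k then 1 else 0)‖ := by
          gcongr
          exact cc_le j
      _ ≤ (1 / 2) ^ K := by rw [one_mul]; exact h1

theorem exists_K (k : ℕ) {ε : ℝ} (hε : 0 < ε) : ∃ K, k ≤ K ∧ (1 / 2 : ℝ) ^ K ≤ ε := by
  obtain ⟨n, hn⟩ := exists_pow_lt_of_lt_one hε (show (1 / 2 : ℝ) < 1 by norm_num)
  refine ⟨max n k, le_max_right _ _, ?_⟩
  exact (pow_le_pow_of_le_one (by norm_num) (by norm_num) (le_max_left _ _)).trans hn.le

/-- the data of the space lacking (CP) -/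
noncomputable def LY : LData where
  U := UU
  isOpen := UU_open
  bdd := UU_bdd
  disj := UU_disj
  c := cc
  c_pos := cc_pos
  c_le := cc_le
  c_lim := cc_lim
  app k ε hε := by
    obtain ⟨K, hK, hKε⟩ := exists_K k hε
    exact ⟨PK K k, fun j z hz => (w_app hK j z hz).trans hKε⟩

/-- the data of the auxiliary space -/
noncomputable def LX : LData where
  U := V
  isOpen k := Metric.isOpen_ball
  bdd k z hz := by
    have h1 := (V_norm hz).2
    have h2 := mu_le k
    linarith
  disj := V_disj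
  c := cc
  c_pos := cc_pos
  c_le := cc_le
  c_lim := cc_lim
  app k ε hε := by
    obtain ⟨P, hP⟩ := V_app k ε hε
    refine ⟨P, fun j z hz => ?_⟩
    have h1 := hP j z hz
    calc cc j * ‖P.eval z - (if j = k then 1 else 0)‖
        ≤ 1 * ‖P.eval z - (if j = k then 1 else 0)‖ := by
          gcongr
          exact cc_le j
      _ ≤ ε := by rw [one_mul]; exact h1

theorem be_lim : Tendsto be atTop (𝓝 0) := by
  have := (tendsto_pow_atTop_nhds_zero_of_lt_one (by norm_num : (0 : ℝ) ≤ 1 / 2)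
      (by norm_num)).const_mul 6
  rw [mul_zero] at this
  exact this

theorem hU_concrete (ε : ℝ) (hε : 0 < ε) : ∃ P : MvPolynomial (Fin 1) ℂ,
    MvPolynomial.eval 0 P = 1 ∧
      ∀ k, ∀ z ∈ UU k, cc k * ‖MvPolynomial.eval (fun _ : Fin 1 => z) P‖ ≤ ε := by
  obtain ⟨n, hn⟩ := (Metric.tendsto_atTop.mp cc_lim) (ε / 2) (half_pos hε)
  obtain ⟨K, hK, hKε⟩ := exists_K n (show 0 < ε / (2 * (n + 1)) by positivity)
  set R : ℂ[X] := 1 - ∑ k ∈ Finset.range n, PK K k with hR
  refine ⟨Polynomial.aeval (MvPolynomial.X 0 : MvPolynomial (Fin 1) ℂ) R, ?_, ?_⟩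
  · rw [LData.evalX]
    change R.eval 0 = 1
    rw [hR, eval_sub, eval_one, eval_finset_sum, Finset.sum_eq_zero (fun k _ => PK_zero K k),
      sub_zero]
  · intro j z hz
    rw [LData.evalX]
    have h1 : R.eval z = (1 - if j < n then 1 else 0) -
        ∑ k ∈ Finset.range n, ((PK K k).eval z - (if j = k then 1 else 0)) := by
      rw [hR, eval_sub, eval_one, eval_finset_sum, Finset.sum_sub_distrib, Finset.sum_ite_eq]
      simp only [Finset.mem_range]
      ring
    rw [h1]
    have hc := cc_pos j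
    have h2 : cc j * ‖∑ k ∈ Finset.range n, ((PK K k).eval z - (if j = k then 1 else 0))‖ ≤
        ε / 2 := by
      calc cc j * ‖∑ k ∈ Finset.range n, ((PK K k).eval z - (if j = k then 1 else 0))‖
          ≤ cc j * ∑ k ∈ Finset.range n, ‖(PK K k).eval z - (if j = k then 1 else 0)‖ := by
            gcongr
            exact norm_sum_le _ _
        _ = ∑ k ∈ Finset.range n, cc j * ‖(PK K k).eval z - (if j = k then 1 else 0)‖ := by
            rw [Finset.mul_sum]
        _ ≤ ∑ k ∈ Finset.range n, ε / (2 * (n + 1)) := by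
            apply Finset.sum_le_sum
            intro k hk
            exact (w_app ((Finset.mem_range.mp hk).le.trans hK) j z hz).trans hKε
        _ = n * (ε / (2 * (n + 1))) := by rw [Finset.sum_const, Finset.card_range, nsmul_eq_mul]
        _ ≤ ε / 2 := by
            rw [mul_div_assoc', div_le_div_iff₀ (by positivity) (by norm_num)]
            nlinarith
    have h3 : cc j * ‖(1 - if j < n then 1 else 0 : ℂ)‖ ≤ ε / 2 := by
      by_cases hj : j < n
      · simp only [hj, if_true, sub_self, norm_zero, mul_zero]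
        positivity
      · simp only [hj, if_false, sub_zero, norm_one, mul_one]
        have := hn j (by omega)
        rw [dist_zero_right, Real.norm_eq_abs, abs_of_pos hc] at this
        exact this.le
    calc _ ≤ cc j * (‖(1 - if j < n then 1 else 0 : ℂ)‖ +
          ‖∑ k ∈ Finset.range n, ((PK K k).eval z - (if j = k then 1 else 0))‖) := by
          gcongr
          exact norm_sub_le _ _
      _ ≤ ε := by rw [mul_add]; linarith

/-- The explicit space does not have property (CP). -/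
theorem LY_not_CP : ¬ HasCP.{0, 0} LY.W.bs := by
  refine LData.not_CP LX LY (fun k => (mu k : ℂ)) ?_ rfl be be_pos ?_ be_lim V_app ?_ QP QP_level
    QP_disj ?_ hU_concrete
  · intro k
    change (mu k : ℂ) ∈ Metric.ball (mu k : ℂ) (mu k / 2)
    exact Metric.mem_ball_self (half_pos (mu_pos k))
  · intro k
    unfold be
    have : (1 / 2 : ℝ) ^ k ≤ 1 := pow_le_one₀ (by norm_num) (by norm_num)
    linarith
  · have h1 : ∀ k, LX.c k / be k ≤ (1 / 2) ^ k := by
      intro k
      rw [div_le_iff₀ (be_pos k)]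
      have h2 := cc_le_pow k
      change cc k ≤ _
      refine h2.trans ?_
      unfold be
      have h3 : (1 / 2 : ℝ) ^ k * (6 * (1 / 2) ^ k) = 6 * (1 / 4) ^ k := by
        have : (1 / 4 : ℝ) ^ k = (1 / 2) ^ k * (1 / 2) ^ k := by
          rw [← mul_pow]; norm_num
        rw [this]; ring
      rw [h3]
      have : (0 : ℝ) < (1 / 4) ^ k := by positivity
      linarith
    exact squeeze_zero (fun k => (div_pos (cc_pos k) (be_pos k)).le) h1
      (tendsto_pow_atTop_nhds_zero_of_lt_one (by norm_num) (by norm_num))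
  · intro P S hS
    have hd := WData.evalDiff P
    obtain ⟨C, hC⟩ := (isCompact_closedBall (0 : ℂ) 1).exists_bound_of_continuousOn
      (f := fun z : ℂ => MvPolynomial.eval (fun _ : Fin 1 => z) P) hd.continuous.continuousOn
    exact origin_est (fun z => MvPolynomial.eval (fun _ : Fin 1 => z) P) hd C
      (fun z hz => hC z (by rwa [mem_closedBall_zero_iff])) S hS

end Pool.Agent.Helper34.Cq
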