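import Pool.Agent.Helper34.Cq.FinGen

set_option autoImplicit false
set_option linter.unusedVariables false

namespace Pool.Agent.Helper34.Cq.Bal

open MvPolynomial Topology Filter Metric

/-- Taylor coefficients at `0` as Cauchy integrals over the unit circle -/
noncomputable def co (g : ℂ → ℂ) (k : ℕ) : ℂ :=
  (2 * Real.pi * Complex.I : ℂ)⁻¹ • ∮ z in C(0, 1), (z⁻¹) ^ k * (z⁻¹ * g z)

theorem co_eq (g : ℂ → ℂ) (k : ℕ) : cauchyPowerSeries g 0 1 k (fun _ => 1) = co g k := by
  rw [cauchyPowerSeries_apply]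
  unfold co
  simp only [sub_zero, one_div, smul_eq_mul]

theorem co_le {g : ℂ → ℂ} {M : ℝ} (h : ∀ z : ℂ, ‖z‖ = 1 → ‖g z‖ ≤ M) (k : ℕ) : ‖co g k‖ ≤ M := by
  have h1 := circleIntegral.norm_two_pi_i_inv_smul_integral_le_of_norm_le_const (c := (0 : ℂ)) (R := 1)
    (C := M) (f := fun z => (z⁻¹) ^ k * (z⁻¹ * g z)) zero_le_one (by
      intro z hz
      rw [mem_sphere_zero_iff_norm] at hz
      rw [norm_mul, norm_mul, norm_pow, norm_inv, hz]
      simpa using h z hz)
  rw [one_mul] at h1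
  exact h1

theorem cint {g : ℂ → ℂ} (hg : ContinuousOn g (sphere 0 1)) (k : ℕ) :
    CircleIntegrable (fun z => (z⁻¹) ^ k * (z⁻¹ * g z)) 0 1 := by
  apply ContinuousOn.circleIntegrable zero_le_one
  have h1 : ContinuousOn (fun z : ℂ => z⁻¹) (sphere 0 1) := by
    apply continuousOn_id.inv₀
    intro z hz h
    rw [mem_sphere_zero_iff_norm] at hz
    rw [show z = 0 from h, norm_zero] at hz
    norm_num at hz
  exact (h1.pow k).mul (h1.mul hg)

theorem co_sub {f g : ℂ → ℂ} (hf : ContinuousOn f (sphere 0 1)) (hg : ContinuousOn g (sphere 0 1))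
    (k : ℕ) : co (fun z => f z - g z) k = co f k - co g k := by
  unfold co
  rw [← smul_sub, ← circleIntegral.integral_sub (cint hf k) (cint hg k)]
  congr 2
  funext z
  ring

theorem co_add {f g : ℂ → ℂ} (hf : ContinuousOn f (sphere 0 1)) (hg : ContinuousOn g (sphere 0 1))
    (k : ℕ) : co (fun z => f z + g z) k = co f k + co g k := by
  unfold co
  rw [← smul_add, ← circleIntegral.integral_add (cint hf k) (cint hg k)]
  congr 2
  funext z
  ring

theorem co_mono (c : ℂ) (m k : ℕ) : co (fun z => c * z ^ m) k = if m = k then c else 0 := by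
  unfold co
  have h1 : (∮ z in C(0, 1), (z⁻¹) ^ k * (z⁻¹ * (c * z ^ m))) =
      ∮ z in C(0, 1), c • (z - 0) ^ ((m : ℤ) - k - 1) := by
    apply circleIntegral.integral_congr zero_le_one
    intro z hz
    have hz0 : z ≠ 0 := by
      rintro rfl
      rw [mem_sphere_zero_iff_norm, norm_zero] at hz
      norm_num at hz
    change (z⁻¹) ^ k * (z⁻¹ * (c * z ^ m)) = c * (z - 0) ^ ((m : ℤ) - k - 1)
    rw [sub_zero, zpow_sub₀ hz0, zpow_sub₀ hz0, zpow_natCast, zpow_natCast, zpow_one, inv_pow]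
    field_simp
  rw [h1, circleIntegral.integral_smul]
  by_cases hmk : m = k
  · subst hmk
    rw [if_pos rfl]
    have h2 : (m : ℤ) - m - 1 = -1 := by ring
    rw [h2]
    have h3 : (∮ z in C(0, 1), (z - 0) ^ (-1 : ℤ)) = 2 * Real.pi * Complex.I := by
      rw [← circleIntegral.integral_sub_center_inv (0 : ℂ) one_ne_zero]
      congr 1
      funext z
      rw [zpow_neg_one]
    rw [h3, smul_eq_mul, smul_eq_mul]
    have h4 : (2 * Real.pi * Complex.I : ℂ) ≠ 0 := by
      simp [Real.pi_ne_zero]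
    field_simp
  · rw [if_neg hmk, circleIntegral.integral_sub_zpow_of_ne]
    · simp
    · intro h
      apply hmk
      have : (m : ℤ) = k := by linarith
      exact_mod_cast this

theorem eval_smul_cont {d : ℕ} (P : MvPolynomial (Fin d) ℂ) (w : Fin d → ℂ) :
    Continuous fun z : ℂ => eval (z • w) P :=
  (MvPolynomial.continuous_eval P).comp (continuous_id.smul continuous_const)

theorem co_eval {d : ℕ} (P : MvPolynomial (Fin d) ℂ) (k : ℕ) :
    ∃ P' ∈ restrictTotalDegree (Fin d) ℂ k, ∀ w : Fin d → ℂ,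
      co (fun z => eval (z • w) P) k = eval w P' := by
  induction P using MvPolynomial.induction_on' with
  | monomial u a =>
    have h1 : ∀ (w : Fin d → ℂ) (z : ℂ), eval (z • w) (monomial u a) =
        eval w (monomial u a) * z ^ (u.sum fun _ e => e) := by
      intro w z
      rw [eval_monomial, eval_monomial]
      simp only [Pi.smul_apply, smul_eq_mul, mul_pow, Finsupp.prod_mul]
      have h2 : (u.prod fun _ e => z ^ e) = z ^ (u.sum fun _ e => e) := by
        rw [Finsupp.prod, Finsupp.sum, Finset.prod_pow_eq_pow_sum]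
      rw [h2]
      ring
    by_cases hk : (u.sum fun _ e => e) = k
    · refine ⟨monomial u a, ?_, fun w => ?_⟩
      · rw [mem_restrictTotalDegree]
        exact (totalDegree_monomial_le _ _).trans hk.le
      · simp only [h1, co_mono, if_pos hk]
    · refine ⟨0, Submodule.zero_mem _, fun w => ?_⟩
      simp only [h1, co_mono, if_neg hk, map_zero]
  | add p q hp hq =>
    obtain ⟨p', hp', hp2⟩ := hp
    obtain ⟨q', hq', hq2⟩ := hq
    refine ⟨p' + q', Submodule.add_mem _ hp' hq', fun w => ?_⟩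
    rw [map_add, ← hp2, ← hq2, ← co_add (eval_smul_cont p w).continuousOn
      (eval_smul_cont q w).continuousOn]
    simp only [map_add]

variable {d : ℕ} {Ω : Set (Fin d → ℂ)} {Y : Type*} [NormedAddCommGroup Y] [NormedSpace ℂ Y]
  [CompleteSpace Y]

/-- `Ω` is balanced -/
def IsBal (Ω : Set (Fin d → ℂ)) : Prop := ∀ w ∈ Ω, ∀ c : ℂ, ‖c‖ ≤ 1 → c • w ∈ Ω

/-- the evaluations at the points of the disc through `w` are uniformly bounded -/
theorem unif (T : BSAF d Ω Y) (hb : IsBal Ω) {w : Fin d → ℂ} (hw : w ∈ Ω) :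
    ∃ C : ℝ, 0 ≤ C ∧ ∀ (c : ℂ) (hc : ‖c‖ ≤ 1) (f : Y), ‖T.val f ⟨c • w, hb w hw c hc⟩‖ ≤ C * ‖f‖ := by
  have h1 := banach_steinhaus (ι := {c : ℂ // ‖c‖ ≤ 1})
    (g := fun c => T.evΩ ⟨(c : ℂ) • w, hb w hw c c.2⟩) (by
      intro f
      obtain ⟨g, hg, hgv⟩ := T.analytic f
      have hcont : ContinuousOn (fun c : ℂ => g (c • w)) (closedBall 0 1) := by
        apply hg.continuousOn.comp (continuous_id.smul continuous_const).continuousOn
        intro c hc
        rw [mem_closedBall_zero_iff] at hc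
        exact hb w hw c hc
      obtain ⟨C, hC⟩ := (isCompact_closedBall (0 : ℂ) 1).exists_bound_of_continuousOn hcont
      refine ⟨C, fun c => ?_⟩
      rw [BSAF.evΩ_apply, hgv]
      exact hC c (by rw [mem_closedBall_zero_iff]; exact c.2))
  obtain ⟨C, hC⟩ := h1
  refine ⟨max C 0, le_max_right _ _, fun c hc f => ?_⟩
  have h2 := (T.evΩ ⟨(c : ℂ) • w, hb w hw c hc⟩).le_opNorm f
  rw [BSAF.evΩ_apply] at h2
  refine h2.trans ?_
  gcongr
  exact (hC ⟨c, hc⟩).trans (le_max_left _ _)

theorem line_cont (hb : IsBal Ω) {w : Fin d → ℂ} (hw : w ∈ Ω) {q : (Fin d → ℂ) → ℂ}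
    (hq : DifferentiableOn ℂ q Ω) : DifferentiableOn ℂ (fun c : ℂ => q (c • w)) (closedBall 0 1) := by
  apply hq.comp (differentiable_id.smul_const w).differentiableOn
  intro c hc
  rw [mem_closedBall_zero_iff] at hc
  exact hb w hw c hc

/-- the Taylor coefficients are polynomials -/
theorem coeff_poly (T : BSAF d Ω Y) (hb : IsBal Ω) (f : Y) {q : (Fin d → ℂ) → ℂ}
    (hq : DifferentiableOn ℂ q Ω) (hqf : ∀ w : Ω, T.val f w = q w) (k : ℕ) :
    ∃ P : MvPolynomial (Fin d) ℂ, ∀ w ∈ Ω, co (fun z => q (z • w)) k = eval w P := by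
  set L : MvPolynomial (Fin d) ℂ →ₗ[ℂ] (Ω → ℂ) :=
    { toFun := fun P w => eval (w : Fin d → ℂ) P
      map_add' := fun P Q => by funext w; simp
      map_smul' := fun c P => by funext w; simp } with hL
  set V : Submodule ℂ (Ω → ℂ) := (restrictTotalDegree (Fin d) ℂ k).map L with hV
  have : Module.Finite ℂ (restrictTotalDegree (Fin d) ℂ k) := inferInstance
  have : FiniteDimensional ℂ V := inferInstance
  have hcl : IsClosed (V : Set (Ω → ℂ)) := Submodule.closed_of_finiteDimensional V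
  choose P hP using fun n : ℕ => T.exists_near T.cyclic_one f (show (0 : ℝ) < 1 / ((n : ℝ) + 1) by
    positivity)
  choose P' hP'1 hP'2 using fun n : ℕ => co_eval (P n) k
  have hmem : (fun w : Ω => co (fun z => q (z • (w : Fin d → ℂ))) k) ∈ V := by
    refine hcl.mem_of_tendsto (b := atTop) (f := fun n => L (P' n)) ?_
      (Eventually.of_forall fun n => ⟨P' n, hP'1 n, rfl⟩)
    rw [tendsto_pi_nhds]
    intro w
    obtain ⟨C, hC0, hC⟩ := unif T hb w.2
    rw [tendsto_iff_norm_sub_tendsto_zero]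
    have hlim : Tendsto (fun n : ℕ => C * (1 / ((n : ℝ) + 1))) atTop (𝓝 0) := by
      simpa using tendsto_one_div_add_atTop_nhds_zero_nat.const_mul C
    refine squeeze_zero (fun n => norm_nonneg _) (fun n => ?_) hlim
    change ‖eval (w : Fin d → ℂ) (P' n) - co (fun z => q (z • (w : Fin d → ℂ))) k‖ ≤ _
    rw [← hP'2, ← co_sub (eval_smul_cont (P n) w).continuousOn
      ((line_cont hb w.2 hq).continuousOn.mono sphere_subset_closedBall)]
    apply co_le
    intro z hz
    have h1 := hC z hz.le (T.mul (P n) T.one - f)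
    rw [map_sub, Pi.sub_apply, T.val_mul, T.val_one, mul_one, hqf] at h1
    refine h1.trans ?_
    gcongr
    exact hP n
  obtain ⟨P0, hP01, hP02⟩ := hmem
  exact ⟨P0, fun w hw => (congrFun hP02 ⟨w, hw⟩).symm⟩

/-- bounded functions of the space are bounded pointwise limits of polynomials -/
theorem bdd_approx (T : BSAF d Ω Y) (hb : IsBal Ω) (f : Y) {q : (Fin d → ℂ) → ℂ}
    (hq : DifferentiableOn ℂ q Ω) (hqf : ∀ w : Ω, T.val f w = q w) {M : ℝ}
    (hM : ∀ w ∈ Ω, ‖q w‖ ≤ M) :
    ∃ P : ℕ → MvPolynomial (Fin d) ℂ, (∀ n, ∀ w ∈ Ω, ‖eval w (P n)‖ ≤ M + 1) ∧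
      ∀ w ∈ Ω, Tendsto (fun n => eval w (P n)) atTop (𝓝 (q w)) := by
  choose a ha using coeff_poly T hb f hq hqf
  set r : ℕ → ℝ := fun n => 1 - 1 / ((n : ℝ) + 2) with hr
  have hr0 : ∀ n, 0 ≤ r n := by
    intro n
    have h1 : 1 / ((n : ℝ) + 2) ≤ 1 := by
      rw [div_le_one (by positivity)]
      have : (0 : ℝ) ≤ n := Nat.cast_nonneg n
      linarith
    rw [hr]
    simp only
    linarith
  have hr1 : ∀ n, r n < 1 := by
    intro n
    rw [hr]
    simp only
    have : (0 : ℝ) < 1 / ((n : ℝ) + 2) := by positivity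
    linarith
  have hN : ∀ n : ℕ, ∃ N : ℕ, |M| * r n ^ N / (1 - r n) ≤ 1 / ((n : ℝ) + 1) := by
    intro n
    have h1 : 0 < 1 - r n := by linarith [hr1 n]
    obtain ⟨N, hN⟩ := exists_pow_lt_of_lt_one (show 0 < 1 / ((n : ℝ) + 1) * (1 - r n) / (|M| + 1) by
      positivity) (hr1 n)
    refine ⟨N, ?_⟩
    rw [div_le_iff₀ h1]
    rw [lt_div_iff₀ (by positivity)] at hN
    have h2 : 0 ≤ r n ^ N := pow_nonneg (hr0 n) N
    nlinarith [abs_nonneg M]
  choose N hN using hN
  have key : ∀ n, ∀ w ∈ Ω, ‖eval w (∑ k ∈ Finset.range (N n), C (((r n : ℝ) : ℂ) ^ k) * a k) -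
      q (((r n : ℝ) : ℂ) • w)‖ ≤ 1 / ((n : ℝ) + 1) := by
    intro n w hw
    have hps := (line_cont hb hw hq).hasFPowerSeriesOnBall (R := 1) (c := 0) zero_lt_one
    have hmem : ((r n : ℝ) : ℂ) ∈ eball (0 : ℂ) ((1 : NNReal) : ENNReal) := by
      rw [Metric.mem_eball, edist_zero_right, ← ofReal_norm, Complex.norm_real,
        Real.norm_eq_abs, abs_of_nonneg (hr0 n), ENNReal.coe_one, ← ENNReal.ofReal_one]
      exact (ENNReal.ofReal_lt_ofReal_iff one_pos).mpr (hr1 n)
    have hs := hps.hasSum hmem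
    rw [zero_add] at hs
    have hs2 : HasSum (fun k => ((r n : ℝ) : ℂ) ^ k * eval w (a k)) (q (((r n : ℝ) : ℂ) • w)) := by
      refine hs.congr_fun ?_
      intro k
      rw [← ha k w hw, ← co_eq]
      have h3 := (cauchyPowerSeries (fun c : ℂ => q (c • w)) 0 1 k).map_smul_univ
        (fun _ => ((r n : ℝ) : ℂ)) (fun _ => 1)
      simp only [smul_eq_mul, mul_one, Finset.prod_const, Finset.card_univ, Fintype.card_fin] at h3
      exact h3.symm
    have hbd : ∀ k, ‖((r n : ℝ) : ℂ) ^ k * eval w (a k)‖ ≤ |M| * r n ^ k := by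
      intro k
      rw [norm_mul, norm_pow, Complex.norm_real, Real.norm_eq_abs, abs_of_nonneg (hr0 n), mul_comm,
        ← ha k w hw]
      have h4 : 0 ≤ r n ^ k := pow_nonneg (hr0 n) k
      gcongr
      apply co_le
      intro z hz
      exact (hM _ (hb w hw z hz.le)).trans (le_abs_self M)
    have h5 := norm_sub_le_of_geometric_bound_of_hasSum (hr1 n) hbd hs2 (N n)
    have h6 : eval w (∑ k ∈ Finset.range (N n), C (((r n : ℝ) : ℂ) ^ k) * a k) =
        ∑ k ∈ Finset.range (N n), ((r n : ℝ) : ℂ) ^ k * eval w (a k) := by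
      rw [map_sum]
      apply Finset.sum_congr rfl
      intro k _
      rw [map_mul, eval_C]
    rw [h6]
    exact h5.trans (hN n)
  have hrw : ∀ n, ∀ w ∈ Ω, ((r n : ℝ) : ℂ) • w ∈ Ω := by
    intro n w hw
    apply hb w hw
    rw [Complex.norm_real, Real.norm_eq_abs, abs_of_nonneg (hr0 n)]
    exact (hr1 n).le
  refine ⟨fun n => ∑ k ∈ Finset.range (N n), C (((r n : ℝ) : ℂ) ^ k) * a k, fun n w hw => ?_,
    fun w hw => ?_⟩
  · have h1 := key n w hw
    have h2 := hM _ (hrw n w hw)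
    have h3 : 1 / ((n : ℝ) + 1) ≤ 1 := by
      rw [div_le_one (by positivity)]
      have : (0 : ℝ) ≤ n := Nat.cast_nonneg n
      linarith
    have h4 := norm_sub_norm_le (eval w (∑ k ∈ Finset.range (N n), C (((r n : ℝ) : ℂ) ^ k) * a k))
      (q (((r n : ℝ) : ℂ) • w))
    linarith
  · have hlim : Tendsto (fun n : ℕ => 1 / ((n : ℝ) + 1)) atTop (𝓝 0) :=
      tendsto_one_div_add_atTop_nhds_zero_nat
    have h1 : Tendsto (fun n => eval w (∑ k ∈ Finset.range (N n), C (((r n : ℝ) : ℂ) ^ k) * a k) -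
      q (((r n : ℝ) : ℂ) • w)) atTop (𝓝 0) := by
      rw [tendsto_zero_iff_norm_tendsto_zero]
      exact squeeze_zero (fun n => norm_nonneg _) (fun n => key n w hw) hlim
    have hrl : Tendsto r atTop (𝓝 1) := by
      have h2 : Tendsto (fun n : ℕ => 1 / ((n : ℝ) + 2)) atTop (𝓝 0) := by
        refine squeeze_zero (fun n => by positivity) (fun n => ?_) hlim
        apply one_div_le_one_div_of_le (by positivity)
        linarith
      have h3 := h2.const_sub 1
      rw [sub_zero] at h3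
      exact h3
    have hrl' : Tendsto (fun n => ((r n : ℝ) : ℂ)) atTop (𝓝 1) := by
      have := (Complex.continuous_ofReal.tendsto 1).comp hrl
      simpa [Function.comp_def] using this
    have h4 : Tendsto (fun n => q (((r n : ℝ) : ℂ) • w)) atTop (𝓝 (q w)) := by
      have hcw : ContinuousWithinAt (fun c : ℂ => q (c • w)) (closedBall 0 1) 1 :=
        (line_cont hb hw hq).continuousOn 1 (by simp)
      have h5 := hcw.tendsto
      rw [one_smul] at h5
      refine h5.comp ?_
      rw [tendsto_nhdsWithin_iff]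
      refine ⟨hrl', Eventually.of_forall fun n => ?_⟩
      rw [mem_closedBall_zero_iff, Complex.norm_real, Real.norm_eq_abs, abs_of_nonneg (hr0 n)]
      exact (hr1 n).le
    have h6 := h1.add h4
    simpa using h6

/-- Over a balanced open set, every module over the bounded analytic functions with the weak
continuity property has (CP). -/
theorem hasCP_bal.{u, v} {d' : ℕ} {Ω' : Set (Fin d' → ℂ)} {Z : Type v} [NormedAddCommGroup Z]
    [NormedSpace ℂ Z] [CompleteSpace Z] (T : BSAF d' Ω' Z) (hb : IsBal Ω') (hT : T.HInfModule)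
    (hbp : T.BPWeak) : HasCP.{u} T := by
  apply hasCP_of_bddCyclic
  intro F hF
  have h1 : closure (T.bOrbit F) ⊆ closure (T.orbit F) := by
    apply closure_minimal _ isClosed_closure
    intro G hG
    obtain ⟨q, hq1, ⟨M, hM⟩, hq3⟩ := T.bOrbit_spec hG
    obtain ⟨f0, hf0⟩ := hT q hq1 ⟨M, hM⟩ T.one
    have hf1 : ∀ w : Ω', T.val f0 w = q w := by
      intro w
      rw [hf0, T.val_one, mul_one]
    obtain ⟨P, hP1, hP2⟩ := bdd_approx T hb f0 hq1 hf1 hM
    exact T.weak_to_norm' hT hbp (h := fun w => w) differentiableOn_id F G q hq1 hq3 P _ hP1 hP2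
  rw [hF] at h1
  exact Set.eq_univ_of_univ_subset h1

end Pool.Agent.Helper34.Cq.Bal
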