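import Pool.Agent.Helper34.Cq.FinGen

set_option autoImplicit false
set_option linter.unusedVariables false

namespace Pool.Agent.Helper34.Cq

open MvPolynomial Topology Filter MeasureTheory

variable {d : ℕ} {Ω : Set (Fin d → ℂ)} {Y : Type*} [NormedAddCommGroup Y] [NormedSpace ℂ Y]
  [CompleteSpace Y]

/-- `Y` is the weighted Bergman space of all analytic functions `g` on `Ω` with
`∫_Ω |g|^p dμ < ∞`, with the `L^p` norm. -/
def IsBergman (T : BSAF d Ω Y) (p : ℝ) (μ : Measure (Fin d → ℂ)) : Prop :=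
  ∀ g : (Fin d → ℂ) → ℂ, DifferentiableOn ℂ g Ω →
    ((∃ f : Y, ∀ w : Ω, T.val f w = g w) ↔ IntegrableOn (fun w => ‖g w‖ ^ p) Ω μ) ∧
    ∀ f : Y, (∀ w : Ω, T.val f w = g w) → ‖f‖ ^ p = ∫ w in Ω, ‖g w‖ ^ p ∂μ

theorem meas_rpow {g : (Fin d → ℂ) → ℂ} (hΩ : IsOpen Ω) (hg : DifferentiableOn ℂ g Ω) {p : ℝ}
    (hp : 1 ≤ p) (μ : Measure (Fin d → ℂ)) :
    AEStronglyMeasurable (fun w => ‖g w‖ ^ p) (μ.restrict Ω) := by
  have h1 : ContinuousOn (fun w => ‖g w‖ ^ p) Ω :=
    hg.continuousOn.norm.rpow_const (fun w hw => Or.inr (by linarith))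
  exact h1.aestronglyMeasurable hΩ.measurableSet

theorem hInf_of_bergman (T : BSAF d Ω Y) {p : ℝ} (hp : 1 ≤ p) {μ : Measure (Fin d → ℂ)}
    (h : IsBergman T p μ) : T.HInfModule := by
  intro q hq ⟨C, hC⟩ f
  obtain ⟨g, hg, hgv⟩ := T.analytic f
  have h1 : IntegrableOn (fun w => ‖g w‖ ^ p) Ω μ := (h g hg).1.mp ⟨f, hgv⟩
  have hd : DifferentiableOn ℂ (fun w => q w * g w) Ω := hq.mul hg
  have h2 : IntegrableOn (fun w => ‖q w * g w‖ ^ p) Ω μ := by
    refine Integrable.mono' (h1.const_mul (|C| ^ p)) (meas_rpow T.isOpen hd hp μ) ?_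
    filter_upwards [ae_restrict_mem T.isOpen.measurableSet] with w hw
    rw [Real.norm_eq_abs, abs_of_nonneg (by positivity), norm_mul,
      Real.mul_rpow (norm_nonneg _) (norm_nonneg _)]
    gcongr
    exact (hC w hw).trans (le_abs_self C)
  obtain ⟨f', hf'⟩ := (h _ hd).1.mpr h2
  exact ⟨f', fun w => by rw [hf', hgv]⟩

theorem bpWeak_of_bergman (T : BSAF d Ω Y) {p : ℝ} (hp : 1 ≤ p) {μ : Measure (Fin d → ℂ)}
    (h : IsBergman T p μ) : T.BPWeak := by
  intro q q0 C F G G0 hq hq0 hC hlim hG hG0 Λ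
  obtain ⟨g, hg, hgv⟩ := T.analytic F
  have hp0 : 0 < p := by linarith
  have h1 : IntegrableOn (fun w => ‖g w‖ ^ p) Ω μ := (h g hg).1.mp ⟨F, hgv⟩
  have hC0 : ∀ w ∈ Ω, ‖q0 w‖ ≤ C := fun w hw =>
    le_of_tendsto (hlim w hw).norm (Eventually.of_forall fun n => hC n w hw)
  have hd : ∀ n, DifferentiableOn ℂ (fun w => (q n w - q0 w) * g w) Ω := fun n =>
    ((hq n).sub hq0).mul hg
  have hnorm : ∀ n, ‖G n - G0‖ ^ p = ∫ w in Ω, ‖(q n w - q0 w) * g w‖ ^ p ∂μ := by
    intro n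
    apply (h _ (hd n)).2
    intro w
    rw [map_sub, Pi.sub_apply, hG, hG0, hgv]
    ring
  have hzero : Tendsto (fun n => ∫ w in Ω, ‖(q n w - q0 w) * g w‖ ^ p ∂μ) atTop (𝓝 0) := by
    have h2 := tendsto_integral_of_dominated_convergence (μ := μ.restrict Ω)
      (F := fun n w => ‖(q n w - q0 w) * g w‖ ^ p) (f := fun _ => (0 : ℝ))
      (fun w => (2 * |C|) ^ p * ‖g w‖ ^ p)
      (fun n => meas_rpow T.isOpen (hd n) hp μ) (h1.const_mul _) ?_ ?_
    · simpa using h2
    · intro n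
      filter_upwards [ae_restrict_mem T.isOpen.measurableSet] with w hw
      rw [Real.norm_eq_abs, abs_of_nonneg (by positivity), norm_mul,
        Real.mul_rpow (norm_nonneg _) (norm_nonneg _)]
      gcongr
      have h3 := norm_sub_le (q n w) (q0 w)
      have h4 := hC n w hw
      have h5 := hC0 w hw
      have h6 := le_abs_self C
      linarith
    · filter_upwards [ae_restrict_mem T.isOpen.measurableSet] with w hw
      have h3 : Tendsto (fun n => ‖(q n w - q0 w) * g w‖) atTop (𝓝 0) := by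
        have h4 := ((hlim w hw).sub_const (q0 w)).mul_const (g w)
        rw [sub_self, zero_mul] at h4
        simpa using h4.norm
      have h4 := h3.rpow_const (p := p) (Or.inr hp0.le)
      rwa [Real.zero_rpow hp0.ne'] at h4
  have hnz : Tendsto (fun n => ‖G n - G0‖) atTop (𝓝 0) := by
    have h2 : Tendsto (fun n => ‖G n - G0‖ ^ p) atTop (𝓝 0) := by
      simpa only [hnorm] using hzero
    have h3 := h2.rpow_const (p := p⁻¹) (Or.inr (by positivity))
    rw [Real.zero_rpow (by positivity)] at h3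
    refine h3.congr fun n => ?_
    rw [← Real.rpow_mul (norm_nonneg _), mul_inv_cancel₀ hp0.ne', Real.rpow_one]
  exact (Λ.continuous.tendsto G0).comp (tendsto_iff_norm_sub_tendsto_zero.mpr hnz)

end Pool.Agent.Helper34.Cq
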