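import Pool.Agent.Helper34.Cq.Core

set_option autoImplicit false
set_option linter.unusedVariables false

namespace Pool.Agent.Helper34.Cq

open Topology Filter Polynomial

/-! ### A separating iteration -/

/-- the cubic `3 x^2 - 2 x^3` -/
noncomputable def sP : ℂ[X] := 3 * X ^ 2 - 2 * X ^ 3

theorem sP_eval (x : ℂ) : sP.eval x = 3 * x ^ 2 - 2 * x ^ 3 := by
  simp [sP]

/-- iterated composition -/
noncomputable def itP (q : ℂ[X]) : ℕ → ℂ[X]
  | 0 => q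
  | n + 1 => sP.comp (itP q n)

theorem itP_small (q : ℂ[X]) (z : ℂ) (h : ‖q.eval z‖ ≤ 1 / 4) (n : ℕ) :
    ‖(itP q n).eval z‖ ≤ (7 / 8) ^ n * (1 / 4) := by
  induction n with
  | zero => simpa [itP] using h
  | succ n ih =>
    rw [itP, eval_comp, sP_eval]
    set x := (itP q n).eval z
    have hx : ‖x‖ ≤ 1 / 4 := ih.trans (by
      have : (7 / 8 : ℝ) ^ n ≤ 1 := pow_le_one₀ (by norm_num) (by norm_num)
      nlinarith)
    have h0 := norm_nonneg x
    calc ‖3 * x ^ 2 - 2 * x ^ 3‖ ≤ ‖3 * x ^ 2‖ + ‖2 * x ^ 3‖ := norm_sub_le _ _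
      _ = 3 * ‖x‖ ^ 2 + 2 * ‖x‖ ^ 3 := by simp [norm_mul, norm_pow]
      _ ≤ (7 / 8) * ‖x‖ := by nlinarith [mul_nonneg h0 h0, mul_nonneg (mul_nonneg h0 h0) h0]
      _ ≤ (7 / 8) * ((7 / 8) ^ n * (1 / 4)) := by gcongr
      _ = _ := by ring

theorem itP_near (q : ℂ[X]) (z : ℂ) (h : ‖q.eval z - 1‖ ≤ 1 / 4) (n : ℕ) :
    ‖(itP q n).eval z - 1‖ ≤ (7 / 8) ^ n * (1 / 4) := by
  induction n with
  | zero => simpa [itP] using h
  | succ n ih =>
    rw [itP, eval_comp, sP_eval]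
    set x := (itP q n).eval z
    have hx : ‖x - 1‖ ≤ 1 / 4 := ih.trans (by
      have : (7 / 8 : ℝ) ^ n ≤ 1 := pow_le_one₀ (by norm_num) (by norm_num)
      nlinarith)
    have h0 := norm_nonneg (x - 1)
    have h1 : 3 * x ^ 2 - 2 * x ^ 3 - 1 = -(3 * (x - 1) ^ 2 + 2 * (x - 1) ^ 3) := by ring
    rw [h1, norm_neg]
    calc ‖3 * (x - 1) ^ 2 + 2 * (x - 1) ^ 3‖ ≤ ‖3 * (x - 1) ^ 2‖ + ‖2 * (x - 1) ^ 3‖ :=
          norm_add_le _ _
      _ = 3 * ‖x - 1‖ ^ 2 + 2 * ‖x - 1‖ ^ 3 := by simp [norm_mul, norm_pow]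
      _ ≤ (7 / 8) * ‖x - 1‖ := by nlinarith [mul_nonneg h0 h0, mul_nonneg (mul_nonneg h0 h0) h0]
      _ ≤ (7 / 8) * ((7 / 8) ^ n * (1 / 4)) := by gcongr
      _ = _ := by ring

theorem itP_one (q : ℂ[X]) (z : ℂ) (h : q.eval z = 1) (n : ℕ) : (itP q n).eval z = 1 := by
  induction n with
  | zero => simpa [itP] using h
  | succ n ih => rw [itP, eval_comp, sP_eval, ih]; norm_num

theorem sep (q : ℂ[X]) {ε : ℝ} (hε : 0 < ε) : ∃ r : ℂ[X],
    (∀ z, ‖q.eval z‖ ≤ 1 / 4 → ‖r.eval z‖ ≤ ε) ∧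
    (∀ z, ‖q.eval z - 1‖ ≤ 1 / 4 → ‖r.eval z - 1‖ ≤ ε) ∧
    (∀ z, q.eval z = 1 → r.eval z = 1) := by
  obtain ⟨n, hn⟩ := exists_pow_lt_of_lt_one hε (show (7 / 8 : ℝ) < 1 by norm_num)
  have h1 : (7 / 8 : ℝ) ^ n * (1 / 4) ≤ ε := by
    have : (0 : ℝ) < (7 / 8) ^ n := by positivity
    linarith
  exact ⟨itP q n, fun z hz => (itP_small q z hz n).trans h1,
    fun z hz => (itP_near q z hz n).trans h1, fun z hz => itP_one q z hz n⟩

/-! ### The first domain: small discs -/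

noncomputable def mu (k : ℕ) : ℝ := (1 / 64) ^ (k + 1)

theorem mu_pos (k : ℕ) : 0 < mu k := by unfold mu; positivity

theorem mu_le (k : ℕ) : mu k ≤ 1 / 64 := by
  unfold mu
  rw [pow_succ]
  have : (1 / 64 : ℝ) ^ k ≤ 1 := pow_le_one₀ (by norm_num) (by norm_num)
  linarith

theorem mu_anti {j k : ℕ} (h : j ≤ k) : mu k ≤ mu j := by
  unfold mu
  exact pow_le_pow_of_le_one (by norm_num) (by norm_num) (by omega)

theorem mu_anti' {j k : ℕ} (h : j < k) : mu k ≤ mu j / 64 := by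
  have h1 : mu k ≤ mu (j + 1) := mu_anti h
  have h2 : mu (j + 1) = mu j / 64 := by unfold mu; rw [pow_succ (1 / 64 : ℝ) (j + 1)]; ring
  linarith

noncomputable def V (k : ℕ) : Set ℂ := Metric.ball (mu k : ℂ) (mu k / 2)

theorem V_norm {k : ℕ} {z : ℂ} (hz : z ∈ V k) : mu k / 2 < ‖z‖ ∧ ‖z‖ < 3 / 2 * mu k := by
  rw [V, Metric.mem_ball, dist_eq_norm] at hz
  have h1 : ‖(mu k : ℂ)‖ = mu k := by
    rw [Complex.norm_real, Real.norm_eq_abs, abs_of_pos (mu_pos k)]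
  have h2 := norm_sub_norm_le (mu k : ℂ) z
  have h3 := norm_sub_norm_le z (mu k : ℂ)
  rw [norm_sub_rev] at h2
  constructor <;> linarith

theorem V_disj (j k : ℕ) (z : ℂ) (h1 : z ∈ V j) (h2 : z ∈ V k) : j = k := by
  by_contra hne
  rcases lt_or_gt_of_ne hne with h | h
  · have := mu_anti' h
    have a := V_norm h1
    have b := V_norm h2
    have := mu_pos j
    linarith [a.1, b.2]
  · have := mu_anti' h
    have a := V_norm h1
    have b := V_norm h2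
    have := mu_pos k
    linarith [a.2, b.1]

theorem V_one_sub {k : ℕ} {z : ℂ} (hz : z ∈ V k) : ‖1 - z‖ ≤ 1 - mu k / 2 := by
  rw [V, Metric.mem_ball, dist_eq_norm] at hz
  have h1 : 1 - z = ((1 - mu k : ℝ) : ℂ) - (z - (mu k : ℂ)) := by push_cast; ring
  rw [h1]
  have h2 : ‖((1 - mu k : ℝ) : ℂ)‖ = 1 - mu k := by
    rw [Complex.norm_real, Real.norm_eq_abs, abs_of_nonneg]
    have := mu_le k
    linarith
  calc _ ≤ _ := norm_sub_le _ _
    _ ≤ (1 - mu k) + mu k / 2 := by rw [h2]; linarith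
    _ = _ := by ring

theorem one_sub_pow_le (w : ℂ) (hw : ‖w‖ ≤ 1) (n : ℕ) : ‖w ^ n - 1‖ ≤ n * ‖1 - w‖ := by
  induction n with
  | zero => simp
  | succ n ih =>
    have h1 : w ^ (n + 1) - 1 = w * (w ^ n - 1) - (1 - w) := by ring
    rw [h1]
    calc _ ≤ ‖w * (w ^ n - 1)‖ + ‖1 - w‖ := norm_sub_le _ _
      _ ≤ 1 * (n * ‖1 - w‖) + ‖1 - w‖ := by
          rw [norm_mul]
          gcongr
      _ = _ := by push_cast; ring

/-- the separating polynomial of the `k`-th disc -/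
noncomputable def qV (k : ℕ) : ℂ[X] := (1 - X) ^ (4 * 64 ^ (k + 1))

theorem qV_eval (k : ℕ) (z : ℂ) : (qV k).eval z = (1 - z) ^ (4 * 64 ^ (k + 1)) := by
  simp [qV]

theorem nmu (k : ℕ) : ((4 * 64 ^ (k + 1) : ℕ) : ℝ) * mu k = 4 := by
  unfold mu
  push_cast
  rw [mul_assoc, ← mul_pow]
  norm_num

theorem qV_small {j k : ℕ} (h : j ≤ k) {z : ℂ} (hz : z ∈ V j) : ‖(qV k).eval z‖ ≤ 1 / 4 := by
  rw [qV_eval, norm_pow]
  have h1 : ‖1 - z‖ ≤ 1 - mu k / 2 := (V_one_sub hz).trans (by have := mu_anti h; linarith)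
  have h2 : 1 - mu k / 2 ≤ Real.exp (-(mu k / 2)) := Real.one_sub_le_exp_neg _
  calc ‖1 - z‖ ^ (4 * 64 ^ (k + 1)) ≤ (Real.exp (-(mu k / 2))) ^ (4 * 64 ^ (k + 1)) := by
        gcongr
        exact h1.trans h2
    _ = Real.exp (-2) := by
        rw [← Real.exp_nat_mul]
        congr 1
        have := nmu k
        linarith
    _ ≤ 1 / 4 := by
        rw [Real.exp_neg]
        have h3 : (4 : ℝ) ≤ Real.exp 2 := by
          have h4 : Real.exp 2 = Real.exp 1 * Real.exp 1 := by rw [← Real.exp_add]; norm_num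
          have h5 := Real.add_one_le_exp (1 : ℝ)
          rw [h4]
          nlinarith
        rw [one_div]
        exact inv_anti₀ (by norm_num) h3

theorem qV_near {j k : ℕ} (h : k < j) {z : ℂ} (hz : z ∈ V j) : ‖(qV k).eval z - 1‖ ≤ 1 / 4 := by
  rw [qV_eval]
  have h1 : ‖1 - z‖ ≤ 1 := (V_one_sub hz).trans (by have := mu_pos j; linarith)
  refine (one_sub_pow_le _ h1 _).trans ?_
  have h2 : (1 : ℂ) - (1 - z) = z := by ring
  rw [h2]
  have h3 := (V_norm hz).2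
  have h4 := mu_anti' h
  have h5 := nmu k
  have h6 := mu_pos k
  calc ((4 * 64 ^ (k + 1) : ℕ) : ℝ) * ‖z‖ ≤ ((4 * 64 ^ (k + 1) : ℕ) : ℝ) * (3 / 128 * mu k) := by
        gcongr
        linarith
    _ = 3 / 128 * (((4 * 64 ^ (k + 1) : ℕ) : ℝ) * mu k) := by ring
    _ ≤ 1 / 4 := by rw [h5]; norm_num

theorem V_app (k : ℕ) (ε : ℝ) (hε : 0 < ε) : ∃ P : ℂ[X], ∀ j, ∀ z ∈ V j,
    ‖P.eval z - (if j = k then 1 else 0)‖ ≤ ε := by
  have hr : ∀ k : ℕ, ∃ r : ℂ[X], (∀ j ≤ k, ∀ z ∈ V j, ‖r.eval z‖ ≤ ε / 2) ∧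
      (∀ j, k < j → ∀ z ∈ V j, ‖r.eval z - 1‖ ≤ ε / 2) := by
    intro k
    obtain ⟨r, h1, h2, -⟩ := sep (qV k) (half_pos hε)
    exact ⟨r, fun j hj z hz => h1 z (qV_small hj hz), fun j hj z hz => h2 z (qV_near hj hz)⟩
  rcases Nat.eq_zero_or_pos k with rfl | hk
  · obtain ⟨r, h1, h2⟩ := hr 0
    refine ⟨1 - r, fun j z hz => ?_⟩
    rw [eval_sub, eval_one]
    by_cases hj : j = 0
    · subst hj
      simp only [if_true]
      have := h1 0 le_rfl z hz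
      rw [show (1 : ℂ) - r.eval z - 1 = - r.eval z by ring, norm_neg]
      linarith
    · simp only [hj, if_false]
      have := h2 j (Nat.pos_of_ne_zero hj) z hz
      rw [show (1 : ℂ) - r.eval z - 0 = -(r.eval z - 1) by ring, norm_neg]
      linarith
  · obtain ⟨r, h1, h2⟩ := hr k
    obtain ⟨r', h1', h2'⟩ := hr (k - 1)
    refine ⟨r' - r, fun j z hz => ?_⟩
    rw [eval_sub]
    rcases lt_trichotomy j k with hj | hj | hj
    · have a := h1 j hj.le z hz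
      have b := h1' j (by omega) z hz
      simp only [hj.ne, if_false, sub_zero]
      calc _ ≤ _ := norm_sub_le _ _
        _ ≤ ε := by linarith
    · subst hj
      have a := h1 j le_rfl z hz
      have b := h2' j (by omega) z hz
      simp only [if_true]
      rw [show r'.eval z - r.eval z - 1 = (r'.eval z - 1) - r.eval z by ring]
      calc _ ≤ _ := norm_sub_le _ _
        _ ≤ ε := by linarith
    · have a := h2 j hj z hz
      have b := h2' j (by omega) z hz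
      simp only [hj.ne', if_false, sub_zero]
      rw [show r'.eval z - r.eval z = (r'.eval z - 1) - (r.eval z - 1) by ring]
      calc _ ≤ _ := norm_sub_le _ _
        _ ≤ ε := by linarith

end Pool.Agent.Helper34.Cq
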