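import Pool.Agent.Helper34.Cq.Suff

set_option autoImplicit false

namespace Pool.Agent.Helper34.Cq

open MvPolynomial Topology Filter

universe u v

/-- Weak sequential limits of elements of a subspace lie in its norm closure. -/
theorem mem_closure_of_weak {Y : Type v} [NormedAddCommGroup Y] [NormedSpace ℂ Y]
    (M : Submodule ℂ Y) (G : ℕ → Y) (g : Y) (hG : ∀ n, G n ∈ M)
    (hw : ∀ Λ : Y →L[ℂ] ℂ, Tendsto (fun n => Λ (G n)) atTop (𝓝 (Λ g))) :
    g ∈ closure (M : Set Y) := by
  by_contra hcon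
  have hconv : Convex ℝ (closure (M : Set Y)) := by
    have : Convex ℝ (M : Set Y) := (M.restrictScalars ℝ).convex
    exact this.closure
  obtain ⟨f, u, h1, h2⟩ := RCLike.geometric_hahn_banach_closed_point (𝕜 := ℂ) hconv
    isClosed_closure hcon
  have h3 : Tendsto (fun n => RCLike.re (f (G n))) atTop (𝓝 (RCLike.re (f g))) :=
    ((RCLike.continuous_re (K := ℂ)).tendsto _).comp (hw f)
  have h4 : RCLike.re (f g) ≤ u :=
    le_of_tendsto h3 (Eventually.of_forall fun n => (h1 _ (subset_closure (hG n))).le)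
  linarith

namespace BSAF

variable {d : ℕ} {Ω : Set (Fin d → ℂ)} {X : Type u} [NormedAddCommGroup X] [NormedSpace ℂ X]
  [CompleteSpace X]

/-- The multiplier algebra of `X` (functions on `Ω`). -/
def IsMult (S : BSAF d Ω X) (m : Ω → ℂ) : Prop :=
  ∀ g : X, ∃ h : X, ∀ w : Ω, S.val h w = m w * S.val g w

/-- The set `{m f : m` a multiplier`}`. -/
def mOrbit (S : BSAF d Ω X) (f : X) : Set X :=
  {g | ∃ m : Ω → ℂ, S.IsMult m ∧ ∀ w : Ω, S.val g w = m w * S.val f w}

/-- `f` is multiplier-cyclic. -/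
def MultCyclic (S : BSAF d Ω X) (f : X) : Prop := closure (S.mOrbit f) = Set.univ

/-- Multiplication by a multiplier is a bounded operator (closed graph theorem). -/
theorem exists_multOp (S : BSAF d Ω X) {m : Ω → ℂ} (hm : S.IsMult m) :
    ∃ M : X →L[ℂ] X, ∀ (g : X) (w : Ω), S.val (M g) w = m w * S.val g w := by
  choose h hh using hm
  set L : X →ₗ[ℂ] X :=
    { toFun := h
      map_add' := fun f g => by
        apply S.inj
        funext w
        simp only [hh, map_add, Pi.add_apply]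
        ring
      map_smul' := fun c f => by
        apply S.inj
        funext w
        simp only [hh, map_smul, Pi.smul_apply, smul_eq_mul, RingHom.id_apply]
        ring } with hL
  have hcont : Continuous L := by
    apply LinearMap.continuous_of_seq_closed_graph
    intro un x y hu hLu
    apply S.inj
    funext w
    have h1 : Tendsto (fun n => S.evΩ w (L (un n))) atTop (𝓝 (S.evΩ w y)) :=
      ((S.evΩ w).continuous.tendsto _).comp hLu
    have h2 : Tendsto (fun n => m w * S.evΩ w (un n)) atTop (𝓝 (m w * S.evΩ w x)) :=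
      (((S.evΩ w).continuous.tendsto _).comp hu).const_mul _
    have h3 : (fun n => S.evΩ w (L (un n))) = fun n => m w * S.evΩ w (un n) := by
      funext n
      exact hh (un n) w
    rw [h3] at h1
    have h4 := tendsto_nhds_unique h1 h2
    rw [evΩ_apply, evΩ_apply] at h4
    rw [h4]
    exact (hh x w).symm
  exact ⟨⟨L, hcont⟩, fun g w => hh g w⟩

/-- the multiplication operator of a multiplier -/
noncomputable def multOp (S : BSAF d Ω X) {m : Ω → ℂ} (hm : S.IsMult m) : X →L[ℂ] X :=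
  Classical.choose (S.exists_multOp hm)

theorem val_multOp (S : BSAF d Ω X) {m : Ω → ℂ} (hm : S.IsMult m) (g : X) (w : Ω) :
    S.val (S.multOp hm g) w = m w * S.val g w :=
  Classical.choose_spec (S.exists_multOp hm) g w

theorem multOp_mul (S : BSAF d Ω X) {m : Ω → ℂ} (hm : S.IsMult m) (P : MvPolynomial (Fin d) ℂ)
    (g : X) : S.multOp hm (S.mul P g) = S.mul P (S.multOp hm g) := by
  apply S.inj
  funext w
  simp only [val_multOp, val_mul]
  ring

/-- functionals extending evaluations are multiplicative with respect to multipliers -/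
theorem isEval_multOp (S : BSAF d Ω X) {m : Ω → ℂ} (hm : S.IsMult m) {w : Fin d → ℂ}
    {Λ : X →L[ℂ] ℂ} (h : S.IsEval w Λ) (f : X) :
    Λ (S.multOp hm f) = Λ (S.multOp hm S.one) * Λ f := by
  refine S.induct (fun f => Λ (S.multOp hm f) = Λ (S.multOp hm S.one) * Λ f)
    (isClosed_eq (Λ.continuous.comp (S.multOp hm).continuous)
      (continuous_const.mul Λ.continuous)) ?_ f
  intro P
  rw [S.multOp_mul, S.isEval_mul h, (S.isEval_iff w Λ).mp h]
  ring

/-- multipliers are bounded -/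
theorem mult_bdd (S : BSAF d Ω X) {m : Ω → ℂ} (hm : S.IsMult m) (w : S.maxDomain) :
    ‖S.ev w (S.multOp hm S.one)‖ ≤ ‖S.multOp hm‖ := by
  have hev := S.ev_spec w
  have hne : S.ev w ≠ 0 := by
    intro h0
    have := S.isEval_one hev
    rw [h0] at this
    simp at this
  have h1 : ‖(S.ev w (S.multOp hm S.one)) • S.ev w‖ ≤ ‖S.ev w‖ * ‖S.multOp hm‖ := by
    apply ContinuousLinearMap.opNorm_le_bound _ (by positivity)
    intro f
    have h2 : ((S.ev w (S.multOp hm S.one)) • S.ev w) f = S.ev w (S.multOp hm f) := by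
      rw [S.isEval_multOp hm hev f]
      rfl
    rw [h2]
    calc ‖S.ev w (S.multOp hm f)‖ ≤ ‖S.ev w‖ * ‖S.multOp hm f‖ := (S.ev w).le_opNorm _
      _ ≤ ‖S.ev w‖ * (‖S.multOp hm‖ * ‖f‖) := by gcongr; exact (S.multOp hm).le_opNorm _
      _ = ‖S.ev w‖ * ‖S.multOp hm‖ * ‖f‖ := by ring
  rw [norm_smul] at h1
  have hpos : 0 < ‖S.ev w‖ := norm_pos_iff.mpr hne
  have h3 : ‖S.ev w (S.multOp hm S.one)‖ * ‖S.ev w‖ ≤ ‖S.multOp hm‖ * ‖S.ev w‖ := by
    linarith [mul_comm ‖S.ev w‖ ‖S.multOp hm‖]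
  exact le_of_mul_le_mul_right h3 hpos

/-- Bounded analytic functions are multipliers. -/
def HInfModule (S : BSAF d Ω X) : Prop :=
  ∀ q : (Fin d → ℂ) → ℂ, DifferentiableOn ℂ q Ω → (∃ C : ℝ, ∀ w ∈ Ω, ‖q w‖ ≤ C) →
    S.IsMult (fun w : Ω => q w)

/-- Bounded pointwise convergence of analytic multipliers implies weak convergence. -/
def BPWeak (S : BSAF d Ω X) : Prop :=
  ∀ (q : ℕ → (Fin d → ℂ) → ℂ) (q0 : (Fin d → ℂ) → ℂ) (C : ℝ) (F : X) (G : ℕ → X) (G0 : X),
    (∀ n, DifferentiableOn ℂ (q n) Ω) → DifferentiableOn ℂ q0 Ω → (∀ n, ∀ w ∈ Ω, ‖q n w‖ ≤ C) →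
    (∀ w ∈ Ω, Tendsto (fun n => q n w) atTop (𝓝 (q0 w))) →
    (∀ (n : ℕ) (w : Ω), S.val (G n) w = q n w * S.val F w) →
    (∀ w : Ω, S.val G0 w = q0 w * S.val F w) →
    ∀ Λ : X →L[ℂ] ℂ, Tendsto (fun n => Λ (G n)) atTop (𝓝 (Λ G0))

theorem mOrbit_eq_bOrbit (S : BSAF d Ω X) (hS : S.HInfModule) (f : X) :
    S.mOrbit f = S.bOrbit f := by
  ext g
  constructor
  · rintro ⟨m, hm, hg⟩
    obtain ⟨q, hq1, hq2⟩ := S.analytic (S.multOp hm S.one)
    have hgm : g = S.multOp hm f := by
      apply S.inj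
      funext w
      rw [hg, val_multOp]
    refine ⟨fun w => S.ev w (S.multOp hm S.one), q, ⟨‖S.multOp hm‖, fun w => S.mult_bdd hm w⟩,
      hq1, fun w => ?_, fun w => ?_⟩
    · change q w = S.ev ⟨w, S.mem_maxDomain w⟩ (S.multOp hm S.one)
      rw [S.ev_of_mem, hq2]
    · rw [hgm]
      exact S.isEval_multOp hm (S.ev_spec w) f
  · rintro ⟨q, q0, ⟨C, hC⟩, hq0, hqq, hg⟩
    refine ⟨fun w => q0 w, hS q0 hq0 ⟨C, fun w hw => ?_⟩, fun w => ?_⟩
    · rw [hqq ⟨w, hw⟩]
      exact hC _
    · change S.val g w = q0 w * S.val f w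
      rw [← S.ev_of_mem, ← S.ev_of_mem, hg, hqq]

/-- elements of the bounded orbit are products with bounded analytic functions -/
theorem bOrbit_spec (S : BSAF d Ω X) {f g : X} (hg : g ∈ S.bOrbit f) :
    ∃ q : (Fin d → ℂ) → ℂ, DifferentiableOn ℂ q Ω ∧ (∃ C : ℝ, ∀ w ∈ Ω, ‖q w‖ ≤ C) ∧
      ∀ w : Ω, S.val g w = q w * S.val f w := by
  obtain ⟨q, q0, ⟨C, hC⟩, hq0, hqq, hg⟩ := hg
  refine ⟨q0, hq0, ⟨C, fun w hw => ?_⟩, fun w => ?_⟩
  · rw [hqq ⟨w, hw⟩]
    exact hC _
  · rw [← S.ev_of_mem, ← S.ev_of_mem, hg, hqq]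

end BSAF

/-- Bounded analytic functions on `Ω` are boundedly and pointwise approximable by polynomials in a
biholomorphic coordinate `h : Ω → Ω1`. -/
def GenBy {d : ℕ} (Ω : Set (Fin d → ℂ)) : Prop :=
  ∃ (Ω1 : Set (Fin d → ℂ)) (h g : (Fin d → ℂ) → (Fin d → ℂ)), IsOpen Ω1 ∧
    Set.MapsTo h Ω Ω1 ∧ Set.MapsTo g Ω1 Ω ∧ (∀ w ∈ Ω, g (h w) = w) ∧ (∀ u ∈ Ω1, h (g u) = u) ∧
    DifferentiableOn ℂ h Ω ∧ DifferentiableOn ℂ g Ω1 ∧ (∃ C : ℝ, ∀ w ∈ Ω, ‖h w‖ ≤ C) ∧
    ∀ q : (Fin d → ℂ) → ℂ, DifferentiableOn ℂ q Ω → (∃ C : ℝ, ∀ w ∈ Ω, ‖q w‖ ≤ C) →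
      ∃ (P : ℕ → MvPolynomial (Fin d) ℂ) (C : ℝ), (∀ n, ∀ w ∈ Ω, ‖eval (h w) (P n)‖ ≤ C) ∧
        ∀ w ∈ Ω, Tendsto (fun n => eval (h w) (P n)) atTop (𝓝 (q w))

namespace BSAF

variable {d : ℕ} {Ω : Set (Fin d → ℂ)} {X : Type u} [NormedAddCommGroup X] [NormedSpace ℂ X]
  [CompleteSpace X]

theorem analytic_eval_comp {h : (Fin d → ℂ) → (Fin d → ℂ)} (hh : DifferentiableOn ℂ h Ω)
    (P : MvPolynomial (Fin d) ℂ) : DifferentiableOn ℂ (fun w => eval (h w) P) Ω := by
  exact (analytic_eval P Set.univ).comp hh (Set.mapsTo_univ _ _)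

theorem eval_comp_bdd {h : (Fin d → ℂ) → (Fin d → ℂ)} {C : ℝ} (hC : ∀ w ∈ Ω, ‖h w‖ ≤ C)
    (P : MvPolynomial (Fin d) ℂ) : ∃ C' : ℝ, ∀ w ∈ Ω, ‖eval (h w) P‖ ≤ C' := by
  have hc : IsCompact (Metric.closedBall (0 : Fin d → ℂ) C) := isCompact_closedBall _ _
  obtain ⟨C', hC'⟩ := hc.exists_bound_of_continuousOn (f := fun w : Fin d → ℂ => eval w P)
    (MvPolynomial.continuous_eval P).continuousOn
  exact ⟨C', fun w hw => hC' _ (by rw [mem_closedBall_zero_iff]; exact hC w hw)⟩

theorem analytic_coord {h : (Fin d → ℂ) → (Fin d → ℂ)} (hh : DifferentiableOn ℂ h Ω) (j : Fin d) :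
    DifferentiableOn ℂ (fun w => h w j) Ω := by
  have := analytic_eval_comp hh (X j : MvPolynomial (Fin d) ℂ)
  simpa using this

/-- the subspace of the elements `P(h) F` -/
theorem weak_to_norm (T : BSAF d Ω X) (hT : T.HInfModule) (hbp : T.BPWeak)
    {h : (Fin d → ℂ) → (Fin d → ℂ)} (hh : DifferentiableOn ℂ h Ω) {C : ℝ} (hC : ∀ w ∈ Ω, ‖h w‖ ≤ C)
    (F G0 : X) (q : (Fin d → ℂ) → ℂ) (hq : DifferentiableOn ℂ q Ω)
    (hG0 : ∀ w : Ω, T.val G0 w = q w * T.val F w)
    (P : ℕ → MvPolynomial (Fin d) ℂ) (C' : ℝ) (hP : ∀ n, ∀ w ∈ Ω, ‖eval (h w) (P n)‖ ≤ C')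
    (hPl : ∀ w ∈ Ω, Tendsto (fun n => eval (h w) (P n)) atTop (𝓝 (q w))) :
    G0 ∈ closure {G : X | ∃ P : MvPolynomial (Fin d) ℂ, ∀ w : Ω,
      T.val G w = eval (h w) P * T.val F w} := by
  set M : Submodule ℂ X :=
    { carrier := {G : X | ∃ P : MvPolynomial (Fin d) ℂ, ∀ w : Ω,
        T.val G w = eval (h w) P * T.val F w}
      add_mem' := by
        rintro a b ⟨P, hP⟩ ⟨Q, hQ⟩
        refine ⟨P + Q, fun w => ?_⟩
        simp only [map_add, Pi.add_apply, hP, hQ]
        ring
      zero_mem' := ⟨0, fun w => by simp⟩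
      smul_mem' := by
        rintro c a ⟨P, hP⟩
        refine ⟨MvPolynomial.C c * P, fun w => ?_⟩
        simp only [map_smul, Pi.smul_apply, smul_eq_mul, hP, map_mul, eval_C]
        ring } with hM
  have hmult : ∀ n, T.IsMult (fun w : Ω => eval (h w) (P n)) := fun n =>
    hT _ (analytic_eval_comp hh (P n)) ⟨C', hP n⟩
  refine mem_closure_of_weak M (fun n => T.multOp (hmult n) F) G0 ?_ ?_
  · intro n
    exact ⟨P n, fun w => T.val_multOp (hmult n) F w⟩
  · exact hbp (fun n w => eval (h w) (P n)) q C' F _ G0 (fun n => analytic_eval_comp hh (P n)) hq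
      hP hPl (fun n w => T.val_multOp (hmult n) F w) hG0

end BSAF

/-- The converse: in spaces that are modules over the bounded analytic functions, (CP) forces
every multiplier-cyclic function to be shift-cyclic. -/
theorem shiftCyclic_of_hasCP {d' : ℕ} {Ω' : Set (Fin d' → ℂ)} {Y : Type v} [NormedAddCommGroup Y]
    [NormedSpace ℂ Y] [CompleteSpace Y] (T : BSAF d' Ω' Y) (hT : T.HInfModule) (hbp : T.BPWeak)
    (hgen : GenBy Ω') (hCP : HasCP.{v} T) (F : Y) (hF : T.BddCyclic F) : T.ShiftCyclic F := by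
  obtain ⟨Ω1, h, g, hΩ1, hm1, hm2, hgh, hhg, hha, hga, ⟨C, hC⟩, happ⟩ := hgen
  have hmul : ∀ P : MvPolynomial (Fin d') ℂ, T.IsMult (fun w : Ω' => eval (h w) P) := fun P =>
    hT _ (BSAF.analytic_eval_comp hha P) (BSAF.eval_comp_bdd hC P)
  -- approximation of a general product `q F0` by the `P(h) F0`
  have hkey : ∀ (F0 G0 : Y) (q : (Fin d' → ℂ) → ℂ), DifferentiableOn ℂ q Ω' →
      (∃ C : ℝ, ∀ w ∈ Ω', ‖q w‖ ≤ C) → (∀ w : Ω', T.val G0 w = q w * T.val F0 w) →
      G0 ∈ closure {G : Y | ∃ P : MvPolynomial (Fin d') ℂ, ∀ w : Ω',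
        T.val G w = eval (h w) P * T.val F0 w} := by
    intro F0 G0 q hq hqb hG0
    obtain ⟨P, C', hP1, hP2⟩ := happ q hq hqb
    exact T.weak_to_norm hT hbp hha hC F0 G0 q hq hG0 P C' hP1 hP2
  -- the space in the new coordinate
  set valS : Y →ₗ[ℂ] (Ω1 → ℂ) :=
    { toFun := fun G u => T.val G ⟨g u, hm2 u.2⟩
      map_add' := fun G H => by funext u; simp
      map_smul' := fun c G => by funext u; simp } with hvalS
  have hvalS_apply : ∀ (G : Y) (w : Ω'), valS G ⟨h w, hm1 w.2⟩ = T.val G w := by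
    intro G w
    exact congrArg (T.val G) (Subtype.ext (hgh w w.2))
  have hvalS_iff : ∀ (G : Y) (P : MvPolynomial (Fin d') ℂ),
      (∀ u : Ω1, valS G u = eval (u : Fin d' → ℂ) P) ↔ ∀ w : Ω', T.val G w = eval (h w) P := by
    intro G P
    constructor
    · intro hG w
      rw [← hvalS_apply, hG]
    · intro hG u
      change T.val G ⟨g u, hm2 u.2⟩ = _
      rw [hG]
      change eval (h (g u)) P = _
      rw [hhg u u.2]
  let S : BSAF d' Ω1 Y :=
    { val := valS
      isOpen := hΩ1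
      inj := by
        intro G H hGH
        apply T.inj
        funext w
        rw [← hvalS_apply, ← hvalS_apply, hGH]
      analytic := by
        intro G
        obtain ⟨G', hG1, hG2⟩ := T.analytic G
        refine ⟨fun u => G' (g u), ?_, ?_⟩
        · exact hG1.comp hga hm2
        · intro u
          change T.val G ⟨g u, hm2 u.2⟩ = G' (g u)
          rw [hG2]
      poly := by
        intro P
        refine ⟨T.multOp (hmul P) T.one, ?_⟩
        rw [hvalS_iff]
        intro w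
        rw [T.val_multOp, T.val_one, mul_one]
      dense := by
        rw [dense_iff_closure_eq]
        have h1 : {G : Y | ∃ P : MvPolynomial (Fin d') ℂ, ∀ u : Ω1,
            valS G u = eval (u : Fin d' → ℂ) P} = {G : Y | ∃ P : MvPolynomial (Fin d') ℂ,
            ∀ w : Ω', T.val G w = eval (h w) P * T.val T.one w} := by
          ext G
          simp only [Set.mem_ofPred_eq]
          constructor
          · rintro ⟨P, hP⟩
            refine ⟨P, fun w => ?_⟩
            rw [T.val_one, mul_one]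
            exact (hvalS_iff G P).mp hP w
          · rintro ⟨P, hP⟩
            refine ⟨P, (hvalS_iff G P).mpr fun w => ?_⟩
            rw [hP, T.val_one, mul_one]
        rw [h1]
        have h2 : closure (T.orbit T.one) ⊆ closure {G : Y | ∃ P : MvPolynomial (Fin d') ℂ,
            ∀ w : Ω', T.val G w = eval (h w) P * T.val T.one w} := by
          apply closure_minimal _ isClosed_closure
          intro G hG
          obtain ⟨P, rfl⟩ := (T.mem_orbit_iff _ _).mp hG
          obtain ⟨C', hC'⟩ := T.maxDomain_bdd P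
          exact hkey T.one _ (fun w => eval w P) (BSAF.analytic_eval P Ω')
            ⟨C', fun w hw => hC' w (T.mem_maxDomain ⟨w, hw⟩)⟩ (fun w => T.val_mul P T.one w)
        rw [T.dense_one] at h2
        exact Set.eq_univ_of_univ_subset h2
      eval_bdd := by
        intro u
        obtain ⟨C', hC'⟩ := T.eval_bdd ⟨g u, hm2 u.2⟩
        exact ⟨C', hC'⟩
      shift := by
        intro j
        refine ⟨T.multOp (hmul (X j)), fun G u => ?_⟩
        change T.val (T.multOp (hmul (X j)) G) ⟨g u, hm2 u.2⟩ = _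
        rw [T.val_multOp]
        change eval (h (g u)) (X j) * _ = _
        rw [hhg u u.2, eval_X]
        rfl }
  have hSone : S.one = T.one := by
    apply T.inj
    funext w
    rw [T.val_one, ← hvalS_apply]
    exact S.val_one ⟨h w, hm1 w.2⟩
  -- the multiplication operators of `S` and `T`
  have hSmul : ∀ (P : MvPolynomial (Fin d') ℂ) (G : Y) (w : Ω'),
      T.val (S.mul P G) w = eval (h w) P * T.val G w := by
    intro P G w
    rw [← hvalS_apply (S.mul P G) w, ← hvalS_apply G w]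
    exact S.val_mul P G ⟨h w, hm1 w.2⟩
  have hSmul' : ∀ (P : MvPolynomial (Fin d') ℂ) (G : Y), S.mul P G = T.multOp (hmul P) G := by
    intro P G
    apply T.inj
    funext w
    rw [hSmul, T.val_multOp]
  -- evaluations
  have hev : ∀ w : T.maxDomain, S.IsEval (fun j => T.ev w (T.multOp (hmul (X j)) T.one))
      (T.ev w) := by
    intro w
    rw [S.isEval_iff]
    rw [hSone]
    have hgen : ∀ (P : MvPolynomial (Fin d') ℂ), ∀ G : Y, T.ev w (S.mul P G) =
        eval (fun j => T.ev w (T.multOp (hmul (X j)) T.one)) P * T.ev w G := by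
      intro P
      induction P using MvPolynomial.induction_on with
      | C a =>
        intro G
        have h1 : S.mul (MvPolynomial.C a) G = a • G := by
          apply T.inj
          funext u
          rw [hSmul]
          simp
        rw [h1]
        simp
      | add p q hp hq =>
        intro G
        have h1 : S.mul (p + q) G = S.mul p G + S.mul q G := by
          apply T.inj
          funext u
          simp only [hSmul, map_add, Pi.add_apply]
          ring
        rw [h1, map_add, hp, hq, map_add]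
        ring
      | mul_X p j hp =>
        intro G
        rw [← S.mul_mul, hp, hSmul', T.isEval_multOp (hmul (X j)) (T.ev_spec w), map_mul, eval_X]
        ring
    intro P
    rw [hgen P T.one, T.isEval_one (T.ev_spec w), mul_one]
  set φ : T.maxDomain → S.maxDomain := fun w =>
    ⟨fun j => T.ev w (T.multOp (hmul (X j)) T.one), ⟨T.ev w, hev w⟩⟩ with hφ
  have hφev : ∀ w : T.maxDomain, S.ev (φ w) = T.ev w := fun w =>
    S.isEval_unique (S.ev_spec (φ w)) (hev w)
  -- `F` is cyclic in the new coordinate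
  have hFS : S.ShiftCyclic F := by
    have h1 : closure (T.bOrbit F) ⊆ closure (S.orbit F) := by
      apply closure_minimal _ isClosed_closure
      intro G hG'
      obtain ⟨q, hq1, hq2, hG⟩ := T.bOrbit_spec hG'
      have h2 := hkey F G q hq1 hq2 hG
      have h3 : {G : Y | ∃ P : MvPolynomial (Fin d') ℂ, ∀ w : Ω',
          T.val G w = eval (h w) P * T.val F w} = S.orbit F := by
        ext G
        rw [S.mem_orbit_iff]
        constructor
        · rintro ⟨P, hP⟩
          refine ⟨P, T.inj ?_⟩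
          funext w
          rw [hP, hSmul]
        · rintro ⟨P, rfl⟩
          exact ⟨P, fun w => hSmul P F w⟩
      rwa [h3] at h2
    rw [hF] at h1
    exact Set.eq_univ_of_univ_subset h1
  have := hCP d' Ω1 Y S φ T.one (ContinuousLinearMap.id ℂ Y) T.cyclic_one (by
    intro f w
    rw [hφev, T.isEval_one (T.ev_spec w), one_mul]
    rfl) F hFS
  exact this

end Pool.Agent.Helper34.Cq
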