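import Mathlib

set_option autoImplicit false
set_option linter.unusedVariables false

namespace Pool.Agent.Helper34.Cq.Cres

open Filter Topology Polynomial

/-- the coordinate `1/(1-z)` -/
noncomputable def om (z : ℂ) : ℂ := (1 - z)⁻¹

/-- the weight -/
noncomputable def VV (z : ℂ) : ℝ := Real.exp (2 * ((om z) ^ 2).re - 1)

/-- the crescent and the point `1/4` of its hole -/
def EE : Set ℂ := {z | 1 / 2 < (om z).re ∧ ((om z).re < 2 / 3 ∨ z = 1 / 4)}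

theorem om_quarter : om (1 / 4) = 4 / 3 := by
  unfold om; norm_num

theorem re_le {z : ℂ} (hz : z ∈ EE) : (om z).re ≤ 4 / 3 := by
  rcases hz.2 with h | h
  · linarith
  · rw [h, om_quarter]
    norm_num

theorem om_ne {z : ℂ} (hz : 1 / 2 < (om z).re) : om z ≠ 0 := by
  intro h
  rw [h] at hz
  simp at hz
  linarith

theorem one_sub_ne {z : ℂ} (hz : 1 / 2 < (om z).re) : 1 - z ≠ 0 := by
  intro h
  apply om_ne hz
  unfold om
  rw [h, inv_zero]

theorem om_norm {z : ℂ} (hz : 1 / 2 < (om z).re) : 1 / 2 < ‖om z‖ :=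
  lt_of_lt_of_le hz (Complex.re_le_norm _)

theorem re_sq (u : ℂ) : (u ^ 2).re = 2 * u.re ^ 2 - ‖u‖ ^ 2 := by
  rw [← Complex.normSq_eq_norm_sq, Complex.normSq_apply, sq, Complex.mul_re]
  ring

theorem norm_lt {z : ℂ} (hz : 1 / 2 < (om z).re) : ‖z‖ < 1 := by
  have h0 := om_ne hz
  have h1 := one_sub_ne hz
  have h2 : z = (om z - 1) / om z := by
    unfold om
    field_simp
    ring
  rw [h2, norm_div, div_lt_one (norm_pos_iff.mpr h0)]
  have h3 : ‖om z - 1‖ ^ 2 < ‖om z‖ ^ 2 := by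
    rw [← Complex.normSq_eq_norm_sq, ← Complex.normSq_eq_norm_sq, Complex.normSq_apply,
      Complex.normSq_apply]
    simp only [Complex.sub_re, Complex.one_re, Complex.sub_im, Complex.one_im]
    nlinarith
  exact lt_of_pow_lt_pow_left₀ 2 (norm_nonneg _) h3

theorem VV_pos (z : ℂ) : 0 < VV z := Real.exp_pos _

theorem VV_le {z : ℂ} (hz : z ∈ EE) : VV z ≤ Real.exp 7 * Real.exp (-(2 * ‖om z‖ ^ 2)) := by
  rw [← Real.exp_add]
  apply Real.exp_le_exp.mpr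
  rw [re_sq]
  have h1 := re_le hz
  have h2 := hz.1
  nlinarith

theorem VV_le7 {z : ℂ} (hz : z ∈ EE) : VV z ≤ Real.exp 7 := by
  refine (VV_le hz).trans ?_
  have h1 : Real.exp (-(2 * ‖om z‖ ^ 2)) ≤ 1 := by
    rw [Real.exp_le_one_iff]
    have := sq_nonneg ‖om z‖
    linarith
  have := Real.exp_pos 7
  nlinarith

theorem VV_pow {z : ℂ} (hz : z ∈ EE) (m : ℕ) :
    VV z * ‖om z‖ ^ m ≤ Real.exp 8 * m.factorial := by
  have h1 := VV_le hz
  set t := ‖om z‖ with ht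
  have ht0 : 0 ≤ t := norm_nonneg _
  have h2 := Real.pow_div_factorial_le_exp t ht0 m
  have h3 : t ^ m ≤ m.factorial * Real.exp t := by
    have hf : (0 : ℝ) < m.factorial := by exact_mod_cast m.factorial_pos
    rw [div_le_iff₀ hf] at h2
    linarith
  calc VV z * t ^ m ≤ (Real.exp 7 * Real.exp (-(2 * t ^ 2))) * (m.factorial * Real.exp t) := by
        gcongr
    _ = m.factorial * Real.exp (7 + -(2 * t ^ 2) + t) := by
        rw [Real.exp_add, Real.exp_add]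
        ring
    _ ≤ m.factorial * Real.exp 8 := by
        gcongr
        nlinarith [sq_nonneg (t - 1 / 4)]
    _ = _ := by ring

/-- weighted limits of polynomials -/
def SS (g : ℂ → ℂ) : Prop := ∀ ε : ℝ, 0 < ε → ∃ P : ℂ[X], ∀ z ∈ EE, VV z * ‖g z - P.eval z‖ ≤ ε

theorem SS.poly (P : ℂ[X]) : SS (fun z => P.eval z) := by
  intro ε hε
  refine ⟨P, fun z hz => ?_⟩
  rw [sub_self, norm_zero, mul_zero]
  exact hε.le

theorem SS.add {f g : ℂ → ℂ} (hf : SS f) (hg : SS g) : SS (fun z => f z + g z) := by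
  intro ε hε
  obtain ⟨P, hP⟩ := hf (ε / 2) (by positivity)
  obtain ⟨Q, hQ⟩ := hg (ε / 2) (by positivity)
  refine ⟨P + Q, fun z hz => ?_⟩
  rw [eval_add]
  have h1 : f z + g z - (P.eval z + Q.eval z) = (f z - P.eval z) + (g z - Q.eval z) := by ring
  rw [h1]
  have h2 := norm_add_le (f z - P.eval z) (g z - Q.eval z)
  have h3 := hP z hz
  have h4 := hQ z hz
  have h5 := VV_pos z
  nlinarith

theorem poly_bd (P : ℂ[X]) : ∃ C : ℝ, 0 < C ∧ ∀ z : ℂ, ‖z‖ ≤ 1 → ‖P.eval z‖ ≤ C := by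
  have hc : IsCompact (Metric.closedBall (0 : ℂ) 1) := isCompact_closedBall _ _
  obtain ⟨C, hC⟩ := hc.exists_bound_of_continuousOn (f := fun z : ℂ => P.eval z)
    P.continuous.continuousOn
  exact ⟨|C| + 1, by positivity, fun z hz =>
    ((hC z (by rwa [mem_closedBall_zero_iff])).trans (le_abs_self C)).trans (by linarith)⟩

theorem SS.pmul {g : ℂ → ℂ} (hg : SS g) (P : ℂ[X]) : SS (fun z => P.eval z * g z) := by
  intro ε hε
  obtain ⟨C, hC0, hC⟩ := poly_bd P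
  obtain ⟨Q, hQ⟩ := hg (ε / C) (by positivity)
  refine ⟨P * Q, fun z hz => ?_⟩
  have h1 : P.eval z * g z - (P * Q).eval z = P.eval z * (g z - Q.eval z) := by
    rw [eval_mul]; ring
  rw [h1, norm_mul]
  have h2 := hC z (norm_lt hz.1).le
  have h3 := hQ z hz
  calc VV z * (‖P.eval z‖ * ‖g z - Q.eval z‖) = ‖P.eval z‖ * (VV z * ‖g z - Q.eval z‖) := by ring
    _ ≤ C * (ε / C) := by
        gcongr
        have := (VV_pos z).le
        positivity
    _ = ε := by field_simp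

theorem SS.lim {g : ℂ → ℂ} (h : ∀ ε : ℝ, 0 < ε → ∃ g' : ℂ → ℂ, SS g' ∧
    ∀ z ∈ EE, VV z * ‖g z - g' z‖ ≤ ε) : SS g := by
  intro ε hε
  obtain ⟨g', hg', h1⟩ := h (ε / 2) (by positivity)
  obtain ⟨P, hP⟩ := hg' (ε / 2) (by positivity)
  refine ⟨P, fun z hz => ?_⟩
  have h2 : g z - P.eval z = (g z - g' z) + (g' z - P.eval z) := by ring
  rw [h2]
  have h3 := norm_add_le (g z - g' z) (g' z - P.eval z)
  have h4 := h1 z hz
  have h5 := hP z hz
  have h6 := VV_pos z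
  nlinarith

/-- uniform limits of polynomials on the closed disc -/
def UU (g : ℂ → ℂ) : Prop := ∀ ε : ℝ, 0 < ε → ∃ P : ℂ[X], ∀ z : ℂ, ‖z‖ ≤ 1 → ‖g z - P.eval z‖ ≤ ε

theorem UU.SS {g : ℂ → ℂ} (hg : UU g) : SS g := by
  intro ε hε
  obtain ⟨P, hP⟩ := hg (ε / Real.exp 7) (by positivity)
  refine ⟨P, fun z hz => ?_⟩
  have h1 := hP z (norm_lt hz.1).le
  have h2 := VV_le7 hz
  have h3 := (VV_pos z).le
  calc _ ≤ Real.exp 7 * (ε / Real.exp 7) := by gcongr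
    _ = ε := by field_simp

theorem UU.mul {f g : ℂ → ℂ} (hf : UU f) (hg : UU g) {A B : ℝ} (hA : ∀ z : ℂ, ‖z‖ ≤ 1 → ‖f z‖ ≤ A)
    (hB : ∀ z : ℂ, ‖z‖ ≤ 1 → ‖g z‖ ≤ B) : UU (fun z => f z * g z) := by
  have hA0 : 0 ≤ A := (norm_nonneg _).trans (hA 0 (by simp))
  have hB0 : 0 ≤ B := (norm_nonneg _).trans (hB 0 (by simp))
  intro ε hε
  obtain ⟨Q, hQ⟩ := hg (min 1 (ε / (2 * (A + 1)))) (by positivity)
  obtain ⟨P, hP⟩ := hf (ε / (2 * (B + 1))) (by positivity)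
  refine ⟨P * Q, fun z hz => ?_⟩
  have h1 := hP z hz
  have h2 := (hQ z hz).trans (min_le_left _ _)
  have h3 := (hQ z hz).trans (min_le_right _ _)
  have h4 : ‖Q.eval z‖ ≤ B + 1 := by
    have e1 : Q.eval z = g z - (g z - Q.eval z) := by ring
    rw [e1]
    exact (norm_sub_le _ _).trans (add_le_add (hB z hz) h2)
  have h5 : f z * g z - (P * Q).eval z = f z * (g z - Q.eval z) + Q.eval z * (f z - P.eval z) := by
    rw [eval_mul]; ring
  rw [h5]
  calc _ ≤ _ := norm_add_le _ _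
    _ ≤ (A + 1) * (ε / (2 * (A + 1))) + (B + 1) * (ε / (2 * (B + 1))) := by
        rw [norm_mul, norm_mul]
        have := hA z hz
        gcongr
        linarith
    _ = ε := by field_simp; ring

theorem geo_bd {r : ℝ} (h0 : 0 ≤ r) (h1 : r < 1) {z : ℂ} (hz : ‖z‖ ≤ 1) :
    1 - r ≤ ‖1 - (r : ℂ) * z‖ := by
  have h2 : ‖(r : ℂ) * z‖ ≤ r := by
    rw [norm_mul, Complex.norm_real, Real.norm_eq_abs, abs_of_nonneg h0]
    nlinarith
  have h3 := norm_sub_norm_le (1 : ℂ) ((r : ℂ) * z)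
  rw [norm_one] at h3
  linarith

theorem UU_geo {r : ℝ} (h0 : 0 ≤ r) (h1 : r < 1) : UU (fun z => (1 - (r : ℂ) * z)⁻¹) := by
  intro ε hε
  obtain ⟨N, hN⟩ := exists_pow_lt_of_lt_one (show 0 < ε * (1 - r) by
    have : 0 < 1 - r := by linarith
    positivity) h1
  refine ⟨∑ n ∈ Finset.range N, (C (r : ℂ) * X) ^ n, fun z hz => ?_⟩
  have h2 := geo_bd h0 h1 hz
  have h3 : 0 < 1 - r := by linarith
  have hne : 1 - (r : ℂ) * z ≠ 0 := by
    intro h
    rw [h, norm_zero] at h2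
    linarith
  have h4 : eval z (∑ n ∈ Finset.range N, (C (r : ℂ) * X) ^ n) =
      (1 - ((r : ℂ) * z) ^ N) / (1 - (r : ℂ) * z) := by
    rw [eval_finsetSum]
    simp only [eval_pow, eval_mul, eval_C, eval_X]
    rw [eq_div_iff hne, mul_comm]
    exact mul_neg_geom_sum _ _
  rw [h4]
  have h5 : (1 - (r : ℂ) * z)⁻¹ - (1 - ((r : ℂ) * z) ^ N) / (1 - (r : ℂ) * z) =
      ((r : ℂ) * z) ^ N / (1 - (r : ℂ) * z) := by
    field_simp
    ring
  rw [h5, norm_div, norm_pow, div_le_iff₀ (by linarith)]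
  have h6 : ‖(r : ℂ) * z‖ ≤ r := by
    rw [norm_mul, Complex.norm_real, Real.norm_eq_abs, abs_of_nonneg h0]
    nlinarith
  calc ‖(r : ℂ) * z‖ ^ N ≤ r ^ N := by gcongr
    _ ≤ ε * (1 - r) := hN.le
    _ ≤ _ := by gcongr

theorem UU_geo_pow {r : ℝ} (h0 : 0 ≤ r) (h1 : r < 1) (k : ℕ) :
    UU (fun z => ((1 - (r : ℂ) * z)⁻¹) ^ k) := by
  have hb : ∀ (k : ℕ) (z : ℂ), ‖z‖ ≤ 1 → ‖((1 - (r : ℂ) * z)⁻¹) ^ k‖ ≤ ((1 - r)⁻¹) ^ k := by
    intro k z hz
    have h2 := geo_bd h0 h1 hz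
    have h3 : 0 < 1 - r := by linarith
    rw [norm_pow, norm_inv]
    gcongr
  induction k with
  | zero =>
    intro ε hε
    exact ⟨1, fun z hz => by simp [hε.le]⟩
  | succ k ih =>
    simp only [pow_succ]
    exact ih.mul (UU_geo h0 h1) (hb k) (fun z hz => by simpa using hb 1 z hz)

theorem SS_om (k : ℕ) : SS (fun z => (om z) ^ k) := by
  apply SS.lim
  intro ε hε
  set B : ℝ := k * 2 ^ k * (Real.exp 8 * (k + 1).factorial) + 1 with hB
  have hBpos : 0 < B := by positivity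
  set δ : ℝ := min (1 / 2) (ε / B) with hδ
  have hδpos : 0 < δ := by positivity
  have hδ1 : δ ≤ 1 / 2 := min_le_left _ _
  have hδ2 : δ ≤ ε / B := min_le_right _ _
  refine ⟨fun z => ((1 - ((1 - δ : ℝ) : ℂ) * z)⁻¹) ^ k,
    (UU_geo_pow (by linarith) (by linarith) k).SS, fun z hz => ?_⟩
  set a := om z with ha
  set b := (1 - ((1 - δ : ℝ) : ℂ) * z)⁻¹ with hb
  have hz1 := norm_lt hz.1
  have h1 := one_sub_ne hz.1
  have hgb := geo_bd (r := 1 - δ) (by linarith) (by linarith) hz1.le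
  have hne : 1 - ((1 - δ : ℝ) : ℂ) * z ≠ 0 := by
    intro h
    rw [h, norm_zero] at hgb
    linarith
  have hbn : ‖b‖ ≤ 2 * ‖a‖ := by
    rw [hb, ha, om, norm_inv, norm_inv]
    have h2 : ‖1 - z‖ ≤ 2 * ‖1 - ((1 - δ : ℝ) : ℂ) * z‖ := by
      have e1 : 1 - z = (1 - ((1 - δ : ℝ) : ℂ) * z) - (δ : ℂ) * z := by push_cast; ring
      have e2 : ‖(δ : ℂ) * z‖ ≤ δ := by
        rw [norm_mul, Complex.norm_real, Real.norm_eq_abs, abs_of_pos hδpos]
        nlinarith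
      calc ‖1 - z‖ = ‖(1 - ((1 - δ : ℝ) : ℂ) * z) - (δ : ℂ) * z‖ := by rw [← e1]
        _ ≤ ‖1 - ((1 - δ : ℝ) : ℂ) * z‖ + ‖(δ : ℂ) * z‖ := norm_sub_le _ _
        _ ≤ _ := by linarith
    have h3 : 0 < ‖1 - z‖ := norm_pos_iff.mpr h1
    have h4 : 0 < ‖1 - ((1 - δ : ℝ) : ℂ) * z‖ := norm_pos_iff.mpr hne
    rw [inv_le_iff_one_le_mul₀ h4]
    have h5 : 2 * ‖1 - z‖⁻¹ * ‖1 - ((1 - δ : ℝ) : ℂ) * z‖ =
        (2 * ‖1 - ((1 - δ : ℝ) : ℂ) * z‖) / ‖1 - z‖ := by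
      field_simp
    rw [h5, one_le_div h3]
    exact h2
  have hab : a - b = (δ : ℂ) * z * (a * b) := by
    have gen : ∀ x y : ℂ, x ≠ 0 → y ≠ 0 → x⁻¹ - y⁻¹ = (y - x) * (x⁻¹ * y⁻¹) := by
      intro x y hx hy
      field_simp
    have hkey : (1 - ((1 - δ : ℝ) : ℂ) * z) - (1 - z) = (δ : ℂ) * z := by
      push_cast
      ring
    rw [ha, hb, om, gen _ _ h1 hne, hkey]
  have habn : ‖a - b‖ ≤ δ * (2 * ‖a‖ ^ 2) := by
    rw [hab, norm_mul, norm_mul, norm_mul, Complex.norm_real, Real.norm_eq_abs, abs_of_pos hδpos]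
    have := norm_nonneg a
    calc δ * ‖z‖ * (‖a‖ * ‖b‖) ≤ δ * 1 * (‖a‖ * (2 * ‖a‖)) := by gcongr
      _ = _ := by ring
  have hpow : ‖a ^ k - b ^ k‖ ≤ ‖a - b‖ * (k * (2 * ‖a‖) ^ (k - 1)) := by
    rw [← (Commute.all a b).mul_geom_sum₂, norm_mul]
    gcongr
    refine (norm_sum_le _ _).trans ?_
    have h6 : ∀ i ∈ Finset.range k, ‖a ^ i * b ^ (k - 1 - i)‖ ≤ (2 * ‖a‖) ^ (k - 1) := by
      intro i hi
      have hik : i ≤ k - 1 := by
        have := Finset.mem_range.mp hi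
        omega
      rw [norm_mul, norm_pow, norm_pow]
      have h7 : ‖a‖ ≤ 2 * ‖a‖ := by have := norm_nonneg a; linarith
      calc ‖a‖ ^ i * ‖b‖ ^ (k - 1 - i) ≤ (2 * ‖a‖) ^ i * (2 * ‖a‖) ^ (k - 1 - i) := by gcongr
        _ = (2 * ‖a‖) ^ (k - 1) := by rw [← pow_add]; congr 1; omega
    refine (Finset.sum_le_sum h6).trans ?_
    rw [Finset.sum_const, Finset.card_range, nsmul_eq_mul]
  have hV := VV_pow hz (k + 1)
  have hVp := (VV_pos z).le
  rcases Nat.eq_zero_or_pos k with hk | hk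
  · subst hk
    simp [hε.le]
  · have h8 : ‖a - b‖ * (k * (2 * ‖a‖) ^ (k - 1)) ≤ δ * (k * 2 ^ k) * ‖a‖ ^ (k + 1) := by
      calc ‖a - b‖ * (k * (2 * ‖a‖) ^ (k - 1)) ≤ δ * (2 * ‖a‖ ^ 2) * (k * (2 * ‖a‖) ^ (k - 1)) := by
            gcongr
        _ = δ * (k * 2 ^ k) * ‖a‖ ^ (k + 1) := by
            obtain ⟨l, rfl⟩ : ∃ l, k = l + 1 := ⟨k - 1, by omega⟩
            simp only [Nat.add_sub_cancel, mul_pow]
            ring
    calc VV z * ‖a ^ k - b ^ k‖ ≤ VV z * (δ * (k * 2 ^ k) * ‖a‖ ^ (k + 1)) := by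
          gcongr
          exact hpow.trans h8
      _ = δ * (k * 2 ^ k * (VV z * ‖a‖ ^ (k + 1))) := by ring
      _ ≤ (ε / B) * B := by
          gcongr
          rw [hB]
          have : (k : ℝ) * 2 ^ k * (VV z * ‖a‖ ^ (k + 1)) ≤
              k * 2 ^ k * (Real.exp 8 * (k + 1).factorial) := by gcongr
          linarith
      _ = ε := by field_simp

theorem SS.smul {g : ℂ → ℂ} (hg : SS g) (c : ℂ) : SS (fun z => c * g z) := by
  have := hg.pmul (C c)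
  simpa using this

theorem SS.sum {ι : Type*} (s : Finset ι) (g : ι → ℂ → ℂ) (h : ∀ i ∈ s, SS (g i)) :
    SS (fun z => ∑ i ∈ s, g i z) := by
  classical
  induction s using Finset.induction_on with
  | empty => simpa using SS.poly 0
  | insert a s ha ih =>
    simp only [Finset.sum_insert ha]
    exact (h a (Finset.mem_insert_self _ _)).add (ih fun i hi => h i (Finset.mem_insert_of_mem hi))

end Pool.Agent.Helper34.Cq.Cres
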