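import Pool.Agent.Helper34.Cq.CresA

set_option autoImplicit false
set_option linter.unusedVariables false

namespace Pool.Agent.Helper34.Cq.Cres

open Filter Topology Polynomial

/-- tail of the exponential series -/
theorem exp_tail {s : ℝ} (hs : 0 ≤ s) (n : ℕ) :
    Real.exp s - ∑ m ∈ Finset.range (n + 1), s ^ m / m.factorial ≤
      s / ((n : ℝ) + 1) * Real.exp s := by
  have h1 : HasSum (fun m : ℕ => s ^ m / (m.factorial : ℝ)) (Real.exp s) := by
    have := NormedSpace.expSeries_div_hasSum_exp (𝔸 := ℝ) s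
    rwa [← Real.exp_eq_exp_ℝ] at this
  have h2 := (hasSum_nat_add_iff' (n + 1)).mpr h1
  have h3 := (hasSum_nat_add_iff' n).mpr h1
  have h4 := h3.mul_left (s / ((n : ℝ) + 1))
  have h5 := hasSum_le (fun m => ?_) h2 h4
  · refine h5.trans ?_
    gcongr
    have : 0 ≤ ∑ i ∈ Finset.range n, s ^ i / (i.factorial : ℝ) :=
      Finset.sum_nonneg fun i _ => by positivity
    linarith
  · have e1 : m + (n + 1) = (m + n) + 1 := by ring
    rw [e1, pow_succ, Nat.factorial_succ]
    have hf : (0 : ℝ) < (m + n).factorial := by exact_mod_cast (m + n).factorial_pos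
    have e2 : s ^ (m + n) * s / (((m + n + 1 : ℕ) * (m + n).factorial : ℕ) : ℝ) =
        s / ((m : ℝ) + n + 1) * (s ^ (m + n) / (m + n).factorial) := by
      push_cast
      field_simp
    rw [e2]
    have hm : (0 : ℝ) ≤ m := Nat.cast_nonneg m
    gcongr
    linarith

theorem exp_tail0 {s : ℝ} (hs : 0 ≤ s) (n : ℕ) :
    Real.exp s - ∑ m ∈ Finset.range (n + 1), s ^ m / m.factorial ≤ Real.exp s := by
  have : 0 ≤ ∑ i ∈ Finset.range (n + 1), s ^ i / (i.factorial : ℝ) :=
    Finset.sum_nonneg fun i _ => by positivity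
  linarith

theorem exp_diff (x : ℂ) (n : ℕ) : ‖Complex.exp x - ∑ m ∈ Finset.range (n + 1), x ^ m / m.factorial‖ ≤
    ‖x‖ / ((n : ℝ) + 1) * Real.exp ‖x‖ :=
  (Complex.norm_exp_sub_sum_le_exp_norm_sub_sum x (n + 1)).trans (exp_tail (norm_nonneg x) n)

theorem exp_diff0 (x : ℂ) (n : ℕ) :
    ‖Complex.exp x - ∑ m ∈ Finset.range (n + 1), x ^ m / m.factorial‖ ≤ Real.exp ‖x‖ :=
  (Complex.norm_exp_sub_sum_le_exp_norm_sub_sum x (n + 1)).trans (exp_tail0 (norm_nonneg x) n)

/-- the bounded function `exp (om^2)` -/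
noncomputable def hh (z : ℂ) : ℂ := Complex.exp ((om z) ^ 2)

/-- the function `(1-z) exp (-2 om^2)` -/
noncomputable def FF (z : ℂ) : ℂ := (1 - z) * Complex.exp (-2 * (om z) ^ 2)

theorem SS_partial (c : ℂ) (k n : ℕ) : SS (fun z => ∑ m ∈ Finset.range n, (c * (om z) ^ k) ^ m / m.factorial) := by
  apply SS.sum
  intro m _
  have h := (SS_om (k * m)).smul (c ^ m / m.factorial)
  have e : (fun z => (c * (om z) ^ k) ^ m / (m.factorial : ℂ)) =
      fun z => c ^ m / (m.factorial : ℂ) * om z ^ (k * m) := by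
    funext z
    rw [mul_pow, pow_mul]
    ring
  rw [e]
  exact h

theorem SS_hh : SS hh := by
  apply SS.lim
  intro ε hε
  obtain ⟨n, hn⟩ := exists_nat_one_div_lt (show 0 < ε / Real.exp 7 by positivity)
  refine ⟨_, SS_partial 1 2 (n + 1), fun z hz => ?_⟩
  simp only [one_mul]
  have h1 := exp_diff ((om z) ^ 2) n
  have h2 := VV_le hz
  set t := ‖om z‖ with ht
  rw [norm_pow, ← ht] at h1
  unfold hh
  have hn' : (0 : ℝ) < (n : ℝ) + 1 := by positivity
  calc VV z * ‖Complex.exp ((om z) ^ 2) - ∑ m ∈ Finset.range (n + 1), ((om z) ^ 2) ^ m / m.factorial‖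
      ≤ (Real.exp 7 * Real.exp (-(2 * t ^ 2))) * (t ^ 2 / ((n : ℝ) + 1) * Real.exp (t ^ 2)) := by
        gcongr
    _ = Real.exp 7 * (1 / ((n : ℝ) + 1)) * (t ^ 2 * Real.exp (-(t ^ 2))) := by
        have e1 : Real.exp (-(2 * t ^ 2)) = Real.exp (-(t ^ 2)) * Real.exp (-(t ^ 2)) := by
          rw [← Real.exp_add]; congr 1; ring
        have e2 : Real.exp (-(t ^ 2)) * Real.exp (t ^ 2) = 1 := by
          rw [← Real.exp_add]; simp
        rw [e1]
        calc _ = Real.exp 7 * (1 / ((n : ℝ) + 1)) * (t ^ 2 * Real.exp (-(t ^ 2))) *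
              (Real.exp (-(t ^ 2)) * Real.exp (t ^ 2)) := by ring
          _ = _ := by rw [e2, mul_one]
    _ ≤ Real.exp 7 * (1 / ((n : ℝ) + 1)) * 1 := by
        gcongr
        have h3 : t ^ 2 ≤ Real.exp (t ^ 2) := by
          have := Real.add_one_le_exp (t ^ 2)
          linarith
        rw [Real.exp_neg, ← div_eq_mul_inv, div_le_one (Real.exp_pos _)]
        exact h3
    _ ≤ Real.exp 7 * (ε / Real.exp 7) := by
        rw [mul_one]
        gcongr
    _ = ε := by field_simp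

theorem SS_FF : SS FF := by
  apply SS.lim
  intro ε hε
  obtain ⟨n, hn⟩ := exists_nat_one_div_lt (show 0 < (ε / (2 * Real.exp 7)) ^ 2 by positivity)
  refine ⟨fun z => (1 - X : ℂ[X]).eval z *
    ∑ m ∈ Finset.range (n + 1), ((-2 : ℂ) * (om z) ^ 2) ^ m / m.factorial,
    (SS_partial (-2) 2 (n + 1)).pmul _, fun z hz => ?_⟩
  simp only [eval_sub, eval_one, eval_X]
  have h1 := exp_diff (-2 * (om z) ^ 2) n
  have h1' := exp_diff0 (-2 * (om z) ^ 2) n
  have h2 := VV_le hz
  have hom := om_norm hz.1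
  set t := ‖om z‖ with ht
  have hn2 : ‖-2 * (om z) ^ 2‖ = 2 * t ^ 2 := by
    rw [norm_mul, norm_pow, ← ht]
    norm_num
  rw [hn2] at h1 h1'
  have htp : 0 < t := by linarith
  have hz1 : ‖1 - z‖ = t⁻¹ := by
    rw [ht, om, norm_inv, inv_inv]
  unfold FF
  rw [← mul_sub, norm_mul, hz1]
  set u : ℝ := 2 * t ^ 2 / ((n : ℝ) + 1) with hu
  have hu0 : 0 ≤ u := by positivity
  have hmin : ‖Complex.exp (-2 * (om z) ^ 2) -
      ∑ m ∈ Finset.range (n + 1), (-2 * (om z) ^ 2) ^ m / m.factorial‖ ≤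
      Real.sqrt u * Real.exp (2 * t ^ 2) := by
    rcases le_total u 1 with h3 | h3
    · refine h1.trans ?_
      gcongr
      apply Real.le_sqrt_of_sq_le
      nlinarith
    · refine h1'.trans ?_
      have h4 : 1 ≤ Real.sqrt u := Real.one_le_sqrt.mpr h3
      have h5 := Real.exp_pos (2 * t ^ 2)
      nlinarith
  have hsq : Real.sqrt u ≤ 2 * t * Real.sqrt (1 / ((n : ℝ) + 1)) := by
    rw [Real.sqrt_le_left (by positivity), mul_pow, Real.sq_sqrt (by positivity), hu]
    have : 0 ≤ 1 / ((n : ℝ) + 1) := by positivity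
    have e1 : 2 * t ^ 2 / ((n : ℝ) + 1) = 2 * t ^ 2 * (1 / ((n : ℝ) + 1)) := by ring
    rw [e1]
    nlinarith [mul_nonneg (sq_nonneg t) this]
  have hsq2 : Real.sqrt (1 / ((n : ℝ) + 1)) ≤ ε / (2 * Real.exp 7) := by
    rw [Real.sqrt_le_left (by positivity)]
    exact hn.le
  have e3 : Real.exp (-(2 * t ^ 2)) * Real.exp (2 * t ^ 2) = 1 := by
    rw [← Real.exp_add]; simp
  calc VV z * (t⁻¹ * ‖Complex.exp (-2 * (om z) ^ 2) -
      ∑ m ∈ Finset.range (n + 1), (-2 * (om z) ^ 2) ^ m / m.factorial‖)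
      ≤ (Real.exp 7 * Real.exp (-(2 * t ^ 2))) * (t⁻¹ * ((2 * t * (ε / (2 * Real.exp 7))) *
        Real.exp (2 * t ^ 2))) := by
        gcongr
        refine hmin.trans ?_
        gcongr
        refine hsq.trans ?_
        gcongr
    _ = Real.exp 7 * (t⁻¹ * t) * 2 * (ε / (2 * Real.exp 7)) *
        (Real.exp (-(2 * t ^ 2)) * Real.exp (2 * t ^ 2)) := by ring
    _ = ε := by
        rw [e3, inv_mul_cancel₀ htp.ne']
        field_simp

theorem SS_exp {lam : ℝ} (hl : 0 ≤ lam) : SS (fun z => Complex.exp ((lam : ℂ) * (om z - 4 / 3))) := by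
  have h0 : SS (fun z => Complex.exp ((lam : ℂ) * (om z) ^ 1)) := by
    apply SS.lim
    intro ε hε
    set B : ℝ := Real.exp 7 * Real.exp ((1 + lam) ^ 2 / 8) * lam + 1 with hB
    have hBpos : 0 < B := by positivity
    obtain ⟨n, hn⟩ := exists_nat_one_div_lt (show 0 < ε / B by positivity)
    refine ⟨_, SS_partial (lam : ℂ) 1 (n + 1), fun z hz => ?_⟩
    have h1 := exp_diff ((lam : ℂ) * (om z) ^ 1) n
    have h2 := VV_le hz
    set t := ‖om z‖ with ht
    have ht0 : 0 ≤ t := norm_nonneg _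
    have hn2 : ‖(lam : ℂ) * (om z) ^ 1‖ = lam * t := by
      rw [norm_mul, pow_one, Complex.norm_real, Real.norm_eq_abs, abs_of_nonneg hl]
    rw [hn2] at h1
    have h3 : t ≤ Real.exp t := by
      have := Real.add_one_le_exp t
      linarith
    calc _ ≤ (Real.exp 7 * Real.exp (-(2 * t ^ 2))) * (lam * t / ((n : ℝ) + 1) * Real.exp (lam * t)) := by
          gcongr
      _ = Real.exp 7 * lam * (1 / ((n : ℝ) + 1)) *
          (t * (Real.exp (-(2 * t ^ 2)) * Real.exp (lam * t))) := by ring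
      _ ≤ Real.exp 7 * lam * (1 / ((n : ℝ) + 1)) * Real.exp ((1 + lam) ^ 2 / 8) := by
          gcongr
          calc t * (Real.exp (-(2 * t ^ 2)) * Real.exp (lam * t)) ≤
                Real.exp t * (Real.exp (-(2 * t ^ 2)) * Real.exp (lam * t)) := by gcongr
            _ = Real.exp (t + (-(2 * t ^ 2) + lam * t)) := by
                rw [Real.exp_add, Real.exp_add]
            _ ≤ _ := by
                apply Real.exp_le_exp.mpr
                nlinarith [sq_nonneg (4 * t - (1 + lam))]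
      _ ≤ B * (ε / B) := by
          have e1 : Real.exp 7 * lam * (1 / ((n : ℝ) + 1)) * Real.exp ((1 + lam) ^ 2 / 8) =
              (Real.exp 7 * Real.exp ((1 + lam) ^ 2 / 8) * lam) * (1 / ((n : ℝ) + 1)) := by ring
          rw [e1]
          have e2 : Real.exp 7 * Real.exp ((1 + lam) ^ 2 / 8) * lam ≤ B := by rw [hB]; linarith
          gcongr
      _ = ε := by field_simp
  have h1 := h0.smul (Complex.exp (-(4 * lam / 3)))
  have e : (fun z => Complex.exp ((lam : ℂ) * (om z - 4 / 3))) =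
      fun z => Complex.exp (-(4 * lam / 3)) * Complex.exp ((lam : ℂ) * (om z) ^ 1) := by
    funext z
    rw [← Complex.exp_add]
    congr 1
    ring
  rw [e]
  exact h1

end Pool.Agent.Helper34.Cq.Cres
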