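import Pool.Agent.Helper34.Cq.Elem
import Pool.Agent.Helper34.Cq.Conv

set_option autoImplicit false
set_option linter.unusedVariables false

namespace Pool.Agent.Helper34.Cq

open MvPolynomial Topology Filter

universe u v

namespace BSAF

variable {d : ℕ} {Ω : Set (Fin d → ℂ)} {X : Type u} [NormedAddCommGroup X] [NormedSpace ℂ X]
  [CompleteSpace X]

/-- `F` is cyclic for the algebra generated by finitely many multipliers. -/
def FGCyclic (S : BSAF d Ω X) (F : X) : Prop :=
  ∃ (n : ℕ) (φ : Ω → (Fin n → ℂ)), (∀ i, S.IsMult (fun w => φ w i)) ∧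
    closure {G : X | ∃ P : MvPolynomial (Fin n) ℂ, ∀ w : Ω,
      S.val G w = eval (φ w) P * S.val F w} = Set.univ

end BSAF

/-- Property (CP) forces all vectors that are cyclic for a finitely generated algebra of multipliers
to be shift-cyclic. -/
theorem shiftCyclic_of_fg {d' : ℕ} {Ω' : Set (Fin d' → ℂ)} {Y : Type v} [NormedAddCommGroup Y]
    [NormedSpace ℂ Y] [CompleteSpace Y] (T : BSAF d' Ω' Y) (hCP : HasCP.{v} T) (F : Y)
    (hF : T.FGCyclic F) : T.ShiftCyclic F := by
  obtain ⟨n, φ, hφ, hcl⟩ := hF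
  let h : T.maxDomain → (Fin (d' + n) → ℂ) := fun w =>
    Fin.append (w : Fin d' → ℂ) (fun i => T.ev w (T.multOp (hφ i) T.one))
  let m : FMod T (d' + n) Y :=
    { j := ContinuousLinearMap.id ℂ Y
      inj := fun a b hab => hab
      h := h
      mul := by
        intro i x
        refine Fin.addCases (fun i => ?_) (fun i => ?_) i
        · refine ⟨T.mul (X i) x, fun w => ?_⟩
          change T.ev w (T.mul (X i) x) = Fin.append _ _ _ * T.ev w x
          rw [Fin.append_left, T.isEval_mul (T.ev_spec w), eval_X]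
        · refine ⟨T.multOp (hφ i) x, fun w => ?_⟩
          change T.ev w (T.multOp (hφ i) x) = Fin.append _ _ _ * T.ev w x
          rw [Fin.append_right, T.isEval_multOp (hφ i) (T.ev_spec w)] }
  have h1 : m.Cyc T.one := by
    have hsub : T.orbit T.one ⊆ {y : Y | ∃ P : MvPolynomial (Fin (d' + n)) ℂ,
        ∀ w : T.maxDomain, T.ev w (m.j y) = eval (m.h w) P * T.ev w (m.j T.one)} := by
      intro g hg
      obtain ⟨P, rfl⟩ := (T.mem_orbit_iff _ _).mp hg
      refine ⟨rename (Fin.castAdd n) P, fun w => ?_⟩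
      change T.ev w (T.mul P T.one) = eval (h w) (rename (Fin.castAdd n) P) * T.ev w T.one
      have e1 : h w ∘ Fin.castAdd n = (w : Fin d' → ℂ) := funext fun i => Fin.append_left _ _ _
      rw [T.isEval_mul (T.ev_spec w), eval_rename, e1]
    have h2 := closure_mono hsub
    rw [T.dense_one] at h2
    exact Set.eq_univ_of_univ_subset h2
  have h2 : m.Cyc F := by
    have hsub : {G : Y | ∃ P : MvPolynomial (Fin n) ℂ, ∀ w : Ω',
        T.val G w = eval (φ w) P * T.val F w} ⊆ {y : Y | ∃ P : MvPolynomial (Fin (d' + n)) ℂ,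
        ∀ w : T.maxDomain, T.ev w (m.j y) = eval (m.h w) P * T.ev w (m.j F)} := by
      rintro G ⟨P, hP⟩
      refine ⟨rename (Fin.natAdd d') P, fun w => ?_⟩
      have h3 : G = m.op (rename (Fin.natAdd d') P) F := by
        apply T.inj
        funext w
        rw [hP, ← T.ev_of_mem w (m.op _ F)]
        have h4 := m.ev_op (rename (Fin.natAdd d') P) F ⟨w, T.mem_maxDomain w⟩
        change T.ev ⟨w, T.mem_maxDomain w⟩ (m.op (rename (Fin.natAdd d') P) F) = _ at h4
        rw [h4]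
        change _ = eval (h ⟨w, T.mem_maxDomain w⟩) (rename (Fin.natAdd d') P) *
          T.ev ⟨w, T.mem_maxDomain w⟩ F
        have e1 : h ⟨w, T.mem_maxDomain w⟩ ∘ Fin.natAdd d' = φ w := by
          funext i
          change Fin.append _ _ _ = _
          rw [Fin.append_right, T.ev_of_mem, T.val_multOp, T.val_one, mul_one]
        rw [T.ev_of_mem, eval_rename, e1]
      rw [h3]
      exact m.ev_op _ F w
    have h3 := closure_mono hsub
    rw [hcl] at h3
    exact Set.eq_univ_of_univ_subset h3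
  exact inv_of_hasCP T hCP (d' + n) Y m T.one F h1 h2 T.cyclic_one

/-- Bounded analytic functions on `Ω` are bounded pointwise limits of polynomials in finitely many
bounded analytic functions `h 0, …, h (n-1)`. -/
def FinGenBP {d : ℕ} (Ω : Set (Fin d → ℂ)) : Prop :=
  ∃ (n : ℕ) (h : (Fin d → ℂ) → (Fin n → ℂ)), DifferentiableOn ℂ h Ω ∧
    (∃ C : ℝ, ∀ w ∈ Ω, ‖h w‖ ≤ C) ∧
    ∀ q : (Fin d → ℂ) → ℂ, DifferentiableOn ℂ q Ω → (∃ C : ℝ, ∀ w ∈ Ω, ‖q w‖ ≤ C) →
      ∃ (P : ℕ → MvPolynomial (Fin n) ℂ) (C : ℝ), (∀ k, ∀ w ∈ Ω, ‖eval (h w) (P k)‖ ≤ C) ∧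
        ∀ w ∈ Ω, Tendsto (fun k => eval (h w) (P k)) atTop (𝓝 (q w))

theorem finGenBP_of_genBy {d : ℕ} {Ω : Set (Fin d → ℂ)} (h : GenBy Ω) : FinGenBP Ω := by
  obtain ⟨Ω1, h, g, hΩ1, hm1, hm2, hgh, hhg, hha, hga, hC, happ⟩ := h
  exact ⟨d, h, hha, hC, happ⟩

namespace BSAF

variable {d : ℕ} {Ω : Set (Fin d → ℂ)} {X : Type u} [NormedAddCommGroup X] [NormedSpace ℂ X]
  [CompleteSpace X]

theorem diff_eval_comp {n : ℕ} {h : (Fin d → ℂ) → (Fin n → ℂ)} (hh : DifferentiableOn ℂ h Ω)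
    (P : MvPolynomial (Fin n) ℂ) : DifferentiableOn ℂ (fun w => eval (h w) P) Ω := by
  exact (analytic_eval P Set.univ).comp hh (Set.mapsTo_univ _ _)

/-- bounded pointwise limits lie in the closed submodule -/
theorem weak_to_norm' (T : BSAF d Ω X) (hT : T.HInfModule) (hbp : T.BPWeak) {n : ℕ}
    {h : (Fin d → ℂ) → (Fin n → ℂ)} (hh : DifferentiableOn ℂ h Ω)
    (F G0 : X) (q : (Fin d → ℂ) → ℂ) (hq : DifferentiableOn ℂ q Ω)
    (hG0 : ∀ w : Ω, T.val G0 w = q w * T.val F w)
    (P : ℕ → MvPolynomial (Fin n) ℂ) (C' : ℝ) (hP : ∀ k, ∀ w ∈ Ω, ‖eval (h w) (P k)‖ ≤ C')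
    (hPl : ∀ w ∈ Ω, Tendsto (fun k => eval (h w) (P k)) atTop (𝓝 (q w))) :
    G0 ∈ closure {G : X | ∃ P : MvPolynomial (Fin n) ℂ, ∀ w : Ω,
      T.val G w = eval (h w) P * T.val F w} := by
  set M : Submodule ℂ X :=
    { carrier := {G : X | ∃ P : MvPolynomial (Fin n) ℂ, ∀ w : Ω,
        T.val G w = eval (h w) P * T.val F w}
      add_mem' := by
        rintro a b ⟨P, hP⟩ ⟨Q, hQ⟩
        refine ⟨P + Q, fun w => ?_⟩
        simp only [map_add, Pi.add_apply, hP, hQ]
        ring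
      zero_mem' := ⟨0, fun w => by simp⟩
      smul_mem' := by
        rintro c a ⟨P, hP⟩
        refine ⟨MvPolynomial.C c * P, fun w => ?_⟩
        simp only [map_smul, Pi.smul_apply, smul_eq_mul, hP, map_mul, eval_C]
        ring } with hM
  have hmult : ∀ k, T.IsMult (fun w : Ω => eval (h w) (P k)) := fun k =>
    hT _ (diff_eval_comp hh (P k)) ⟨C', hP k⟩
  refine mem_closure_of_weak M (fun k => T.multOp (hmult k) F) G0 ?_ ?_
  · intro k
    exact ⟨P k, fun w => T.val_multOp (hmult k) F w⟩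
  · exact hbp (fun k w => eval (h w) (P k)) q C' F _ G0 (fun k => diff_eval_comp hh (P k)) hq
      hP hPl (fun k w => T.val_multOp (hmult k) F w) hG0

end BSAF

/-- Characterisation of property (CP) for modules over the bounded analytic functions. -/
theorem hasCP_iff_mult {d' : ℕ} {Ω' : Set (Fin d' → ℂ)} {Y : Type v} [NormedAddCommGroup Y]
    [NormedSpace ℂ Y] [CompleteSpace Y] (T : BSAF d' Ω' Y) (hT : T.HInfModule) (hbp : T.BPWeak)
    (hgen : FinGenBP Ω') : HasCP.{v} T ↔ ∀ F : Y, T.MultCyclic F → T.ShiftCyclic F := by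
  constructor
  · intro hCP F hF
    obtain ⟨n, h, hh, ⟨C, hC⟩, happ⟩ := hgen
    apply shiftCyclic_of_fg T hCP
    refine ⟨n, fun w => h w, fun i => ?_, ?_⟩
    · refine hT (fun w => h w i) ?_ ⟨C, fun w hw => (norm_le_pi_norm _ i).trans (hC w hw)⟩
      exact (differentiable_apply i).comp_differentiableOn hh
    · have h1 : closure (T.mOrbit F) ⊆ closure {G : Y | ∃ P : MvPolynomial (Fin n) ℂ, ∀ w : Ω',
          T.val G w = eval (h w) P * T.val F w} := by
        apply closure_minimal _ isClosed_closure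
        intro G hG
        rw [T.mOrbit_eq_bOrbit hT] at hG
        obtain ⟨q, hq1, hq2, hq3⟩ := T.bOrbit_spec hG
        obtain ⟨P, C', hP1, hP2⟩ := happ q hq1 hq2
        exact T.weak_to_norm' hT hbp hh F G q hq1 hq3 P C' hP1 hP2
      rw [hF] at h1
      exact Set.eq_univ_of_univ_subset h1
  · intro h
    apply hasCP_of_bddCyclic
    intro F hF
    apply h
    unfold BSAF.MultCyclic
    rw [T.mOrbit_eq_bOrbit hT]
    exact hF

end Pool.Agent.Helper34.Cq
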