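import Pool.Agent.Helper34.Cq.CresB
import Pool.Agent.Helper34.Cq.FinGen

set_option autoImplicit false
set_option linter.unusedVariables false

namespace Pool.Agent.Helper34.Cq.Cres

open Filter Topology MvPolynomial BoundedContinuousFunction

/-- the crescent -/
def Cr : Set ℂ := {z | 1 / 2 < (om z).re ∧ (om z).re < 2 / 3}

theorem Cr_sub {z : ℂ} (hz : z ∈ Cr) : z ∈ EE := ⟨hz.1, Or.inl hz.2⟩

theorem om_cont : ContinuousOn om {z : ℂ | z ≠ 1} := by
  intro z hz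
  apply ContinuousAt.continuousWithinAt
  unfold om
  apply ContinuousAt.inv₀ (by fun_prop)
  intro h
  apply hz
  linear_combination -h

theorem Cr_ne {z : ℂ} (hz : z ∈ Cr) : z ≠ 1 := by
  intro h
  apply one_sub_ne hz.1
  rw [h, sub_self]

theorem Cr_open : IsOpen Cr := by
  have h1 : IsOpen {u : ℂ | 1 / 2 < u.re ∧ u.re < 2 / 3} :=
    (isOpen_lt continuous_const Complex.continuous_re).inter
      (isOpen_lt Complex.continuous_re continuous_const)
  have h2 := om_cont.isOpen_inter_preimage isOpen_ne h1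
  have h3 : Cr = {z : ℂ | z ≠ 1} ∩ om ⁻¹' {u : ℂ | 1 / 2 < u.re ∧ u.re < 2 / 3} := by
    ext z
    constructor
    · intro hz
      exact ⟨Cr_ne hz, hz⟩
    · intro hz
      exact hz.2
  rw [h3]
  exact h2

theorem om_cont' : ContinuousOn om Cr := om_cont.mono fun z hz => Cr_ne hz

theorem VV_cont : ContinuousOn VV Cr := by
  unfold VV
  apply Real.continuous_exp.comp_continuousOn
  apply ContinuousOn.sub _ continuousOn_const
  apply ContinuousOn.mul continuousOn_const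
  exact Complex.continuous_re.comp_continuousOn (om_cont'.pow 2)

theorem VV_le_one {z : ℂ} (hz : z ∈ Cr) : VV z ≤ 1 := by
  unfold VV
  rw [Real.exp_le_one_iff, re_sq]
  have h1 := hz.1
  have h2 := hz.2
  have h3 : (om z).re ≤ ‖om z‖ := Complex.re_le_norm _
  nlinarith

theorem proj_cont : ContinuousOn (fun w : Fin 1 → ℂ => w 0) {w | w 0 ∈ Cr} :=
  (continuous_apply 0).continuousOn

/-- the data of the weighted space on the crescent -/
noncomputable def D : WData where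
  Ω := {w | w 0 ∈ Cr}
  isOpen := Cr_open.preimage (continuous_apply 0)
  bdd w hw := (norm_lt hw.1).le
  wt w := VV (w 0)
  wt_cont := VV_cont.comp proj_cont (fun w hw => hw)
  wt_pos w _ := VV_pos _
  wt_le w hw := VV_le_one hw

theorem D_wt (w : Fin 1 → ℂ) : D.wt w = VV (w 0) := rfl

theorem D_mem (w : D.Ω) : (w : Fin 1 → ℂ) 0 ∈ Cr := w.2

theorem coe_val (G : D.Sp) (w : D.Ω) :
    (G : D.Ω →ᵇ ℂ) w = (VV ((w : Fin 1 → ℂ) 0) : ℂ) * D.bs.val G w := by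
  rw [WData.bs_val, ← D_wt, mul_div_cancel₀ _ (D.wt_ne w)]

theorem nrm_V (z u : ℂ) : ‖(VV z : ℂ) * u‖ = VV z * ‖u‖ := by
  rw [norm_mul, Complex.norm_real, Real.norm_eq_abs, abs_of_pos (VV_pos z)]

theorem norm_le' (G : D.Sp) {C : ℝ} (hC : 0 ≤ C)
    (h : ∀ w : D.Ω, VV ((w : Fin 1 → ℂ) 0) * ‖D.bs.val G w‖ ≤ C) : ‖G‖ ≤ C := by
  change ‖(G : D.Ω →ᵇ ℂ)‖ ≤ C
  rw [BoundedContinuousFunction.norm_le hC]
  intro w
  rw [coe_val, nrm_V]
  exact h w

theorem le_norm' (G : D.Sp) (w : D.Ω) : VV ((w : Fin 1 → ℂ) 0) * ‖D.bs.val G w‖ ≤ ‖G‖ := by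
  rw [← nrm_V, ← coe_val]
  exact (G : D.Ω →ᵇ ℂ).norm_coe_le_norm w

theorem evalX1 (P : Polynomial ℂ) (w : Fin 1 → ℂ) :
    eval w (Polynomial.aeval (X 0 : MvPolynomial (Fin 1) ℂ) P) = P.eval (w 0) := by
  induction P using Polynomial.induction_on' with
  | add p q hp hq => simp [hp, hq]
  | monomial n a => simp

theorem SS.bdd {g : ℂ → ℂ} (hg : SS g) : ∃ C : ℝ, ∀ z ∈ EE, VV z * ‖g z‖ ≤ C := by
  obtain ⟨P, hP⟩ := hg 1 one_pos
  obtain ⟨C, hC0, hC⟩ := poly_bd P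
  refine ⟨1 + Real.exp 7 * C, fun z hz => ?_⟩
  have h1 : g z = (g z - P.eval z) + P.eval z := by ring
  rw [h1]
  have h2 := hP z hz
  have h3 := hC z (norm_lt hz.1).le
  have h4 := VV_le7 hz
  have h5 := (VV_pos z).le
  calc VV z * ‖(g z - P.eval z) + P.eval z‖ ≤ VV z * (‖g z - P.eval z‖ + ‖P.eval z‖) := by
        gcongr
        exact norm_add_le _ _
    _ = VV z * ‖g z - P.eval z‖ + VV z * ‖P.eval z‖ := by ring
    _ ≤ 1 + Real.exp 7 * C := by gcongr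

/-- the weighted function -/
noncomputable def wf (g : ℂ → ℂ) (hg : SS g) (hc : ContinuousOn g Cr) : D.Ω →ᵇ ℂ :=
  BoundedContinuousFunction.ofNormedAddCommGroup
    (fun w : D.Ω => (VV ((w : Fin 1 → ℂ) 0) : ℂ) * g ((w : Fin 1 → ℂ) 0))
    ((Complex.continuous_ofReal.comp D.cont_wt).mul
      (continuousOn_iff_continuous_domRestrict.mp (hc.comp proj_cont (fun w hw => hw))))
    (Classical.choose hg.bdd) (by
      intro w
      rw [nrm_V]
      exact Classical.choose_spec hg.bdd _ (Cr_sub (D_mem w)))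

theorem wf_apply (g : ℂ → ℂ) (hg : SS g) (hc : ContinuousOn g Cr) (w : D.Ω) :
    wf g hg hc w = (VV ((w : Fin 1 → ℂ) 0) : ℂ) * g ((w : Fin 1 → ℂ) 0) := rfl

theorem wf_mem (g : ℂ → ℂ) (hg : SS g) (hc : ContinuousOn g Cr) : wf g hg hc ∈ D.Sp := by
  rw [WData.mem_Sp_iff]
  intro ε hε
  obtain ⟨P, hP⟩ := hg ε hε
  refine ⟨Polynomial.aeval (X 0 : MvPolynomial (Fin 1) ℂ) P, fun w => ?_⟩
  rw [evalX1, wf_apply, D_wt, ← mul_sub, nrm_V]
  exact hP _ (Cr_sub (D_mem w))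

/-- the element of the space -/
noncomputable def el (g : ℂ → ℂ) (hg : SS g) (hc : ContinuousOn g Cr) : D.Sp :=
  ⟨wf g hg hc, wf_mem g hg hc⟩

theorem el_val (g : ℂ → ℂ) (hg : SS g) (hc : ContinuousOn g Cr) (w : D.Ω) :
    D.bs.val (el g hg hc) w = g ((w : Fin 1 → ℂ) 0) := by
  rw [WData.bs_val]
  change wf g hg hc w / _ = _
  rw [wf_apply, D_wt, mul_div_cancel_left₀]
  exact_mod_cast (VV_pos _).ne'

theorem hh_cont : ContinuousOn hh Cr := by
  unfold hh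
  exact Complex.continuous_exp.comp_continuousOn (om_cont'.pow 2)

theorem FF_cont : ContinuousOn FF Cr := by
  unfold FF
  apply ContinuousOn.mul (by fun_prop)
  exact Complex.continuous_exp.comp_continuousOn (continuousOn_const.mul (om_cont'.pow 2))

theorem hh_bd {z : ℂ} (hz : z ∈ Cr) : ‖hh z‖ ≤ Real.exp 1 := by
  unfold hh
  rw [Complex.norm_exp]
  apply Real.exp_le_exp.mpr
  rw [re_sq]
  have h1 := hz.1
  have h2 := hz.2
  have h3 : (om z).re ≤ ‖om z‖ := Complex.re_le_norm _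
  nlinarith

theorem eval_cst (P : MvPolynomial (Fin 1) ℂ) : ∃ p : Polynomial ℂ, ∀ w : Fin 1 → ℂ,
    eval w P = p.eval (w 0) := by
  induction P using MvPolynomial.induction_on with
  | C a => exact ⟨Polynomial.C a, fun w => by simp⟩
  | add p q hp hq =>
    obtain ⟨p', hp'⟩ := hp
    obtain ⟨q', hq'⟩ := hq
    exact ⟨p' + q', fun w => by rw [map_add, hp', hq', Polynomial.eval_add]⟩
  | mul_X p j hp =>
    obtain ⟨p', hp'⟩ := hp
    refine ⟨p' * Polynomial.X, fun w => ?_⟩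
    rw [map_mul, hp', eval_X, Polynomial.eval_mul, Polynomial.eval_X, Subsingleton.elim j 0]

/-- bounded continuous version of `hh` on the crescent -/
noncomputable def hf : D.Ω →ᵇ ℂ :=
  BoundedContinuousFunction.ofNormedAddCommGroup (fun w : D.Ω => hh ((w : Fin 1 → ℂ) 0))
    (continuousOn_iff_continuous_domRestrict.mp (hh_cont.comp proj_cont (fun w hw => hw)))
    (Real.exp 1) (fun w => hh_bd (D_mem w))

theorem hf_apply (w : D.Ω) : hf w = hh ((w : Fin 1 → ℂ) 0) := rfl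

theorem hh_mult : D.bs.IsMult (fun w : D.Ω => hh ((w : Fin 1 → ℂ) 0)) := by
  intro G
  have hmem : hf * (G : D.Ω →ᵇ ℂ) ∈ D.Sp := by
    rw [WData.mem_Sp_iff]
    intro ε hε
    obtain ⟨P, hP⟩ := (D.mem_Sp_iff (G : D.Ω →ᵇ ℂ)).mp G.2 (ε / (2 * Real.exp 1)) (by positivity)
    obtain ⟨p, hp⟩ := eval_cst P
    obtain ⟨Q, hQ⟩ := (SS_hh.pmul p) (ε / 2) (by positivity)
    refine ⟨Polynomial.aeval (X 0 : MvPolynomial (Fin 1) ℂ) Q, fun w => ?_⟩
    rw [evalX1, BoundedContinuousFunction.mul_apply, hf_apply]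
    have h1 := hP w
    rw [hp] at h1
    have h2 := hQ _ (Cr_sub (D_mem w))
    rw [← nrm_V] at h2
    have h3 := hh_bd (D_mem w)
    rw [D_wt] at h1 ⊢
    have e1 : hh ((w : Fin 1 → ℂ) 0) * (G : D.Ω →ᵇ ℂ) w -
        (VV ((w : Fin 1 → ℂ) 0) : ℂ) * Q.eval ((w : Fin 1 → ℂ) 0) =
        hh ((w : Fin 1 → ℂ) 0) * ((G : D.Ω →ᵇ ℂ) w -
          (VV ((w : Fin 1 → ℂ) 0) : ℂ) * p.eval ((w : Fin 1 → ℂ) 0)) +
        (VV ((w : Fin 1 → ℂ) 0) : ℂ) * (p.eval ((w : Fin 1 → ℂ) 0) * hh ((w : Fin 1 → ℂ) 0) -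
          Q.eval ((w : Fin 1 → ℂ) 0)) := by ring
    rw [e1]
    calc _ ≤ _ := norm_add_le _ _
      _ ≤ Real.exp 1 * (ε / (2 * Real.exp 1)) + ε / 2 := by
          rw [norm_mul]
          gcongr
      _ = ε := by field_simp; norm_num
  refine ⟨⟨_, hmem⟩, fun w => ?_⟩
  rw [WData.bs_val, WData.bs_val]
  change (hf * (G : D.Ω →ᵇ ℂ)) w / _ = _
  rw [BoundedContinuousFunction.mul_apply, hf_apply]
  ring

theorem z_mult : D.bs.IsMult (fun w : D.Ω => (w : Fin 1 → ℂ) 0) := by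
  intro G
  exact ⟨D.bs.mul (X 0) G, fun w => by rw [D.bs.val_mul, eval_X]⟩

/-- `4 (1 - z) exp (-2 om^2)` -/
noncomputable def Fe : D.Sp := el (fun z => 4 * FF z) (SS_FF.smul 4) (continuousOn_const.mul FF_cont)

theorem Fe_val (w : D.Ω) : D.bs.val Fe w = 4 * FF ((w : Fin 1 → ℂ) 0) := el_val _ _ _ w

/-- `4 (1 - z)` -/
noncomputable def Ge : D.Sp := D.bs.mul (4 * (1 - X 0)) D.bs.one

theorem four_eval (w : Fin 1 → ℂ) : eval w (4 : MvPolynomial (Fin 1) ℂ) = 4 :=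
  map_ofNat (eval w) 4

theorem Ge_val (w : D.Ω) : D.bs.val Ge w = 4 * (1 - (w : Fin 1 → ℂ) 0) := by
  rw [Ge, D.bs.val_mul, D.bs.val_one, mul_one, map_mul, map_sub, map_one, eval_X, four_eval]

theorem hh_FF {z : ℂ} : hh z ^ 2 * FF z = 1 - z := by
  unfold hh FF
  rw [← Complex.exp_nat_mul]
  have : Complex.exp (((2 : ℕ) : ℂ) * om z ^ 2) * ((1 - z) * Complex.exp (-2 * om z ^ 2)) =
      (1 - z) * (Complex.exp (((2 : ℕ) : ℂ) * om z ^ 2) * Complex.exp (-2 * om z ^ 2)) := by ring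
  rw [this, ← Complex.exp_add]
  have h2 : ((2 : ℕ) : ℂ) * om z ^ 2 + -2 * om z ^ 2 = 0 := by push_cast; ring
  rw [h2, Complex.exp_zero, mul_one]

theorem Ge_cyclic : D.bs.ShiftCyclic Ge := by
  apply D.bs.cyclic_of_mem (g := D.bs.one) _ D.bs.cyclic_one
  rw [Metric.mem_closure_iff]
  intro ε hε
  obtain ⟨Q, hQ⟩ := ((SS_om 1).smul (1 / 4)) (ε / 16) (by positivity)
  refine ⟨D.bs.mul (Polynomial.aeval (X 0 : MvPolynomial (Fin 1) ℂ) Q) Ge,
    (D.bs.mem_orbit_iff _ _).mpr ⟨_, rfl⟩, ?_⟩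
  rw [dist_eq_norm]
  refine lt_of_le_of_lt (norm_le' _ (show 0 ≤ ε / 2 by positivity) ?_) (half_lt_self hε)
  intro w
  rw [map_sub, Pi.sub_apply, D.bs.val_one, D.bs.val_mul, Ge_val, evalX1]
  set z := (w : Fin 1 → ℂ) 0 with hz
  have hzC : z ∈ Cr := D_mem w
  have h1 := hQ z (Cr_sub hzC)
  have hne := one_sub_ne hzC.1
  have h2 : (1 : ℂ) - Q.eval z * (4 * (1 - z)) = (4 * (1 - z)) * (1 / 4 * om z ^ 1 - Q.eval z) := by
    unfold om
    field_simp
  rw [h2, norm_mul]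
  have h3 : ‖(4 : ℂ) * (1 - z)‖ ≤ 8 := by
    rw [norm_mul]
    have h4 := norm_sub_le (1 : ℂ) z
    have h5 := (norm_lt hzC.1).le
    rw [norm_one] at h4
    norm_num
    linarith
  have h6 := (VV_pos z).le
  calc VV z * (‖(4 : ℂ) * (1 - z)‖ * ‖1 / 4 * om z ^ 1 - Q.eval z‖)
      = ‖(4 : ℂ) * (1 - z)‖ * (VV z * ‖1 / 4 * om z ^ 1 - Q.eval z‖) := by ring
    _ ≤ 8 * (ε / 16) := by gcongr
    _ = ε / 2 := by ring

theorem Fe_fg : D.bs.FGCyclic Fe := by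
  refine ⟨2, fun w => ![(w : Fin 1 → ℂ) 0, hh ((w : Fin 1 → ℂ) 0)], ?_, ?_⟩
  · intro i
    fin_cases i
    · exact z_mult
    · exact hh_mult
  · have hsub : D.bs.orbit Ge ⊆ {G : D.Sp | ∃ P : MvPolynomial (Fin 2) ℂ, ∀ w : D.Ω,
        D.bs.val G w = eval (![(w : Fin 1 → ℂ) 0, hh ((w : Fin 1 → ℂ) 0)]) P * D.bs.val Fe w} := by
      intro G hG
      obtain ⟨P, rfl⟩ := (D.bs.mem_orbit_iff _ _).mp hG
      refine ⟨rename (fun _ => (0 : Fin 2)) P * X 1 ^ 2, fun w => ?_⟩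
      rw [D.bs.val_mul, Ge_val, Fe_val, map_mul, map_pow, eval_X, eval_rename]
      have e1 : (![(w : Fin 1 → ℂ) 0, hh ((w : Fin 1 → ℂ) 0)] ∘ fun _ : Fin 1 => (0 : Fin 2)) =
          (w : Fin 1 → ℂ) := by
        funext i
        rw [Subsingleton.elim i 0]
        rfl
      rw [e1]
      have e2 : (![(w : Fin 1 → ℂ) 0, hh ((w : Fin 1 → ℂ) 0)] : Fin 2 → ℂ) 1 =
          hh ((w : Fin 1 → ℂ) 0) := rfl
      rw [e2]
      have e3 := hh_FF (z := (w : Fin 1 → ℂ) 0)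
      linear_combination (-(4 * eval (w : Fin 1 → ℂ) P)) * e3
    have h2 := closure_mono hsub
    rw [Ge_cyclic] at h2
    exact Set.eq_univ_of_univ_subset h2

theorem sphere_mem {z : ℂ} (hz : ‖z - 1 / 6‖ = 5 / 6) (h1 : z ≠ 1) : z ∈ Cr := by
  have h2 : (om z).re = 3 / 5 := by
    have hne : 1 - z ≠ 0 := fun h => h1 (by linear_combination -h)
    have hpos : 0 < Complex.normSq (1 - z) := Complex.normSq_pos.mpr hne
    unfold om
    rw [Complex.inv_re, div_eq_iff hpos.ne']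
    have h3 : Complex.normSq (z - 1 / 6) = 25 / 36 := by
      rw [Complex.normSq_eq_norm_sq, hz]; norm_num
    rw [Complex.normSq_apply] at h3 ⊢
    simp only [Complex.sub_re, Complex.sub_im, Complex.one_re, Complex.one_im] at h3 ⊢
    have e1 : ((1 : ℂ) / 6).re = 1 / 6 := by
      rw [show (1 : ℂ) / 6 = ((1 / 6 : ℝ) : ℂ) by push_cast; rfl, Complex.ofReal_re]
    have e2 : ((1 : ℂ) / 6).im = 0 := by
      rw [show (1 : ℂ) / 6 = ((1 / 6 : ℝ) : ℂ) by push_cast; rfl, Complex.ofReal_im]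
    rw [e1, e2] at h3
    nlinarith
  constructor
  · rw [h2]; norm_num
  · rw [h2]; norm_num

theorem VV_FF {z : ℂ} : VV z * ‖FF z‖ = Real.exp (-1) * ‖1 - z‖ := by
  unfold VV FF
  rw [norm_mul, Complex.norm_exp]
  have h1 : ((-2 : ℂ) * om z ^ 2).re = -2 * (om z ^ 2).re := by
    simp
  rw [h1]
  have h2 : Real.exp (2 * (om z ^ 2).re - 1) * (‖1 - z‖ * Real.exp (-2 * (om z ^ 2).re)) =
      ‖1 - z‖ * (Real.exp (2 * (om z ^ 2).re - 1) * Real.exp (-2 * (om z ^ 2).re)) := by ring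
  rw [h2, ← Real.exp_add]
  have h3 : 2 * (om z ^ 2).re - 1 + -2 * (om z ^ 2).re = -1 := by ring
  rw [h3]
  ring

theorem hE (P : MvPolynomial (Fin 1) ℂ) : ‖eval (fun _ => (1 / 4 : ℂ)) P‖ ≤ ‖D.bs.mul P Fe‖ := by
  obtain ⟨p, hp⟩ := eval_cst P
  rw [hp]
  set N := ‖D.bs.mul P Fe‖ with hN
  have hN0 : 0 ≤ N := norm_nonneg _
  have hbd : ∀ z ∈ Cr, ‖p.eval z * (1 - z)‖ ≤ Real.exp 1 / 4 * N := by
    intro z hz
    have h1 := le_norm' (D.bs.mul P Fe) ⟨fun _ => z, hz⟩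
    rw [D.bs.val_mul, Fe_val, hp, ← hN] at h1
    change VV z * ‖p.eval z * (4 * FF z)‖ ≤ N at h1
    rw [norm_mul, norm_mul] at h1
    have h4 : ‖(4 : ℂ)‖ = 4 := by norm_num
    rw [h4] at h1
    have h2 : 4 * Real.exp (-1) * ‖p.eval z * (1 - z)‖ ≤ N := by
      rw [norm_mul]
      calc 4 * Real.exp (-1) * (‖p.eval z‖ * ‖1 - z‖) =
            4 * ‖p.eval z‖ * (Real.exp (-1) * ‖1 - z‖) := by ring
        _ = 4 * ‖p.eval z‖ * (VV z * ‖FF z‖) := by rw [VV_FF]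
        _ = VV z * (‖p.eval z‖ * (4 * ‖FF z‖)) := by ring
        _ ≤ N := h1
    have h3 : Real.exp 1 * Real.exp (-1) = 1 := by rw [← Real.exp_add]; simp
    calc ‖p.eval z * (1 - z)‖ = Real.exp 1 / 4 * (4 * Real.exp (-1) * ‖p.eval z * (1 - z)‖) := by
          linear_combination (-‖p.eval z * (1 - z)‖) * h3
      _ ≤ Real.exp 1 / 4 * N := by gcongr
  have hmax : ‖p.eval (1 / 4) * (1 - 1 / 4)‖ ≤ Real.exp 1 / 4 * N := by
    have hd : DiffContOnCl ℂ (fun z : ℂ => p.eval z * (1 - z)) (Metric.ball (1 / 6 : ℂ) (5 / 6)) := by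
      apply Differentiable.diffContOnCl
      exact p.differentiable.mul (by fun_prop)
    refine Complex.norm_le_of_forall_mem_frontier_norm_le Metric.isBounded_ball hd ?_
      (z := (1 / 4 : ℂ)) (subset_closure ?_)
    · intro z hz
      rw [frontier_ball _ (by norm_num), mem_sphere_iff_norm] at hz
      by_cases h1 : z = 1
      · change ‖p.eval z * (1 - z)‖ ≤ _
        rw [h1, sub_self, mul_zero, norm_zero]
        positivity
      · exact hbd z (sphere_mem hz h1)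
    · rw [mem_ball_iff_norm]
      norm_num
  rw [norm_mul] at hmax
  have h5 : ‖(1 : ℂ) - 1 / 4‖ = 3 / 4 := by norm_num
  rw [h5] at hmax
  have h6 : Real.exp 1 < 3 := lt_trans Real.exp_one_lt_d9 (by norm_num)
  nlinarith

theorem hU (ε : ℝ) (hε : 0 < ε) : ∃ Q : MvPolynomial (Fin 1) ℂ,
    eval (fun _ => (1 / 4 : ℂ)) Q = 1 ∧ ‖D.bs.mul Q D.bs.one‖ ≤ ε := by
  set δ : ℝ := min (1 / 2) (ε / 4) with hδ
  have hδpos : 0 < δ := by positivity
  have hδ1 : δ ≤ 1 / 2 := min_le_left _ _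
  have hδ2 : δ ≤ ε / 4 := min_le_right _ _
  -- choose lam
  set lam : ℝ := 3 / 2 * (1 / δ) with hlam
  have hlam0 : 0 ≤ lam := by positivity
  have hexp : Real.exp (-(2 / 3 * lam)) ≤ δ := by
    have h1 : 2 / 3 * lam = 1 / δ := by rw [hlam]; ring
    rw [h1, Real.exp_neg]
    have h2 := Real.add_one_le_exp (1 / δ)
    rw [inv_le_comm₀ (Real.exp_pos _) hδpos]
    rw [one_div] at h2 ⊢
    linarith
  obtain ⟨P, hP⟩ := SS_exp hlam0 δ hδpos
  beta_reduce at hP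
  have hq : (1 / 4 : ℂ) ∈ EE := by
    refine ⟨?_, Or.inr rfl⟩
    rw [om_quarter]
    norm_num
  have h1 := hP _ hq
  have hV : 1 ≤ VV (1 / 4) := by
    unfold VV
    rw [om_quarter]
    apply Real.one_le_exp
    have : (((4 : ℂ) / 3) ^ 2).re = 16 / 9 := by
      rw [show ((4 : ℂ) / 3) ^ 2 = ((16 / 9 : ℝ) : ℂ) by push_cast; norm_num, Complex.ofReal_re]
    rw [this]
    norm_num
  have e1 : Complex.exp ((lam : ℂ) * (om (1 / 4) - 4 / 3)) = 1 := by
    rw [om_quarter, sub_self, mul_zero, Complex.exp_zero]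
  rw [e1] at h1
  have h2 : ‖1 - P.eval (1 / 4)‖ ≤ δ := by
    have h3 := norm_nonneg (1 - P.eval (1 / 4))
    nlinarith
  have h3 : 1 / 2 ≤ ‖P.eval (1 / 4)‖ := by
    have h4 := norm_sub_norm_le (1 : ℂ) (1 - P.eval (1 / 4))
    rw [sub_sub_cancel, norm_one] at h4
    linarith
  have hPne : P.eval (1 / 4) ≠ 0 := by
    intro h
    rw [h, norm_zero] at h3
    linarith
  refine ⟨Polynomial.aeval (X 0 : MvPolynomial (Fin 1) ℂ)
    (Polynomial.C (P.eval (1 / 4))⁻¹ * P), ?_, ?_⟩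
  · rw [evalX1, Polynomial.eval_mul, Polynomial.eval_C]
    exact inv_mul_cancel₀ hPne
  · apply norm_le' _ hε.le
    intro w
    rw [D.bs.val_mul, D.bs.val_one, mul_one, evalX1, Polynomial.eval_mul, Polynomial.eval_C]
    set z := (w : Fin 1 → ℂ) 0 with hz
    have hzC : z ∈ Cr := D_mem w
    have h4 := hP z (Cr_sub hzC)
    have h5 := (VV_pos z).le
    have h6 := VV_le_one hzC
    have h7 : ‖Complex.exp ((lam : ℂ) * (om z - 4 / 3))‖ ≤ δ := by
      rw [Complex.norm_exp]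
      refine le_trans (Real.exp_le_exp.mpr ?_) hexp
      have e2 : ((lam : ℂ) * (om z - 4 / 3)).re = lam * ((om z).re - 4 / 3) := by
        rw [Complex.re_ofReal_mul, Complex.sub_re]
        congr 2
        rw [show (4 : ℂ) / 3 = ((4 / 3 : ℝ) : ℂ) by push_cast; rfl, Complex.ofReal_re]
      rw [e2]
      have h8 := hzC.2
      nlinarith
    have h8 : VV z * ‖P.eval z‖ ≤ 2 * δ := by
      have e3 : P.eval z = Complex.exp ((lam : ℂ) * (om z - 4 / 3)) -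
          (Complex.exp ((lam : ℂ) * (om z - 4 / 3)) - P.eval z) := by ring
      calc VV z * ‖P.eval z‖ = VV z * ‖Complex.exp ((lam : ℂ) * (om z - 4 / 3)) -
          (Complex.exp ((lam : ℂ) * (om z - 4 / 3)) - P.eval z)‖ := by rw [← e3]
        _ ≤ VV z * (‖Complex.exp ((lam : ℂ) * (om z - 4 / 3))‖ +
          ‖Complex.exp ((lam : ℂ) * (om z - 4 / 3)) - P.eval z‖) := by
            gcongr
            exact norm_sub_le _ _
        _ = VV z * ‖Complex.exp ((lam : ℂ) * (om z - 4 / 3))‖ +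
          VV z * ‖Complex.exp ((lam : ℂ) * (om z - 4 / 3)) - P.eval z‖ := by ring
        _ ≤ 1 * δ + δ := by gcongr
        _ = 2 * δ := by ring
    rw [norm_mul, norm_inv]
    have h9 : ‖P.eval (1 / 4)‖⁻¹ ≤ 2 := by
      rw [inv_le_comm₀ (by linarith) (by norm_num)]
      linarith
    calc VV z * (‖P.eval (1 / 4)‖⁻¹ * ‖P.eval z‖) = ‖P.eval (1 / 4)‖⁻¹ * (VV z * ‖P.eval z‖) := by
          ring
      _ ≤ 2 * (2 * δ) := by gcongr
      _ ≤ ε := by linarith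

theorem Fe_not_cyclic : ¬ D.bs.ShiftCyclic Fe := D.bs.not_cyclic Fe _ hE hU

theorem D_not_CP : ¬ HasCP.{0, 0} D.bs := fun h => Fe_not_cyclic (shiftCyclic_of_fg D.bs h Fe Fe_fg)

end Pool.Agent.Helper34.Cq.Cres
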