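import Pool.Agent.Helper34.Cq.CresC

set_option autoImplicit false
set_option linter.unusedVariables false

namespace Pool.Agent.Helper34.Cq.Cres

open Filter Topology

/-- the strip -/
def St : Set ℂ := {u | 1 / 2 < u.re ∧ u.re < 2 / 3}

theorem St_ne {u : ℂ} (hu : u ∈ St) : u ≠ 0 := by
  intro h
  have h1 := hu.1
  rw [h] at h1
  simp at h1
  linarith

theorem St_convex : Convex ℝ St := by
  have h1 : Convex ℝ {u : ℂ | 1 / 2 < u.re} := convex_halfSpace_re_gt _
  have h2 : Convex ℝ {u : ℂ | u.re < 2 / 3} := convex_halfSpace_re_lt _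
  exact h1.inter h2

theorem om_inv (u : ℂ) : om (1 - u⁻¹) = u := by
  unfold om
  rw [sub_sub_cancel, inv_inv]

theorem inv_om (z : ℂ) : 1 - (om z)⁻¹ = z := by
  unfold om
  rw [inv_inv, sub_sub_cancel]

/-- the homeomorphism between the crescent and the strip -/
noncomputable def hom : Cr ≃ₜ St where
  toFun z := ⟨om z, z.2⟩
  invFun u := ⟨1 - (u : ℂ)⁻¹, by
    change 1 / 2 < (om (1 - (u : ℂ)⁻¹)).re ∧ (om (1 - (u : ℂ)⁻¹)).re < 2 / 3
    rw [om_inv]
    exact u.2⟩
  left_inv z := Subtype.ext (inv_om z)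
  right_inv u := Subtype.ext (om_inv u)
  continuous_toFun := Continuous.subtype_mk (continuousOn_iff_continuous_domRestrict.mp om_cont') _
  continuous_invFun := by
    apply Continuous.subtype_mk
    apply continuous_const.sub
    exact continuous_subtype_val.inv₀ fun u => St_ne u.2

theorem St_nonempty : St.Nonempty := by
  refine ⟨((3 / 5 : ℝ) : ℂ), ?_⟩
  constructor
  · rw [Complex.ofReal_re]; norm_num
  · rw [Complex.ofReal_re]; norm_num

theorem Cr_sc : IsSimplyConnected Cr := by
  have h1 : ContractibleSpace St := St_convex.contractibleSpace St_nonempty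
  have h2 : ContractibleSpace Cr := hom.contractibleSpace
  change SimplyConnectedSpace Cr
  infer_instance

theorem D_sc : IsSimplyConnected {z : ℂ | (fun _ => z) ∈ D.Ω} := Cr_sc

end Pool.Agent.Helper34.Cq.Cres
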