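import Pool.Agent.Helper34.Cq.FinGen

set_option autoImplicit false
set_option linter.unusedVariables false

namespace Pool.Agent.Helper34.Cq.Cvx

open MvPolynomial Topology Filter Metric

section
variable {d : ℕ} {Ω : Set (Fin d → ℂ)} {Y : Type*} [NormedAddCommGroup Y] [NormedSpace ℂ Y]
  [CompleteSpace Y]

/-- the evaluations at the points of a compact set are uniformly bounded -/
theorem unif (T : BSAF d Ω Y) {K : Set (Fin d → ℂ)} (hK : IsCompact K) (hKΩ : K ⊆ Ω) :
    ∃ C : ℝ, 0 ≤ C ∧ ∀ (w : Fin d → ℂ) (hw : w ∈ K) (f : Y), ‖T.val f ⟨w, hKΩ hw⟩‖ ≤ C * ‖f‖ := by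
  have h1 := banach_steinhaus (ι := K)
    (g := fun w => T.evΩ ⟨(w : Fin d → ℂ), hKΩ w.2⟩) (by
      intro f
      obtain ⟨g, hg, hgv⟩ := T.analytic f
      obtain ⟨C, hC⟩ := hK.exists_bound_of_continuousOn (hg.continuousOn.mono hKΩ)
      refine ⟨C, fun w => ?_⟩
      rw [BSAF.evΩ_apply, hgv]
      exact hC w w.2)
  obtain ⟨C, hC⟩ := h1
  refine ⟨max C 0, le_max_right _ _, fun w hw f => ?_⟩
  have h2 := (T.evΩ ⟨w, hKΩ hw⟩).le_opNorm f
  rw [BSAF.evΩ_apply] at h2
  refine h2.trans ?_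
  gcongr
  exact (hC ⟨w, hw⟩).trans (le_max_left _ _)

/-- a polynomial composed with a contraction is a polynomial -/
theorem comp_poly (a : Fin d → ℂ) (r : ℝ) (P : MvPolynomial (Fin d) ℂ) :
    ∃ Q : MvPolynomial (Fin d) ℂ, ∀ w : Fin d → ℂ, eval w Q = eval ((1 - r) • a + r • w) P := by
  induction P using MvPolynomial.induction_on with
  | C c => exact ⟨C c, fun w => by simp⟩
  | add p q hp hq =>
    obtain ⟨p', hp'⟩ := hp
    obtain ⟨q', hq'⟩ := hq
    exact ⟨p' + q', fun w => by rw [map_add, map_add, hp', hq']⟩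
  | mul_X p j hp =>
    obtain ⟨p', hp'⟩ := hp
    obtain ⟨b, hb⟩ : ∃ b : ℂ, b = ((1 - r : ℝ) : ℂ) * a j := ⟨_, rfl⟩
    refine ⟨p' * (C b + C ((r : ℝ) : ℂ) * X j), fun w => ?_⟩
    have h1 : eval w (C b + C ((r : ℝ) : ℂ) * X j) = b + ((r : ℝ) : ℂ) * w j := by
      rw [map_add, map_mul, eval_C, eval_C, eval_X]
    have h2 : eval ((1 - r) • a + r • w) (X j : MvPolynomial (Fin d) ℂ) =
        b + ((r : ℝ) : ℂ) * w j := by
      rw [eval_X, hb]
      simp only [Pi.add_apply, Pi.smul_apply, Complex.real_smul]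
    rw [map_mul, map_mul, hp', h1, h2]

theorem bounded (T : BSAF d Ω Y) : ∃ C : ℝ, ∀ w ∈ Ω, ‖w‖ ≤ C := by
  choose C hC using fun i : Fin d => T.maxDomain_bdd (X i)
  refine ⟨∑ i, |C i|, fun w hw => ?_⟩
  rw [pi_norm_le_iff_of_nonneg (Finset.sum_nonneg fun i _ => abs_nonneg _)]
  intro i
  have h1 := hC i w (T.mem_maxDomain ⟨w, hw⟩)
  rw [eval_X] at h1
  exact (h1.trans (le_abs_self _)).trans
    (Finset.single_le_sum (f := fun i => |C i|) (fun i _ => abs_nonneg _) (Finset.mem_univ i))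

/-- bounded functions of the space are bounded pointwise limits of polynomials -/
theorem bdd_approx (T : BSAF d Ω Y) (hc : Convex ℝ Ω) (hne : Ω.Nonempty) (f : Y)
    {q : (Fin d → ℂ) → ℂ} (hq : DifferentiableOn ℂ q Ω) (hqf : ∀ w : Ω, T.val f w = q w) {M : ℝ}
    (hM : ∀ w ∈ Ω, ‖q w‖ ≤ M) :
    ∃ P : ℕ → MvPolynomial (Fin d) ℂ, (∀ n, ∀ w ∈ Ω, ‖eval w (P n)‖ ≤ M + 1) ∧
      ∀ w ∈ Ω, Tendsto (fun n => eval w (P n)) atTop (𝓝 (q w)) := by
  obtain ⟨a, ha⟩ := hne
  obtain ⟨B, hB⟩ := bounded T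
  have hcl : IsCompact (closure Ω) := by
    refine Metric.isCompact_of_isClosed_isBounded isClosed_closure ?_
    rw [isBounded_closure_iff, isBounded_iff_forall_norm_le]
    exact ⟨B, hB⟩
  set r : ℕ → ℝ := fun n => 1 - 1 / ((n : ℝ) + 2) with hr
  have hr0 : ∀ n, 0 ≤ r n := by
    intro n
    have h1 : 1 / ((n : ℝ) + 2) ≤ 1 := by
      rw [div_le_one (by positivity)]
      have : (0 : ℝ) ≤ n := Nat.cast_nonneg n
      linarith
    rw [hr]
    simp only
    linarith
  have hr1 : ∀ n, r n < 1 := by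
    intro n
    rw [hr]
    simp only
    have : (0 : ℝ) < 1 / ((n : ℝ) + 2) := by positivity
    linarith
  have hin : ∀ n, ∀ w ∈ closure Ω, (1 - r n) • a + r n • w ∈ Ω := by
    intro n w hw
    have ha' : a ∈ interior Ω := by rw [T.isOpen.interior_eq]; exact ha
    have h1 := hc.combo_interior_closure_mem_interior ha' hw
      (show 0 < 1 - r n by linarith [hr1 n]) (hr0 n) (by ring)
    exact interior_subset h1
  have hK : ∀ n, IsCompact ((fun w => (1 - r n) • a + r n • w) '' closure Ω) := fun n =>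
    hcl.image (by fun_prop)
  have hKΩ : ∀ n, ((fun w => (1 - r n) • a + r n • w) '' closure Ω) ⊆ Ω := by
    rintro n _ ⟨w, hw, rfl⟩
    exact hin n w hw
  choose C hC0 hC using fun n => unif T (hK n) (hKΩ n)
  choose P hP using fun n : ℕ => T.exists_near T.cyclic_one f
    (show (0 : ℝ) < 1 / ((n : ℝ) + 1) * (1 / (C n + 1)) by
      have := hC0 n
      positivity)
  choose Q hQ using fun n : ℕ => comp_poly a (r n) (P n)
  have key : ∀ n, ∀ w ∈ Ω, ‖eval w (Q n) - q ((1 - r n) • a + r n • w)‖ ≤ 1 / ((n : ℝ) + 1) := by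
    intro n w hw
    have hw' : (1 - r n) • a + r n • w ∈ (fun w => (1 - r n) • a + r n • w) '' closure Ω :=
      ⟨w, subset_closure hw, rfl⟩
    have h1 := hC n _ hw' (T.mul (P n) T.one - f)
    rw [map_sub, Pi.sub_apply, T.val_mul, T.val_one, mul_one, hqf] at h1
    rw [hQ]
    refine h1.trans ?_
    have h2 := hC0 n
    calc C n * ‖T.mul (P n) T.one - f‖ ≤ (C n + 1) * (1 / ((n : ℝ) + 1) * (1 / (C n + 1))) := by
          gcongr
          · linarith
          · exact hP n
      _ = 1 / ((n : ℝ) + 1) := by field_simp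
  refine ⟨Q, fun n w hw => ?_, fun w hw => ?_⟩
  · have h1 := key n w hw
    have h2 := hM _ (hin n w (subset_closure hw))
    have h3 : 1 / ((n : ℝ) + 1) ≤ 1 := by
      rw [div_le_one (by positivity)]
      have : (0 : ℝ) ≤ n := Nat.cast_nonneg n
      linarith
    have h4 := norm_sub_norm_le (eval w (Q n)) (q ((1 - r n) • a + r n • w))
    linarith
  · have hlim : Tendsto (fun n : ℕ => 1 / ((n : ℝ) + 1)) atTop (𝓝 0) :=
      tendsto_one_div_add_atTop_nhds_zero_nat
    have h1 : Tendsto (fun n => eval w (Q n) - q ((1 - r n) • a + r n • w)) atTop (𝓝 0) := by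
      rw [tendsto_zero_iff_norm_tendsto_zero]
      exact squeeze_zero (fun n => norm_nonneg _) (fun n => key n w hw) hlim
    have hrl : Tendsto r atTop (𝓝 1) := by
      have h2 : Tendsto (fun n : ℕ => 1 / ((n : ℝ) + 2)) atTop (𝓝 0) := by
        refine squeeze_zero (fun n => by positivity) (fun n => ?_) hlim
        apply one_div_le_one_div_of_le (by positivity)
        linarith
      have h3 := h2.const_sub 1
      rw [sub_zero] at h3
      exact h3
    have h4 : Tendsto (fun n => (1 - r n) • a + r n • w) atTop (𝓝 w) := by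
      have h5 := ((hrl.const_sub 1).smul_const a).add (hrl.smul_const w)
      simpa using h5
    have h6 : Tendsto (fun n => q ((1 - r n) • a + r n • w)) atTop (𝓝 (q w)) := by
      refine (hq.continuousOn w hw).tendsto.comp ?_
      rw [tendsto_nhdsWithin_iff]
      exact ⟨h4, Eventually.of_forall fun n => hin n w (subset_closure hw)⟩
    have h7 := h1.add h6
    simpa using h7

end

/-- Over a convex open set, every module over the bounded analytic functions with the weak
continuity property has (CP). -/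
theorem hasCP_convex.{u, v} {d' : ℕ} {Ω' : Set (Fin d' → ℂ)} {Z : Type v} [NormedAddCommGroup Z]
    [NormedSpace ℂ Z] [CompleteSpace Z] (T : BSAF d' Ω' Z) (hc : Convex ℝ Ω') (hT : T.HInfModule)
    (hbp : T.BPWeak) : HasCP.{u} T := by
  apply hasCP_of_bddCyclic
  intro F hF
  rcases Set.eq_empty_or_nonempty Ω' with hemp | hne
  · have h1 : T.orbit F = Set.univ := by
      rw [Set.eq_univ_iff_forall]
      intro g
      refine ⟨0, fun w => ?_⟩
      exact absurd (hemp.subset w.2) (Set.notMem_empty _)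
    unfold BSAF.ShiftCyclic
    rw [h1, closure_univ]
  · have h1 : closure (T.bOrbit F) ⊆ closure (T.orbit F) := by
      apply closure_minimal _ isClosed_closure
      intro G hG
      obtain ⟨q, hq1, ⟨M, hM⟩, hq3⟩ := T.bOrbit_spec hG
      obtain ⟨f0, hf0⟩ := hT q hq1 ⟨M, hM⟩ T.one
      have hf1 : ∀ w : Ω', T.val f0 w = q w := by
        intro w
        rw [hf0, T.val_one, mul_one]
      obtain ⟨P, hP1, hP2⟩ := bdd_approx T hc hne f0 hq1 hf1 hM
      exact T.weak_to_norm' hT hbp (h := fun w => w) differentiableOn_id F G q hq1 hq3 P _ hP1 hP2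
    rw [hF] at h1
    exact Set.eq_univ_of_univ_subset h1

end Pool.Agent.Helper34.Cq.Cvx
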