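import Pool.Agent.Helper34.Cq.RealD

set_option autoImplicit false
set_option linter.unusedVariables false

namespace Pool.Agent.Helper34.Cq

open MvPolynomial Topology Filter BoundedContinuousFunction

universe u v

/-- All the functions `h^α g` (`α` a multi-index) on the maximal domain are the functions of
elements of `Y` of norm at most `C`. -/
def HBdd {d' : ℕ} {Ω' : Set (Fin d' → ℂ)} {Y : Type v} [NormedAddCommGroup Y]
    [NormedSpace ℂ Y] [CompleteSpace Y] (T : BSAF d' Ω' Y) {n : ℕ}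
    (h : T.maxDomain → (Fin n → ℂ)) (g : T.maxDomain → ℂ) (C : ℝ) : Prop :=
  ∀ α : Fin n → ℕ, ∃ z : Y, ‖z‖ ≤ C ∧ ∀ w, T.ev w z = (∏ i, h w i ^ α i) * g w

/-- The elementary form of the intrinsic condition: if `ψ` and `F` generate the same closed
submodule for the functions `h` (in the norm `sup_α ‖h^α ·‖`), then `F` is shift-cyclic as soon as
`ψ` is. -/
def ElemCond {d' : ℕ} {Ω' : Set (Fin d' → ℂ)} {Y : Type v} [NormedAddCommGroup Y]
    [NormedSpace ℂ Y] [CompleteSpace Y] (T : BSAF d' Ω' Y) : Prop :=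
  ∀ (n : ℕ) (h : T.maxDomain → (Fin n → ℂ)) (ψ F : Y),
    (∃ C : ℝ, HBdd T h (fun w => T.ev w ψ) C) → (∃ C : ℝ, HBdd T h (fun w => T.ev w F) C) →
    (∀ ε : ℝ, 0 < ε → ∃ P : MvPolynomial (Fin n) ℂ,
      HBdd T h (fun w => eval (h w) P * T.ev w ψ - T.ev w F) ε) →
    (∀ ε : ℝ, 0 < ε → ∃ P : MvPolynomial (Fin n) ℂ,
      HBdd T h (fun w => eval (h w) P * T.ev w F - T.ev w ψ) ε) →
    T.ShiftCyclic ψ → T.ShiftCyclic F

namespace FMod

variable {d' : ℕ} {Ω' : Set (Fin d' → ℂ)} {Y : Type v} [NormedAddCommGroup Y]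
  [NormedSpace ℂ Y] [CompleteSpace Y] {T : BSAF d' Ω' Y} {n : ℕ} {M : Type u}
  [NormedAddCommGroup M] [NormedSpace ℂ M] [CompleteSpace M] (m : FMod T n M)

/-- the orbit map -/
noncomputable def orb (x : M) : MvPolynomial (Fin n) ℂ →ₗ[ℂ] M where
  toFun P := m.op P x
  map_add' P Q := m.op_add P Q x
  map_smul' c P := m.op_smul c P x

/-- the closed submodule generated by `x` -/
noncomputable def gen (x : M) : Submodule ℂ M := (LinearMap.range (m.orb x)).topologicalClosure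

noncomputable instance (x : M) : CompleteSpace (m.gen x) :=
  (Submodule.isClosed_topologicalClosure _).completeSpace_coe

theorem op_mem_gen (x : M) (Q : MvPolynomial (Fin n) ℂ) {y : M} (hy : y ∈ m.gen x) :
    m.op Q y ∈ m.gen x := by
  have h1 : Set.MapsTo (m.op Q) (LinearMap.range (m.orb x) : Set M)
      (LinearMap.range (m.orb x) : Set M) := by
    rintro _ ⟨P, rfl⟩
    exact ⟨Q * P, (m.op_op Q P x).symm⟩
  exact h1.closure (m.op Q).continuous hy

theorem self_mem_gen (x : M) : x ∈ m.gen x :=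
  subset_closure ⟨1, m.op_one x⟩

theorem mem_gen_iff (x y : M) : y ∈ m.gen x ↔ ∀ ε : ℝ, 0 < ε → ∃ P : MvPolynomial (Fin n) ℂ,
    ‖m.op P x - y‖ ≤ ε := by
  rw [gen, ← SetLike.mem_coe, Submodule.topologicalClosure_coe, Metric.mem_closure_iff]
  constructor
  · intro h ε hε
    obtain ⟨b, ⟨P, rfl⟩, hb⟩ := h ε hε
    rw [dist_comm, dist_eq_norm] at hb
    exact ⟨P, hb.le⟩
  · intro h ε hε
    obtain ⟨P, hP⟩ := h (ε / 2) (by positivity)
    refine ⟨m.orb x P, ⟨P, rfl⟩, ?_⟩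
    rw [dist_comm, dist_eq_norm]
    exact lt_of_le_of_lt hP (half_lt_self hε)

/-- the submodule generated by `x` -/
noncomputable def restr (x : M) : FMod T n (m.gen x) where
  j := m.j.comp (m.gen x).subtypeL
  inj := m.inj.comp Subtype.val_injective
  h := m.h
  mul i y := ⟨⟨m.op (X i) y, m.op_mem_gen x _ y.2⟩, fun w => by
    change T.ev w (m.j (m.op (X i) y)) = m.h w i * T.ev w (m.j y)
    rw [m.ev_op, eval_X]⟩

theorem restr_op (x : M) (P : MvPolynomial (Fin n) ℂ) (y : m.gen x) :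
    ((m.restr x).op P y : M) = m.op P y := by
  apply m.ext_ev
  intro w
  rw [m.ev_op]
  exact (m.restr x).ev_op P y w

theorem cyc_restr (x : M) (y : m.gen x)
    (hy : ∀ ε : ℝ, 0 < ε → ∃ P : MvPolynomial (Fin n) ℂ, ‖m.op P y - x‖ ≤ ε) :
    (m.restr x).Cyc y := by
  rw [cyc_iff, Metric.dense_iff]
  intro z r hr
  obtain ⟨Q, hQ⟩ := (m.mem_gen_iff x z).mp z.2 (r / 4) (by positivity)
  obtain ⟨P, hP⟩ := hy (r / (4 * (‖m.op Q‖ + 1))) (by positivity)
  refine ⟨(m.restr x).op (Q * P) y, ?_, ⟨Q * P, rfl⟩⟩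
  rw [Metric.mem_ball, dist_eq_norm]
  change ‖((m.restr x).op (Q * P) y : M) - (z : M)‖ < r
  rw [restr_op, ← m.op_op]
  have h1 : m.op Q (m.op P y) - (z : M) = m.op Q (m.op P y - x) + (m.op Q x - z) := by
    rw [map_sub]; abel
  rw [h1]
  have h2 : ‖m.op Q (m.op P y - x)‖ ≤ r / 4 := by
    calc ‖m.op Q (m.op P y - x)‖ ≤ ‖m.op Q‖ * ‖m.op P y - x‖ := (m.op Q).le_opNorm _
      _ ≤ (‖m.op Q‖ + 1) * (r / (4 * (‖m.op Q‖ + 1))) := by
          gcongr
          linarith
      _ = r / 4 := by field_simp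
  calc _ ≤ _ := norm_add_le _ _
    _ < r := by linarith

end FMod

section Yh

variable {d' : ℕ} {Ω' : Set (Fin d' → ℂ)} {Y : Type v} [NormedAddCommGroup Y]
  [NormedSpace ℂ Y] [CompleteSpace Y] (T : BSAF d' Ω' Y) {n : ℕ}
  (h : T.maxDomain → (Fin n → ℂ))

/-- the space of all `y` such that all the `h^α y` are in `Y` with bounded norms -/
def Yh : Submodule ℂ ((Fin n → ℕ) →ᵇ Y) where
  carrier := {z | ∀ (α : Fin n → ℕ) (w : T.maxDomain),
    T.ev w (z α) = (∏ i, h w i ^ α i) * T.ev w (z 0)}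
  add_mem' := by
    intro a b ha hb α w
    simp only [BoundedContinuousFunction.coe_add, Pi.add_apply, map_add]
    rw [ha, hb]
    ring
  zero_mem' := by
    intro α w
    simp
  smul_mem' := by
    intro c a ha α w
    simp only [BoundedContinuousFunction.coe_smul, map_smul, smul_eq_mul]
    rw [ha]
    ring

theorem isClosed_Yh : IsClosed (Yh T h : Set ((Fin n → ℕ) →ᵇ Y)) := by
  have : (Yh T h : Set ((Fin n → ℕ) →ᵇ Y)) = ⋂ (α : Fin n → ℕ) (w : T.maxDomain),
      {z | T.ev w (z α) = (∏ i, h w i ^ α i) * T.ev w (z 0)} := by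
    ext z
    simp only [Set.mem_iInter]
    rfl
  rw [this]
  refine isClosed_iInter fun α => isClosed_iInter fun w => ?_
  exact isClosed_eq ((T.ev w).continuous.comp (BoundedContinuousFunction.evalCLM ℂ α).continuous)
    (continuous_const.mul ((T.ev w).continuous.comp
      (BoundedContinuousFunction.evalCLM ℂ 0).continuous))

noncomputable instance : CompleteSpace (Yh T h) := (isClosed_Yh T h).completeSpace_coe

/-- evaluation at the multi-index zero -/
noncomputable def jYh : Yh T h →L[ℂ] Y :=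
  LinearMap.mkContinuous
    { toFun := fun z => (z : (Fin n → ℕ) →ᵇ Y) 0
      map_add' := fun a b => rfl
      map_smul' := fun c a => rfl } 1 (fun z => by
      rw [one_mul]
      exact (z : (Fin n → ℕ) →ᵇ Y).norm_coe_le_norm 0)

theorem jYh_apply (z : Yh T h) : jYh T h z = (z : (Fin n → ℕ) →ᵇ Y) 0 := rfl

theorem eq_of_ev {y y' : Y} (hy : ∀ w : T.maxDomain, T.ev w y = T.ev w y') : y = y' := by
  apply T.inj
  funext w
  rw [← T.ev_of_mem, ← T.ev_of_mem, hy]

theorem jYh_inj : Function.Injective (jYh T h) := by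
  intro a b hab
  apply Subtype.ext
  ext α
  apply eq_of_ev T
  intro w
  rw [a.2 α w, b.2 α w]
  have : (a : (Fin n → ℕ) →ᵇ Y) 0 = (b : (Fin n → ℕ) →ᵇ Y) 0 := hab
  rw [this]

/-- the module structure of `Yh` -/
noncomputable def mYh : FMod T n (Yh T h) where
  j := jYh T h
  inj := jYh_inj T h
  h := h
  mul i z := by
    refine ⟨⟨(z : (Fin n → ℕ) →ᵇ Y).compContinuous
      ⟨fun α => α + Pi.single i 1, continuous_of_discreteTopology⟩, ?_⟩, ?_⟩
    · intro α w
      change T.ev w ((z : (Fin n → ℕ) →ᵇ Y) (α + Pi.single i 1)) =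
        (∏ l, h w l ^ α l) * T.ev w ((z : (Fin n → ℕ) →ᵇ Y) (0 + Pi.single i 1))
      rw [z.2 (α + Pi.single i 1) w, z.2 (0 + Pi.single i 1) w]
      simp only [Pi.add_apply, pow_add, Finset.prod_mul_distrib, Pi.zero_apply, pow_zero,
        Finset.prod_const_one, one_mul]
      ring
    · intro w
      change T.ev w ((z : (Fin n → ℕ) →ᵇ Y) (0 + Pi.single i 1)) =
        h w i * T.ev w ((z : (Fin n → ℕ) →ᵇ Y) 0)
      rw [z.2 (0 + Pi.single i 1) w]
      congr 1
      rw [zero_add, Finset.prod_eq_single i]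
      · simp
      · intro b _ hb
        simp [Pi.single_eq_of_ne hb]
      · intro hi
        exact absurd (Finset.mem_univ i) hi

/-- elements of `Yh` from the boundedness condition -/
theorem exists_Yh {y : Y} {C : ℝ} (hy : HBdd T h (fun w => T.ev w y) C) :
    ∃ z : Yh T h, jYh T h z = y ∧ ‖z‖ ≤ C := by
  choose z hz1 hz2 using hy
  have hC : 0 ≤ C := (norm_nonneg _).trans (hz1 0)
  have hz0 : z 0 = y := by
    apply eq_of_ev T
    intro w
    rw [hz2 0 w]
    simp
  refine ⟨⟨BoundedContinuousFunction.ofNormedAddCommGroup z continuous_of_discreteTopology C hz1,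
    ?_⟩, hz0, ?_⟩
  · intro α w
    change T.ev w (z α) = (∏ i, h w i ^ α i) * T.ev w (z 0)
    rw [hz2 α w, hz0]
  · exact BoundedContinuousFunction.norm_ofNormedAddCommGroup_le _ hC hz1

end Yh

/-- the module form implies the elementary form -/
theorem invE_of_inv {d' : ℕ} {Ω' : Set (Fin d' → ℂ)} {Y : Type v} [NormedAddCommGroup Y]
    [NormedSpace ℂ Y] [CompleteSpace Y] (T : BSAF d' Ω' Y) (hI : ModCond.{v} T) : ElemCond T := by
  intro n h ψ F ⟨C1, h1⟩ ⟨C2, h2⟩ h3 h4 hψ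
  obtain ⟨a, ha, -⟩ := exists_Yh T h h1
  obtain ⟨b, hb, -⟩ := exists_Yh T h h2
  have key : ∀ (x y : Yh T h), (∀ ε : ℝ, 0 < ε → ∃ P : MvPolynomial (Fin n) ℂ,
      HBdd T h (fun w => eval (h w) P * T.ev w (jYh T h x) - T.ev w (jYh T h y)) ε) →
      ∀ ε : ℝ, 0 < ε → ∃ P : MvPolynomial (Fin n) ℂ, ‖(mYh T h).op P x - y‖ ≤ ε := by
    intro x y hxy ε hε
    obtain ⟨P, hP⟩ := hxy ε hε
    refine ⟨P, ?_⟩
    have h5 : (fun w => eval (h w) P * T.ev w (jYh T h x) - T.ev w (jYh T h y)) =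
        fun w => T.ev w (jYh T h ((mYh T h).op P x - y)) := by
      funext w
      rw [map_sub, map_sub]
      congr 1
      exact ((mYh T h).ev_op P x w).symm
    rw [h5] at hP
    obtain ⟨z, hz1, hz2⟩ := exists_Yh T h hP
    rw [← jYh_inj T h hz1]
    exact hz2
  have k1 := key a b (by rw [ha, hb]; exact h3)
  have k2 := key b a (by rw [ha, hb]; exact h4)
  have hbm : b ∈ (mYh T h).gen a := ((mYh T h).mem_gen_iff a b).mpr k1
  have c1 : ((mYh T h).restr a).Cyc ⟨a, (mYh T h).self_mem_gen a⟩ :=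
    (mYh T h).cyc_restr a _ (fun ε hε => ⟨1, by
      rw [(mYh T h).op_one, sub_self, norm_zero]; exact hε.le⟩)
  have c2 : ((mYh T h).restr a).Cyc ⟨b, hbm⟩ := (mYh T h).cyc_restr a _ k2
  have := hI n _ ((mYh T h).restr a) ⟨a, (mYh T h).self_mem_gen a⟩ ⟨b, hbm⟩ c1 c2
  change T.ShiftCyclic (jYh T h a) → T.ShiftCyclic (jYh T h b) at this
  rw [ha, hb] at this
  exact this hψ

/-- the elementary form implies the module form -/
theorem inv_of_invE {d' : ℕ} {Ω' : Set (Fin d' → ℂ)} {Y : Type v} [NormedAddCommGroup Y]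
    [NormedSpace ℂ Y] [CompleteSpace Y] (T : BSAF d' Ω' Y) (hI : ElemCond T) : ModCond.{u} T := by
  intro n M _ _ _ m x y hx hy hxc
  set K : ℝ := 1 + ∑ i, ‖m.op (X i)‖ with hK
  have hsum : 0 ≤ ∑ i, ‖m.op (X i)‖ := Finset.sum_nonneg fun i _ => norm_nonneg _
  have hKpos : 0 < K := by positivity
  have hKne : (K : ℂ) ≠ 0 := by exact_mod_cast hKpos.ne'
  have hKle : ∀ i, ‖m.op (X i)‖ ≤ K := by
    intro i
    have := Finset.single_le_sum (f := fun i : Fin n => ‖m.op (X i)‖)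
      (fun i _ => norm_nonneg _) (Finset.mem_univ i)
    linarith
  set h : T.maxDomain → (Fin n → ℂ) := fun w i => (K : ℂ)⁻¹ * m.h w i with hh
  -- contractive polynomials
  let N : Submonoid (MvPolynomial (Fin n) ℂ) :=
    { carrier := {Q | ∀ z : M, ‖m.op Q z‖ ≤ ‖z‖}
      mul_mem' := by
        intro P Q hP hQ z
        rw [← m.op_op]
        exact (hP _).trans (hQ z)
      one_mem' := by
        intro z
        rw [m.op_one] }
  have hXN : ∀ i, MvPolynomial.C (K : ℂ)⁻¹ * X i ∈ N := by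
    intro i z
    have h1 : MvPolynomial.C (K : ℂ)⁻¹ * X i = (K : ℂ)⁻¹ • (X i : MvPolynomial (Fin n) ℂ) := by
      rw [smul_eq_C_mul]
    rw [h1, m.op_smul, norm_smul, norm_inv, Complex.norm_real, Real.norm_eq_abs,
      abs_of_pos hKpos]
    calc K⁻¹ * ‖m.op (X i) z‖ ≤ K⁻¹ * (K * ‖z‖) := by
          gcongr
          exact ((m.op (X i)).le_opNorm z).trans (by gcongr; exact hKle i)
      _ = ‖z‖ := by field_simp
  set Pα : (Fin n → ℕ) → MvPolynomial (Fin n) ℂ := fun α => ∏ i, (MvPolynomial.C (K : ℂ)⁻¹ * X i) ^ α i with hPα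
  have hPN : ∀ α, Pα α ∈ N := fun α => Submonoid.prod_mem _ fun i _ => Submonoid.pow_mem _ (hXN i) _
  have hPe : ∀ α w, eval (m.h w) (Pα α) = ∏ i, h w i ^ α i := by
    intro α w
    rw [hPα]
    simp only [map_prod, map_pow, map_mul, eval_C, eval_X]
    rfl
  have hbd : ∀ z : M, HBdd T h (fun w => T.ev w (m.j z)) (‖m.j‖ * ‖z‖) := by
    intro z α
    refine ⟨m.j (m.op (Pα α) z), ?_, fun w => ?_⟩
    · exact (m.j.le_opNorm _).trans (by gcongr; exact hPN α z)
    · rw [m.ev_op, hPe]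
  have happ : ∀ a b : M, m.Cyc a → ∀ ε : ℝ, 0 < ε → ∃ P : MvPolynomial (Fin n) ℂ,
      HBdd T h (fun w => eval (h w) P * T.ev w (m.j a) - T.ev w (m.j b)) ε := by
    intro a b ha ε hε
    have h1 : ∀ (P : MvPolynomial (Fin n) ℂ) w, eval (h w) (aeval (fun i => MvPolynomial.C (K : ℂ) * (X i : MvPolynomial (Fin n) ℂ)) P) =
        eval (m.h w) P := by
      intro P w
      induction P using MvPolynomial.induction_on with
      | C a => simp
      | add p q hp hq => simp only [map_add, hp, hq]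
      | mul_X p i hp =>
        rw [map_mul, map_mul, map_mul, hp, aeval_X, map_mul, eval_C, eval_X, eval_X]
        congr 1
        rw [hh]
        field_simp
    obtain ⟨P, hP⟩ := m.cyc_near ha b (show 0 < ε / (‖m.j‖ + 1) by positivity)
    refine ⟨aeval (fun i => MvPolynomial.C (K : ℂ) * X i) P, ?_⟩
    have h2 : (fun w => eval (h w) (aeval (fun i => MvPolynomial.C (K : ℂ) * (X i : MvPolynomial (Fin n) ℂ)) P) *
        T.ev w (m.j a) - T.ev w (m.j b)) = fun w => T.ev w (m.j (m.op P a - b)) := by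
      funext w
      rw [h1, map_sub, map_sub, m.ev_op]
    rw [h2]
    intro α
    obtain ⟨z, hz1, hz2⟩ := hbd (m.op P a - b) α
    refine ⟨z, hz1.trans ?_, hz2⟩
    calc ‖m.j‖ * ‖m.op P a - b‖ ≤ (‖m.j‖ + 1) * (ε / (‖m.j‖ + 1)) := by
          gcongr
          linarith
      _ = ε := by field_simp
  exact hI n h (m.j x) (m.j y) ⟨_, hbd x⟩ ⟨_, hbd y⟩ (happ x y hx) (happ y x hy) hxc

/-- Elementary characterisation of property (CP). -/
theorem hasCP_iff_invE {d' : ℕ} {Ω' : Set (Fin d' → ℂ)} {Y : Type v} [NormedAddCommGroup Y]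
    [NormedSpace ℂ Y] [CompleteSpace Y] (T : BSAF d' Ω' Y) : HasCP.{v} T ↔ ElemCond T :=
  ⟨fun h => invE_of_inv T (inv_of_hasCP T h), fun h => hasCP_of_inv T (inv_of_invE T h)⟩

end Pool.Agent.Helper34.Cq
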