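import Pool.Agent.Helper34.Cq.Suff

set_option autoImplicit false
set_option linter.unusedVariables false

namespace Pool.Agent.Helper34.Cq

open MvPolynomial Topology Filter

universe u v

/-- A Banach space `M` of elements of `Y` (injected by the bounded operator `j`) which is invariant
under multiplication by the `n` functions `h 0, …, h (n-1)` on the maximal domain of `Y`. -/
structure FMod {d' : ℕ} {Ω' : Set (Fin d' → ℂ)} {Y : Type v} [NormedAddCommGroup Y]
    [NormedSpace ℂ Y] [CompleteSpace Y] (T : BSAF d' Ω' Y) (n : ℕ) (M : Type u)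
    [NormedAddCommGroup M] [NormedSpace ℂ M] [CompleteSpace M] where
  j : M →L[ℂ] Y
  inj : Function.Injective j
  h : T.maxDomain → (Fin n → ℂ)
  mul : ∀ (i : Fin n) (x : M), ∃ y : M, ∀ w : T.maxDomain, T.ev w (j y) = h w i * T.ev w (j x)

namespace FMod

variable {d' : ℕ} {Ω' : Set (Fin d' → ℂ)} {Y : Type v} [NormedAddCommGroup Y]
  [NormedSpace ℂ Y] [CompleteSpace Y] {T : BSAF d' Ω' Y} {n : ℕ} {M : Type u}
  [NormedAddCommGroup M] [NormedSpace ℂ M] [CompleteSpace M] (m : FMod T n M)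

/-- `x` is cyclic in `M` for the polynomials in `h 0, …, h (n-1)`. -/
def Cyc (x : M) : Prop :=
  closure {y : M | ∃ P : MvPolynomial (Fin n) ℂ, ∀ w : T.maxDomain,
    T.ev w (m.j y) = eval (m.h w) P * T.ev w (m.j x)} = Set.univ

theorem ext_ev {y y' : M} (h : ∀ w : T.maxDomain, T.ev w (m.j y) = T.ev w (m.j y')) : y = y' := by
  apply m.inj
  apply T.inj
  funext w
  rw [← T.ev_of_mem, ← T.ev_of_mem, h]

theorem exists_op (P : MvPolynomial (Fin n) ℂ) : ∃ S : M →L[ℂ] M, ∀ (x : M) (w : T.maxDomain),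
    T.ev w (m.j (S x)) = eval (m.h w) P * T.ev w (m.j x) := by
  have key : ∀ i : Fin n, ∃ S : M →L[ℂ] M, ∀ (x : M) (w : T.maxDomain),
      T.ev w (m.j (S x)) = m.h w i * T.ev w (m.j x) := by
    intro i
    choose s hs using m.mul i
    let L : M →ₗ[ℂ] M :=
      { toFun := s
        map_add' := fun x y => by
          apply m.ext_ev
          intro w
          rw [hs, map_add, map_add, map_add, map_add, hs, hs]
          ring
        map_smul' := fun c x => by
          apply m.ext_ev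
          intro w
          simp only [hs, map_smul, smul_eq_mul, RingHom.id_apply]
          ring }
    have hL : ∀ x, L x = s x := fun _ => rfl
    refine ⟨ContinuousLinearMap.ofSeqClosedGraph (g := L) ?_, fun x w => ?_⟩
    · intro u x y hx hy
      apply m.ext_ev
      intro w
      rw [hL, hs]
      have h1 : Tendsto (fun k => T.ev w (m.j ((L ∘ u) k))) atTop (𝓝 (T.ev w (m.j y))) :=
        ((T.ev w).continuous.tendsto _).comp ((m.j.continuous.tendsto _).comp hy)
      have h2 : Tendsto (fun k => m.h w i * T.ev w (m.j (u k))) atTop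
          (𝓝 (m.h w i * T.ev w (m.j x))) :=
        (((T.ev w).continuous.tendsto _).comp ((m.j.continuous.tendsto _).comp hx)).const_mul _
      refine tendsto_nhds_unique h1 (h2.congr fun k => ?_)
      exact (hs (u k) w).symm
    · exact hs x w
  induction P using MvPolynomial.induction_on with
  | C a =>
    refine ⟨a • ContinuousLinearMap.id ℂ M, fun x w => ?_⟩
    simp
  | add p q hp hq =>
    obtain ⟨A, hA⟩ := hp
    obtain ⟨B, hB⟩ := hq
    refine ⟨A + B, fun x w => ?_⟩
    simp only [_root_.add_apply, map_add, hA, hB, add_mul]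
  | mul_X p i hp =>
    obtain ⟨A, hA⟩ := hp
    obtain ⟨B, hB⟩ := key i
    refine ⟨A ∘L B, fun x w => ?_⟩
    simp only [ContinuousLinearMap.comp_apply, hA, hB, map_mul, eval_X]
    ring

/-- the operator of multiplication by a polynomial in `h` -/
noncomputable def op (P : MvPolynomial (Fin n) ℂ) : M →L[ℂ] M := Classical.choose (m.exists_op P)

theorem ev_op (P : MvPolynomial (Fin n) ℂ) (x : M) (w : T.maxDomain) :
    T.ev w (m.j (m.op P x)) = eval (m.h w) P * T.ev w (m.j x) :=
  Classical.choose_spec (m.exists_op P) x w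

theorem op_op (P Q : MvPolynomial (Fin n) ℂ) (x : M) : m.op P (m.op Q x) = m.op (P * Q) x := by
  apply m.ext_ev
  intro w
  simp only [ev_op, map_mul]
  ring

theorem op_add (P Q : MvPolynomial (Fin n) ℂ) (x : M) : m.op (P + Q) x = m.op P x + m.op Q x := by
  apply m.ext_ev
  intro w
  simp only [ev_op, map_add]
  ring

theorem op_smul (c : ℂ) (P : MvPolynomial (Fin n) ℂ) (x : M) :
    m.op (c • P) x = c • m.op P x := by
  apply m.ext_ev
  intro w
  simp only [ev_op, map_smul, smul_eval, smul_eq_mul]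
  ring

theorem op_zero (x : M) : m.op 0 x = 0 := by
  apply m.ext_ev
  intro w
  simp only [ev_op, map_zero, zero_mul]

theorem op_one (x : M) : m.op 1 x = x := by
  apply m.ext_ev
  intro w
  simp only [ev_op, map_one, one_mul]

theorem cyc_iff (x : M) : m.Cyc x ↔ Dense (Set.range fun P : MvPolynomial (Fin n) ℂ => m.op P x) := by
  rw [Cyc, dense_iff_closure_eq]
  have : {y : M | ∃ P : MvPolynomial (Fin n) ℂ, ∀ w : T.maxDomain,
      T.ev w (m.j y) = eval (m.h w) P * T.ev w (m.j x)} =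
      Set.range fun P : MvPolynomial (Fin n) ℂ => m.op P x := by
    ext y
    constructor
    · rintro ⟨P, hP⟩
      refine ⟨P, m.ext_ev fun w => ?_⟩
      simp only [ev_op, hP]
    · rintro ⟨P, rfl⟩
      exact ⟨P, fun w => m.ev_op P x w⟩
  rw [this]

theorem cyc_near {x : M} (hx : m.Cyc x) (y : M) {ε : ℝ} (hε : 0 < ε) :
    ∃ P : MvPolynomial (Fin n) ℂ, ‖m.op P x - y‖ ≤ ε := by
  rw [cyc_iff] at hx
  obtain ⟨z, hz, ⟨P, rfl⟩⟩ := Metric.dense_iff.mp hx y ε hε
  refine ⟨P, ?_⟩
  rw [Metric.mem_ball, dist_eq_norm] at hz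
  exact hz.le

/-- cyclic vectors have no zeros where the evaluation does not vanish -/
theorem cyc_ne {x y : M} (hx : m.Cyc x) (w : T.maxDomain) (hy : T.ev w (m.j y) ≠ 0) :
    T.ev w (m.j x) ≠ 0 := by
  intro h0
  rw [cyc_iff] at hx
  apply hy
  have h1 : closure (Set.range fun P : MvPolynomial (Fin n) ℂ => m.op P x) ⊆
      {z | T.ev w (m.j z) = 0} := by
    apply closure_minimal _ (isClosed_eq ((T.ev w).continuous.comp m.j.continuous)
      continuous_const)
    rintro z ⟨P, rfl⟩
    simp only [Set.mem_ofPred_eq, Function.comp_apply, ev_op, h0, mul_zero]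
  rw [hx.closure_eq] at h1
  exact h1 (Set.mem_univ y)

theorem h_bdd (w : T.maxDomain) {y : M} (hy : T.ev w (m.j y) ≠ 0) (P : MvPolynomial (Fin n) ℂ) :
    ‖eval (m.h w) P‖ ≤ ‖m.op P‖ := by
  set Λ : M →L[ℂ] ℂ := (T.ev w).comp m.j with hΛ
  have hne : Λ ≠ 0 := by
    intro h0
    apply hy
    have : Λ y = 0 := by rw [h0]; simp
    exact this
  have h1 : ‖(eval (m.h w) P) • Λ‖ ≤ ‖Λ‖ * ‖m.op P‖ := by
    apply ContinuousLinearMap.opNorm_le_bound _ (by positivity)
    intro f
    have h2 : ((eval (m.h w) P) • Λ) f = Λ (m.op P f) := by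
      change (eval (m.h w) P) • T.ev w (m.j f) = T.ev w (m.j (m.op P f))
      rw [m.ev_op, smul_eq_mul]
    rw [h2]
    calc ‖Λ (m.op P f)‖ ≤ ‖Λ‖ * ‖m.op P f‖ := Λ.le_opNorm _
      _ ≤ ‖Λ‖ * (‖m.op P‖ * ‖f‖) := by gcongr; exact (m.op P).le_opNorm _
      _ = ‖Λ‖ * ‖m.op P‖ * ‖f‖ := by ring
  rw [norm_smul] at h1
  have hpos : 0 < ‖Λ‖ := norm_pos_iff.mpr hne
  have h3 : ‖eval (m.h w) P‖ * ‖Λ‖ ≤ ‖m.op P‖ * ‖Λ‖ := by linarith [mul_comm ‖Λ‖ ‖m.op P‖]
  exact le_of_mul_le_mul_right h3 hpos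

end FMod

/-- The intrinsic condition: in every Banach space `M` of elements of `Y` which is finitely
generated as an algebra module, the cyclic vectors of `M` are shift-cyclic in `Y` as soon as one of
them is. -/
def ModCond {d' : ℕ} {Ω' : Set (Fin d' → ℂ)} {Y : Type v} [NormedAddCommGroup Y]
    [NormedSpace ℂ Y] [CompleteSpace Y] (T : BSAF d' Ω' Y) : Prop :=
  ∀ (n : ℕ) (M : Type u) [NormedAddCommGroup M] [NormedSpace ℂ M] [CompleteSpace M]
    (m : FMod T n M) (x y : M), m.Cyc x → m.Cyc y → T.ShiftCyclic (m.j x) → T.ShiftCyclic (m.j y)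

end Pool.Agent.Helper34.Cq
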