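import Pool.Agent.Helper34.Cq.WS

set_option autoImplicit false
set_option linter.unusedVariables false

namespace Pool.Agent.Helper34.Cq

open MvPolynomial Topology Filter BoundedContinuousFunction

/-- A sequence of disjoint bounded open subsets of the plane with weights. -/
structure LData where
  U : ℕ → Set ℂ
  isOpen : ∀ k, IsOpen (U k)
  bdd : ∀ k, ∀ z ∈ U k, ‖z‖ ≤ 1
  disj : ∀ j k z, z ∈ U j → z ∈ U k → j = k
  c : ℕ → ℝ
  c_pos : ∀ k, 0 < c k
  c_le : ∀ k, c k ≤ 1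
  c_lim : Tendsto c atTop (𝓝 0)
  app : ∀ (k : ℕ) (ε : ℝ), 0 < ε → ∃ P : Polynomial ℂ, ∀ j, ∀ z ∈ U j,
    c j * ‖P.eval z - (if j = k then 1 else 0)‖ ≤ ε

namespace LData

variable (L : LData)

/-- the union of the levels, as a subset of `ℂ^1` -/
def Om : Set (Fin 1 → ℂ) := {w | ∃ k, w 0 ∈ L.U k}

open Classical in
/-- the level of a point -/
noncomputable def idx (w : Fin 1 → ℂ) : ℕ := if h : ∃ k, w 0 ∈ L.U k then Nat.find h else 0

theorem idx_eq {w : Fin 1 → ℂ} {k : ℕ} (h : w 0 ∈ L.U k) : L.idx w = k := by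
  classical
  have hex : ∃ k, w 0 ∈ L.U k := ⟨k, h⟩
  have h1 : L.idx w = Nat.find hex := by
    rw [idx, dif_pos hex]
  rw [h1]
  exact L.disj _ _ _ (Nat.find_spec hex) h

theorem mem_idx {w : Fin 1 → ℂ} (h : w ∈ L.Om) : w 0 ∈ L.U (L.idx w) := by
  obtain ⟨k, hk⟩ := h
  rw [L.idx_eq hk]
  exact hk

theorem isOpen_Om : IsOpen L.Om := by
  have : L.Om = ⋃ k, (fun w : Fin 1 → ℂ => w 0) ⁻¹' (L.U k) := by
    ext w
    simp [Om]
  rw [this]
  exact isOpen_iUnion fun k => (L.isOpen k).preimage (continuous_apply 0)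

theorem idx_eventually {w : Fin 1 → ℂ} (h : w ∈ L.Om) : ∀ᶠ u in 𝓝 w, L.idx u = L.idx w := by
  have h1 : (fun u : Fin 1 → ℂ => u 0) ⁻¹' (L.U (L.idx w)) ∈ 𝓝 w :=
    ((L.isOpen _).preimage (continuous_apply 0)).mem_nhds (L.mem_idx h)
  filter_upwards [h1] with u hu
  exact L.idx_eq hu

/-- functions of the level are continuous -/
theorem cont_idx {α : Type*} [TopologicalSpace α] (b : ℕ → α) :
    ContinuousOn (fun w => b (L.idx w)) L.Om := by
  intro w hw
  apply ContinuousAt.continuousWithinAt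
  have : (fun u => b (L.idx u)) =ᶠ[𝓝 w] fun _ => b (L.idx w) := by
    filter_upwards [L.idx_eventually hw] with u hu
    rw [hu]
  exact this.continuousAt

/-- the weighted space of the levels -/
noncomputable def W : WData where
  Ω := L.Om
  isOpen := L.isOpen_Om
  bdd w hw := L.bdd _ _ (L.mem_idx hw)
  wt w := L.c (L.idx w)
  wt_cont := L.cont_idx L.c
  wt_pos w _ := L.c_pos _
  wt_le w _ := L.c_le _

/-- the function with value `b k` on the `k`-th level (already weighted) -/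
noncomputable def stp (b : ℕ → ℂ) (C : ℝ) (hb : ∀ k, ‖b k‖ ≤ C) : L.W.Ω →ᵇ ℂ :=
  BoundedContinuousFunction.ofNormedAddCommGroup (fun w : L.W.Ω => b (L.idx w))
    (continuousOn_iff_continuous_domRestrict.mp (L.cont_idx b)) C (fun w => hb _)

theorem stp_apply (b : ℕ → ℂ) (C : ℝ) (hb : ∀ k, ‖b k‖ ≤ C) (w : L.W.Ω) :
    L.stp b C hb w = b (L.idx w) := rfl

/-- the indicator of the `k`-th level -/
noncomputable def e (k : ℕ) : L.W.Ω →ᵇ ℂ :=
  L.stp (fun j => if j = k then (L.c k : ℂ) else 0) (L.c k) (by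
    intro j
    have := L.c_pos k
    by_cases h : j = k
    · simp [h, abs_of_pos this]
    · simp [h, this.le])

theorem e_apply (k : ℕ) (w : L.W.Ω) : L.e k w = if L.idx w = k then (L.c k : ℂ) else 0 := rfl

theorem evalX (P : Polynomial ℂ) (w : Fin 1 → ℂ) :
    eval w (Polynomial.aeval (X 0 : MvPolynomial (Fin 1) ℂ) P) = P.eval (w 0) := by
  induction P using Polynomial.induction_on' with
  | add p q hp hq => simp [hp, hq]
  | monomial n a => simp

theorem e_mem (k : ℕ) : L.e k ∈ L.W.Sp := by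
  rw [WData.mem_Sp_iff]
  intro ε hε
  obtain ⟨P, hP⟩ := L.app k ε hε
  refine ⟨Polynomial.aeval (X 0 : MvPolynomial (Fin 1) ℂ) P, fun w => ?_⟩
  rw [evalX, e_apply]
  have hw : (w : Fin 1 → ℂ) 0 ∈ L.U (L.idx w) := L.mem_idx w.2
  have h1 := hP _ _ hw
  change ‖(if L.idx w = k then (L.c k : ℂ) else 0) -
    (L.c (L.idx w) : ℂ) * P.eval ((w : Fin 1 → ℂ) 0)‖ ≤ ε
  have h2 : (if L.idx w = k then (L.c k : ℂ) else 0) -
      (L.c (L.idx w) : ℂ) * P.eval ((w : Fin 1 → ℂ) 0) =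
      - ((L.c (L.idx w) : ℂ) * (P.eval ((w : Fin 1 → ℂ) 0) - (if L.idx w = k then 1 else 0))) := by
    by_cases h : L.idx w = k
    · simp only [h, if_true]; ring
    · simp only [h, if_false]; ring
  rw [h2, norm_neg, norm_mul, Complex.norm_real, Real.norm_eq_abs, abs_of_pos (L.c_pos _)]
  exact h1

/-- finite sums of a step function -/
theorem stp_psum (b : ℕ → ℂ) (C : ℝ) (hb : ∀ k, ‖b k‖ ≤ C) (n : ℕ) (w : L.W.Ω) :
    (∑ k ∈ Finset.range n, (b k / (L.c k : ℂ)) • L.e k) w =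
      if L.idx w < n then b (L.idx w) else 0 := by
  rw [BoundedContinuousFunction.coe_sum, Finset.sum_apply]
  simp only [BoundedContinuousFunction.coe_smul, e_apply, smul_eq_mul]
  have h1 : ∀ k, b k / (L.c k : ℂ) * (if L.idx w = k then (L.c k : ℂ) else 0) =
      if L.idx w = k then b k else 0 := by
    intro k
    have hne : (L.c k : ℂ) ≠ 0 := by exact_mod_cast (L.c_pos k).ne'
    by_cases h : L.idx w = k
    · simp only [h, if_true]; field_simp
    · simp only [h, if_false, mul_zero]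
  simp_rw [h1]
  rw [Finset.sum_ite_eq]
  simp

theorem stp_tendsto (b : ℕ → ℂ) (C : ℝ) (hb : ∀ k, ‖b k‖ ≤ C) (h0 : Tendsto b atTop (𝓝 0)) :
    Tendsto (fun n => ∑ k ∈ Finset.range n, (b k / (L.c k : ℂ)) • L.e k) atTop
      (𝓝 (L.stp b C hb)) := by
  rw [Metric.tendsto_atTop]
  intro ε hε
  obtain ⟨N, hN⟩ := Metric.tendsto_atTop.mp h0 (ε / 2) (by positivity)
  refine ⟨N, fun n hn => ?_⟩
  rw [dist_eq_norm]
  refine lt_of_le_of_lt ((BoundedContinuousFunction.norm_le (by positivity)).mpr ?_)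
    (half_lt_self hε)
  intro w
  rw [BoundedContinuousFunction.coe_sub, Pi.sub_apply, L.stp_psum b C hb, stp_apply]
  by_cases h : L.idx w < n
  · simp only [h, if_true, sub_self, norm_zero]; positivity
  · simp only [h, if_false, zero_sub, norm_neg]
    have := hN (L.idx w) (by omega)
    rw [dist_zero_right] at this
    exact this.le

theorem stp_mem (b : ℕ → ℂ) (C : ℝ) (hb : ∀ k, ‖b k‖ ≤ C) (h0 : Tendsto b atTop (𝓝 0)) :
    L.stp b C hb ∈ L.W.Sp := by
  have hcl : IsClosed (L.W.Sp : Set (L.W.Ω →ᵇ ℂ)) := Submodule.isClosed_topologicalClosure _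
  refine hcl.mem_of_tendsto (L.stp_tendsto b C hb h0) (Eventually.of_forall fun n => ?_)
  exact Submodule.sum_mem _ fun k _ => Submodule.smul_mem _ _ (L.e_mem k)

/-- the indicator of a level, as an element of the space -/
noncomputable def eS (k : ℕ) : L.W.Sp := ⟨L.e k, L.e_mem k⟩

/-- a step function, as an element of the space -/
noncomputable def stpS (b : ℕ → ℂ) (C : ℝ) (hb : ∀ k, ‖b k‖ ≤ C) (h0 : Tendsto b atTop (𝓝 0)) :
    L.W.Sp := ⟨L.stp b C hb, L.stp_mem b C hb h0⟩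

theorem stpS_tendsto (b : ℕ → ℂ) (C : ℝ) (hb : ∀ k, ‖b k‖ ≤ C) (h0 : Tendsto b atTop (𝓝 0)) :
    Tendsto (fun n => ∑ k ∈ Finset.range n, (b k / (L.c k : ℂ)) • L.eS k) atTop
      (𝓝 (L.stpS b C hb h0)) := by
  rw [Topology.IsInducing.subtypeVal.tendsto_nhds_iff]
  have h := L.stp_tendsto b C hb h0
  refine h.congr fun n => ?_
  simp [eS]

theorem stpS_coe (b : ℕ → ℂ) (C : ℝ) (hb : ∀ k, ‖b k‖ ≤ C) (h0 : Tendsto b atTop (𝓝 0))
    (w : L.W.Ω) : (L.stpS b C hb h0 : L.W.Ω →ᵇ ℂ) w = b (L.idx w) := rfl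

theorem coe_mul (P : MvPolynomial (Fin 1) ℂ) (G : L.W.Sp) (w : L.W.Ω) :
    (L.W.bs.mul P G : L.W.Ω →ᵇ ℂ) w = eval (w : Fin 1 → ℂ) P * (G : L.W.Ω →ᵇ ℂ) w := by
  have h := L.W.bs.val_mul P G w
  rw [WData.bs_val, WData.bs_val] at h
  have hne := L.W.wt_ne w
  field_simp at h
  exact h

theorem one_eq : L.W.bs.one = L.stpS (fun k => (L.c k : ℂ)) 1
    (fun k => by
      rw [Complex.norm_real, Real.norm_eq_abs, abs_of_pos (L.c_pos k)]; exact L.c_le k)
    (by
      have h := (Complex.continuous_ofReal.tendsto 0).comp L.c_lim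
      simpa [Function.comp_def] using h) := by
  apply L.W.bs.inj
  funext w
  rw [L.W.bs.val_one, WData.bs_val, stpS_coe]
  exact (div_self (L.W.wt_ne w)).symm

/-- functionals extending point evaluations pick out a level -/
theorem exists_level (Q : ℕ → Polynomial ℂ) (hQ : ∀ k, ∀ z ∈ L.U k, ‖(Q k).eval z‖ ≤ 1 / 2)
    (hd : ∀ j k z, ‖(Q j).eval z‖ ≤ 1 / 2 → ‖(Q k).eval z‖ ≤ 1 / 2 → j = k)
    {w : Fin 1 → ℂ} {Λ : L.W.Sp →L[ℂ] ℂ} (hΛ : L.W.bs.IsEval w Λ) :
    ∃ k, ∀ (b : ℕ → ℂ) (C : ℝ) (hb : ∀ k, ‖b k‖ ≤ C) (h0 : Tendsto b atTop (𝓝 0)),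
      Λ (L.stpS b C hb h0) = b k / (L.c k : ℂ) := by
  -- the values on the indicators
  have h1 : ∀ k, Λ (L.eS k) ≠ 0 → ‖(Q k).eval (w 0)‖ ≤ 1 / 2 := by
    intro k hk
    by_contra hcon
    push Not at hcon
    set q := ‖(Q k).eval (w 0)‖ with hq
    have hbound : ∀ n : ℕ, (2 * q) ^ n * ‖Λ (L.eS k)‖ ≤ ‖Λ‖ * L.c k := by
      intro n
      set P : MvPolynomial (Fin 1) ℂ := Polynomial.aeval (X 0 : MvPolynomial (Fin 1) ℂ) ((Q k) ^ n)
        with hP
      have h2 : Λ (L.W.bs.mul P (L.eS k)) = (Q k).eval (w 0) ^ n * Λ (L.eS k) := by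
        rw [L.W.bs.isEval_mul hΛ, hP, evalX, Polynomial.eval_pow]
      have h3 : ‖L.W.bs.mul P (L.eS k)‖ ≤ L.c k * (1 / 2) ^ n := by
        change ‖(L.W.bs.mul P (L.eS k) : L.W.Ω →ᵇ ℂ)‖ ≤ _
        rw [BoundedContinuousFunction.norm_le (by have := L.c_pos k; positivity)]
        intro u
        rw [coe_mul, hP, evalX, Polynomial.eval_pow]
        change ‖(Q k).eval ((u : Fin 1 → ℂ) 0) ^ n * (L.e k) u‖ ≤ _
        rw [e_apply]
        by_cases hu : L.idx u = k
        · simp only [hu, if_true, norm_mul, norm_pow, Complex.norm_real, Real.norm_eq_abs,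
            abs_of_pos (L.c_pos k)]
          have hu2 : (u : Fin 1 → ℂ) 0 ∈ L.U k := by rw [← hu]; exact L.mem_idx u.2
          have := hQ k _ hu2
          rw [mul_comm]
          have := L.c_pos k
          gcongr
        · simp only [hu, if_false, mul_zero, norm_zero]
          have := L.c_pos k
          positivity
      have h4 : q ^ n * ‖Λ (L.eS k)‖ ≤ ‖Λ‖ * (L.c k * (1 / 2) ^ n) := by
        have h5 := Λ.le_opNorm (L.W.bs.mul P (L.eS k))
        rw [h2, norm_mul, norm_pow] at h5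
        exact h5.trans (by gcongr)
      calc (2 * q) ^ n * ‖Λ (L.eS k)‖ = 2 ^ n * (q ^ n * ‖Λ (L.eS k)‖) := by rw [mul_pow]; ring
        _ ≤ 2 ^ n * (‖Λ‖ * (L.c k * (1 / 2) ^ n)) := by gcongr
        _ = ‖Λ‖ * L.c k * (2 * (1 / 2)) ^ n := by rw [mul_pow]; ring
        _ = ‖Λ‖ * L.c k := by norm_num
    have hgt : 1 < 2 * q := by linarith
    have hpos : 0 < ‖Λ (L.eS k)‖ := norm_pos_iff.mpr hk
    obtain ⟨n, hn⟩ := pow_unbounded_of_one_lt (‖Λ‖ * L.c k / ‖Λ (L.eS k)‖) hgt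
    have := hbound n
    rw [div_lt_iff₀ hpos] at hn
    linarith
  have h2 : ∀ j k, Λ (L.eS j) ≠ 0 → Λ (L.eS k) ≠ 0 → j = k :=
    fun j k hj hk => hd j k _ (h1 j hj) (h1 k hk)
  have h3 : ∀ (b : ℕ → ℂ) (C : ℝ) (hb : ∀ k, ‖b k‖ ≤ C) (h0 : Tendsto b atTop (𝓝 0)),
      Tendsto (fun n => ∑ k ∈ Finset.range n, (b k / (L.c k : ℂ)) * Λ (L.eS k)) atTop
      (𝓝 (Λ (L.stpS b C hb h0))) := by
    intro b C hb h0
    have h := (Λ.continuous.tendsto _).comp (L.stpS_tendsto b C hb h0)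
    refine h.congr fun n => ?_
    simp [map_sum]
  obtain ⟨k, hk⟩ : ∃ k, Λ (L.eS k) ≠ 0 := by
    by_contra hcon
    push Not at hcon
    have h4 := L.W.bs.isEval_one hΛ
    rw [one_eq] at h4
    have h5 := h3 (fun k => (L.c k : ℂ)) 1 (fun k => by
      rw [Complex.norm_real, Real.norm_eq_abs, abs_of_pos (L.c_pos k)]; exact L.c_le k) (by
      have h := (Complex.continuous_ofReal.tendsto 0).comp L.c_lim
      simpa [Function.comp_def] using h)
    rw [h4] at h5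
    simp only [hcon, mul_zero, Finset.sum_const_zero] at h5
    exact zero_ne_one (tendsto_nhds_unique tendsto_const_nhds h5)
  have h4 : ∀ (b : ℕ → ℂ) (C : ℝ) (hb : ∀ k, ‖b k‖ ≤ C) (h0 : Tendsto b atTop (𝓝 0)),
      Λ (L.stpS b C hb h0) = b k / (L.c k : ℂ) * Λ (L.eS k) := by
    intro b C hb h0
    refine tendsto_nhds_unique (h3 b C hb h0) ?_
    apply tendsto_const_nhds.congr'
    filter_upwards [eventually_gt_atTop k] with n hn
    rw [Finset.sum_eq_single k]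
    · intro j _ hj
      have : Λ (L.eS j) = 0 := by
        by_contra h
        exact hj (h2 j k h hk)
      rw [this, mul_zero]
    · intro h
      exact absurd (Finset.mem_range.mpr hn) h
  have h5 : Λ (L.eS k) = 1 := by
    have h6 := L.W.bs.isEval_one hΛ
    rw [one_eq, h4] at h6
    have hne : (L.c k : ℂ) ≠ 0 := by exact_mod_cast (L.c_pos k).ne'
    rw [div_self hne, one_mul] at h6
    exact h6
  refine ⟨k, fun b C hb h0 => ?_⟩
  rw [h4, h5, mul_one]

end LData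

end Pool.Agent.Helper34.Cq
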