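import Pool.Agent.Helper34.Cq.FMod

set_option autoImplicit false
set_option linter.unusedVariables false

namespace Pool.Agent.Helper34.Cq

open MvPolynomial Topology Filter

universe u v

/-- The intrinsic condition implies property (CP). -/
theorem hasCP_of_inv {d' : ℕ} {Ω' : Set (Fin d' → ℂ)} {Y : Type v} [NormedAddCommGroup Y]
    [NormedSpace ℂ Y] [CompleteSpace Y] (T : BSAF d' Ω' Y) (hI : ModCond.{u} T) : HasCP.{u} T := by
  intro d Ω X _ _ _ S φ ψ A hψ hA f hf
  let K : Submodule ℂ X := LinearMap.ker A.toLinearMap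
  have hK : IsClosed (K : Set X) := A.isClosed_ker
  let j : (X ⧸ K) →L[ℂ] Y := K.liftQL A le_rfl
  have hj : ∀ x : X, j (Submodule.Quotient.mk x) = A x := fun x => rfl
  have hjinj : Function.Injective j := by
    rw [injective_iff_map_eq_zero]
    intro y hy
    obtain ⟨x, rfl⟩ := Submodule.Quotient.mk_surjective K y
    rw [hj] at hy
    exact (Submodule.Quotient.mk_eq_zero K).mpr hy
  let m : FMod T d (X ⧸ K) :=
    { j := j
      inj := hjinj
      h := fun w => (φ w : Fin d → ℂ)
      mul := by
        intro i y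
        obtain ⟨x, rfl⟩ := Submodule.Quotient.mk_surjective K y
        refine ⟨Submodule.Quotient.mk (S.mul (MvPolynomial.X i) x), fun w => ?_⟩
        rw [hj, hj, hA, hA, S.isEval_mul (S.ev_spec _), eval_X]
        ring }
  have hop : ∀ (P : MvPolynomial (Fin d) ℂ) (x : X),
      m.op P (Submodule.Quotient.mk x) = Submodule.Quotient.mk (S.mul P x) := by
    intro P x
    apply m.ext_ev
    intro w
    rw [m.ev_op]
    change eval (φ w : Fin d → ℂ) P * T.ev w (A x) = T.ev w (A (S.mul P x))
    rw [hA, hA, S.isEval_mul (S.ev_spec _)]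
    ring
  have hcyc : ∀ x : X, S.ShiftCyclic x → m.Cyc (Submodule.Quotient.mk x) := by
    intro x hx
    rw [m.cyc_iff]
    have h1 : Dense (S.orbit x) := dense_iff_closure_eq.mpr hx
    have h2 := (Submodule.Quotient.mk_surjective K).denseRange.dense_image
      (K.isQuotientMap_mkQ).continuous h1
    refine h2.mono ?_
    rintro _ ⟨y, hy, rfl⟩
    obtain ⟨P, rfl⟩ := (S.mem_orbit_iff _ _).mp hy
    exact ⟨P, hop P x⟩
  have hone : A S.one = ψ := by
    apply T.inj
    funext w
    rw [← T.ev_of_mem, ← T.ev_of_mem, hA, S.isEval_one (S.ev_spec _), mul_one]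
  have h3 := hI d (X ⧸ K) m (Submodule.Quotient.mk S.one) (Submodule.Quotient.mk f)
    (hcyc _ S.cyclic_one) (hcyc _ hf)
  change T.ShiftCyclic (A S.one) → T.ShiftCyclic (A f) at h3
  rw [hone] at h3
  exact h3 hψ

end Pool.Agent.Helper34.Cq
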