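import Mathlib

set_option autoImplicit false
set_option linter.unusedVariables false

namespace Pool.Agent.Helper34.Cq

open Topology Filter

/-- Cauchy estimate for the derivative in several variables. -/
theorem fderiv_bound {m : ℕ} {g : (Fin m → ℂ) → ℂ} (hg : Differentiable ℂ g) {x0 : Fin m → ℂ}
    {r ε : ℝ} (hr : 0 < r) (hε : 0 ≤ ε) (hb : ∀ y ∈ Metric.ball x0 (2 * r), ‖g y‖ ≤ ε)
    {x : Fin m → ℂ} (hx : x ∈ Metric.ball x0 r) : ‖fderiv ℂ g x‖ ≤ 2 * ε / r := by
  apply ContinuousLinearMap.opNorm_le_bound _ (by positivity)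
  intro h
  by_cases h0 : h = 0
  · simp [h0]
  have hn : 0 < ‖h‖ := norm_pos_iff.mpr h0
  set φ : ℂ → ℂ := fun ζ => g (x + ζ • h) with hφ
  have h1 : HasDerivAt (fun ζ : ℂ => x + ζ • h) h 0 := by
    simpa using ((hasDerivAt_id (0 : ℂ)).smul_const h).const_add x
  have h2 : HasFDerivAt g (fderiv ℂ g x) (x + (0 : ℂ) • h) := by
    have : x + (0 : ℂ) • h = x := by simp
    rw [this]
    exact (hg x).hasFDerivAt
  have h3 : HasDerivAt φ (fderiv ℂ g x h) 0 := h2.comp_hasDerivAt 0 h1
  have h4 : Differentiable ℂ φ := by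
    apply hg.comp
    exact (differentiable_id.smul_const h).const_add x
  have h5 := Complex.norm_deriv_le_of_forall_mem_sphere_norm_le (c := (0 : ℂ))
    (R := r / (2 * ‖h‖)) (C := ε) (f := φ) (by positivity) h4.diffContOnCl (by
      intro z hz
      rw [mem_sphere_zero_iff_norm] at hz
      apply hb
      rw [Metric.mem_ball, dist_eq_norm] at hx ⊢
      have e1 : x + z • h - x0 = (x - x0) + z • h := by abel
      rw [e1]
      calc ‖(x - x0) + z • h‖ ≤ ‖x - x0‖ + ‖z • h‖ := norm_add_le _ _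
        _ = ‖x - x0‖ + r / 2 := by
            rw [norm_smul, hz]
            congr 1
            field_simp
        _ < 2 * r := by linarith)
  rw [h3.deriv] at h5
  refine h5.trans (le_of_eq ?_)
  field_simp

/-- Uniform limits of entire functions of several variables are differentiable. -/
theorem diff_of_unif {m : ℕ} {U : Set (Fin m → ℂ)} (hU : IsOpen U) (F : ℕ → (Fin m → ℂ) → ℂ)
    (f : (Fin m → ℂ) → ℂ) (hF : ∀ k, Differentiable ℂ (F k))
    (hl : ∀ ε : ℝ, 0 < ε → ∃ N, ∀ k ≥ N, ∀ x ∈ U, ‖F k x - f x‖ ≤ ε) :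
    DifferentiableOn ℂ f U := by
  intro x0 hx0
  obtain ⟨s, hs, hsU⟩ := Metric.isOpen_iff.mp hU x0 hx0
  set r := s / 2 with hr
  have hrpos : 0 < r := by positivity
  have hsr : 2 * r = s := by rw [hr]; ring
  have hcau : ∀ ε : ℝ, 0 < ε → ∃ N, ∀ k ≥ N, ∀ l ≥ N, ∀ x ∈ Metric.ball x0 r,
      ‖fderiv ℂ (F k) x - fderiv ℂ (F l) x‖ ≤ ε := by
    intro ε hε
    obtain ⟨N, hN⟩ := hl (ε * r / 4) (by positivity)
    refine ⟨N, fun k hk l hl' x hx => ?_⟩
    have h1 : fderiv ℂ (F k) x - fderiv ℂ (F l) x = fderiv ℂ (fun y => F k y - F l y) x := by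
      rw [fderiv_fun_sub (hF k x) (hF l x)]
    rw [h1]
    refine (fderiv_bound (x0 := x0) (r := r) (ε := ε * r / 2) ((hF k).sub (hF l)) hrpos
      (by positivity) ?_ hx).trans (le_of_eq (by field_simp))
    intro y hy
    rw [hsr] at hy
    have h2 := hN k hk y (hsU hy)
    have h3 := hN l hl' y (hsU hy)
    have h4 : F k y - F l y = (F k y - f y) - (F l y - f y) := by ring
    change ‖F k y - F l y‖ ≤ ε * r / 2
    rw [h4]
    calc _ ≤ _ := norm_sub_le _ _
      _ ≤ _ := by linarith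
  have hlim : ∀ x, ∃ L : (Fin m → ℂ) →L[ℂ] ℂ, x ∈ Metric.ball x0 r →
      Tendsto (fun k => fderiv ℂ (F k) x) atTop (𝓝 L) := by
    intro x
    by_cases hx : x ∈ Metric.ball x0 r
    · have : CauchySeq (fun k => fderiv ℂ (F k) x) := by
        rw [Metric.cauchySeq_iff]
        intro ε hε
        obtain ⟨N, hN⟩ := hcau (ε / 2) (by positivity)
        refine ⟨N, fun k hk l hl' => ?_⟩
        rw [dist_eq_norm]
        exact lt_of_le_of_lt (hN k hk l hl' x hx) (half_lt_self hε)
      obtain ⟨L, hL⟩ := cauchySeq_tendsto_of_complete this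
      exact ⟨L, fun _ => hL⟩
    · exact ⟨0, fun h => absurd h hx⟩
  choose g' hg' using hlim
  have hunif : TendstoUniformlyOn (fun k => fderiv ℂ (F k)) g' atTop (Metric.ball x0 r) := by
    rw [Metric.tendstoUniformlyOn_iff]
    intro ε hε
    obtain ⟨N, hN⟩ := hcau (ε / 2) (by positivity)
    filter_upwards [eventually_ge_atTop N] with k hk x hx
    refine lt_of_le_of_lt ?_ (half_lt_self hε)
    rw [dist_eq_norm]
    refine le_of_tendsto (((hg' x hx).sub_const (fderiv ℂ (F k) x)).norm) ?_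
    filter_upwards [eventually_ge_atTop N] with l hl'
    exact hN l hl' k hk x hx
  have h := hasFDerivAt_of_tendstoUniformlyOn (𝕜 := ℂ) (f := F) (g := f)
    Metric.isOpen_ball hunif (fun k x _ => (hF k x).hasFDerivAt) (fun x hx => by
      rw [Metric.tendsto_atTop]
      intro ε hε
      obtain ⟨N, hN⟩ := hl (ε / 2) (by positivity)
      refine ⟨N, fun k hk => ?_⟩
      rw [dist_eq_norm]
      refine lt_of_le_of_lt (hN k hk x (hsU ?_)) (half_lt_self hε)
      exact Metric.ball_subset_ball (by rw [hr]; linarith) hx) (Metric.mem_ball_self hrpos)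
  exact h.differentiableAt.differentiableWithinAt

end Pool.Agent.Helper34.Cq
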