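import Pool.Agent.Helper34.Cq.FMod
import Pool.Agent.Helper34.Cq.Unif
import Pool.Agent.Helper34.Cq.Conc

set_option autoImplicit false
set_option linter.unusedVariables false

namespace Pool.Agent.Helper34.Cq

open MvPolynomial Topology Filter BoundedContinuousFunction

universe u v

/-- restriction of a polynomial in `(t, u)` to `t = 0` -/
noncomputable def z0 (n : ℕ) : MvPolynomial (Fin (n + 1)) ℂ →ₐ[ℂ] MvPolynomial (Fin n) ℂ :=
  aeval (Fin.cons (0 : MvPolynomial (Fin n) ℂ) (fun i => X i) : Fin (n + 1) → MvPolynomial (Fin n) ℂ)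

theorem eval_z0 {n : ℕ} (P : MvPolynomial (Fin (n + 1)) ℂ) (u : Fin n → ℂ) :
    eval u (z0 n P) = eval (Fin.cons (0 : ℂ) u : Fin (n + 1) → ℂ) P := by
  induction P using MvPolynomial.induction_on with
  | C a => simp [z0]
  | add p q hp hq => simp only [map_add, hp, hq]
  | mul_X p i hp =>
    rw [map_mul, map_mul, map_mul, hp, eval_X]
    congr 1
    rw [z0, aeval_X]
    refine Fin.cases ?_ (fun i => ?_) i
    · simp
    · simp

/-- Data for the realisation of the module. -/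
structure RD {d' : ℕ} {Ω' : Set (Fin d' → ℂ)} {Y : Type v} [NormedAddCommGroup Y]
    [NormedSpace ℂ Y] [CompleteSpace Y] {T : BSAF d' Ω' Y} {n : ℕ} {M : Type u}
    [NormedAddCommGroup M] [NormedSpace ℂ M] [CompleteSpace M] (m : FMod T n M) where
  ψ : M
  cyc : m.Cyc ψ
  ne : ∀ w, T.ev w (m.j ψ) ≠ 0
  W : ℕ → T.maxDomain
  det : ∀ x : M, (∀ i, T.ev (W i) (m.j x) = 0) → x = 0
  v : ℕ → ℝ
  v_pos : ∀ i, 0 < v i
  v_le : ∀ i, v i ≤ 1
  ρ : ℕ → ℝ
  ρ_pos : ∀ j, 0 < ρ j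
  ρ_le : ∀ j, ρ j ≤ mu j / 2

/-- the index of the point used on the `j`-th level -/
def sc (j : ℕ) : ℕ := (Nat.unpair j).1

namespace RD

variable {d' : ℕ} {Ω' : Set (Fin d' → ℂ)} {Y : Type v} [NormedAddCommGroup Y]
  [NormedSpace ℂ Y] [CompleteSpace Y] {T : BSAF d' Ω' Y} {n : ℕ} {M : Type u}
  [NormedAddCommGroup M] [NormedSpace ℂ M] [CompleteSpace M] {m : FMod T n M} (D : RD m)

/-- the centre of the `j`-th polydisc -/
noncomputable def a (j : ℕ) : Fin (n + 1) → ℂ := Fin.cons (mu j : ℂ) (m.h (D.W (sc j)))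

/-- the `j`-th polydisc -/
def B (j : ℕ) : Set (Fin (n + 1) → ℂ) := Metric.ball (D.a j) (D.ρ j)

/-- the union of the polydiscs -/
def Om : Set (Fin (n + 1) → ℂ) := {w | ∃ j, w ∈ D.B j}

theorem mem_V {w : Fin (n + 1) → ℂ} {j : ℕ} (h : w ∈ D.B j) : w 0 ∈ V j := by
  rw [B, Metric.mem_ball] at h
  rw [V, Metric.mem_ball]
  have h1 := dist_le_pi_dist w (D.a j) 0
  have h2 : D.a j 0 = (mu j : ℂ) := rfl
  rw [h2] at h1
  linarith [D.ρ_le j]

theorem B_disj {j k : ℕ} {w : Fin (n + 1) → ℂ} (h1 : w ∈ D.B j) (h2 : w ∈ D.B k) : j = k :=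
  V_disj j k (w 0) (D.mem_V h1) (D.mem_V h2)

open Classical in
/-- the level of a point -/
noncomputable def idx (w : Fin (n + 1) → ℂ) : ℕ := if h : ∃ j, w ∈ D.B j then Nat.find h else 0

theorem idx_eq {w : Fin (n + 1) → ℂ} {k : ℕ} (h : w ∈ D.B k) : D.idx w = k := by
  classical
  have hex : ∃ k, w ∈ D.B k := ⟨k, h⟩
  have h1 : D.idx w = Nat.find hex := by
    rw [idx, dif_pos hex]
  rw [h1]
  exact D.B_disj (Nat.find_spec hex) h

theorem mem_idx {w : Fin (n + 1) → ℂ} (h : w ∈ D.Om) : w ∈ D.B (D.idx w) := by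
  obtain ⟨k, hk⟩ := h
  rw [D.idx_eq hk]
  exact hk

theorem isOpen_Om : IsOpen D.Om := by
  have : D.Om = ⋃ k, D.B k := by
    ext w
    simp [Om]
  rw [this]
  exact isOpen_iUnion fun k => Metric.isOpen_ball

theorem idx_eventually {w : Fin (n + 1) → ℂ} (h : w ∈ D.Om) : ∀ᶠ u in 𝓝 w, D.idx u = D.idx w := by
  have h1 : D.B (D.idx w) ∈ 𝓝 w := Metric.isOpen_ball.mem_nhds (D.mem_idx h)
  filter_upwards [h1] with u hu
  exact D.idx_eq hu

theorem cont_idx {α : Type*} [TopologicalSpace α] (b : ℕ → α) :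
    ContinuousOn (fun w => b (D.idx w)) D.Om := by
  intro w hw
  apply ContinuousAt.continuousWithinAt
  have : (fun u => b (D.idx u)) =ᶠ[𝓝 w] fun _ => b (D.idx w) := by
    filter_upwards [D.idx_eventually hw] with u hu
    rw [hu]
  exact this.continuousAt

/-- the weight -/
noncomputable def wt (w : Fin (n + 1) → ℂ) : ℝ := D.v (sc (D.idx w))

theorem wt_pos (w : Fin (n + 1) → ℂ) : 0 < D.wt w := D.v_pos _

theorem wt_le (w : Fin (n + 1) → ℂ) : D.wt w ≤ 1 := D.v_le _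

theorem wt_ne (w : Fin (n + 1) → ℂ) : (D.wt w : ℂ) ≠ 0 := by
  exact_mod_cast (D.wt_pos w).ne'

include D in
theorem h_bd : ∃ R : ℝ, 0 ≤ R ∧ ∀ w, ‖m.h w‖ ≤ R := by
  refine ⟨∑ i : Fin n, ‖m.op (X i)‖, Finset.sum_nonneg fun i _ => norm_nonneg _, fun w => ?_⟩
  rw [pi_norm_le_iff_of_nonneg (Finset.sum_nonneg fun i _ => norm_nonneg _)]
  intro i
  have h1 := m.h_bdd w (D.ne w) (X i)
  rw [eval_X] at h1
  refine h1.trans ?_
  exact Finset.single_le_sum (f := fun i : Fin n => ‖m.op (X i)‖) (fun i _ => norm_nonneg _)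
    (Finset.mem_univ i)

theorem Om_bd : ∃ R : ℝ, 0 ≤ R ∧ ∀ w ∈ D.Om, ‖w‖ ≤ R := by
  obtain ⟨R, hR, hh⟩ := D.h_bd
  refine ⟨R + 2, by positivity, ?_⟩
  rintro w ⟨j, hj⟩
  rw [B, Metric.mem_ball, dist_eq_norm] at hj
  have h1 : ‖D.a j‖ ≤ R + 1 := by
    rw [pi_norm_le_iff_of_nonneg (by positivity)]
    intro i
    refine Fin.cases ?_ (fun i => ?_) i
    · change ‖(mu j : ℂ)‖ ≤ _
      rw [Complex.norm_real, Real.norm_eq_abs, abs_of_pos (mu_pos j)]
      have := mu_le j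
      linarith
    · change ‖m.h (D.W (sc j)) i‖ ≤ _
      have := norm_le_pi_norm (m.h (D.W (sc j))) i
      have := hh (D.W (sc j))
      linarith
  have h2 := D.ρ_le j
  have h3 := mu_le j
  have h4 : w = (w - D.a j) + D.a j := by abel
  rw [h4]
  calc _ ≤ _ := norm_add_le _ _
    _ ≤ _ := by linarith

theorem poly_bdd (P : MvPolynomial (Fin (n + 1)) ℂ) :
    ∃ C : ℝ, 0 ≤ C ∧ ∀ w ∈ D.Om, ‖eval w P‖ ≤ C := by
  obtain ⟨R, hR, hR'⟩ := D.Om_bd
  have hc : IsCompact (Metric.closedBall (0 : Fin (n + 1) → ℂ) R) := isCompact_closedBall _ _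
  obtain ⟨C, hC⟩ := hc.exists_bound_of_continuousOn (f := fun w : Fin (n + 1) → ℂ => eval w P)
    (MvPolynomial.continuous_eval P).continuousOn
  refine ⟨max C 0, le_max_right _ _, fun w hw => ?_⟩
  refine (hC w ?_).trans (le_max_left _ _)
  rw [mem_closedBall_zero_iff]
  exact hR' w hw

theorem cont_wt : Continuous fun w : D.Om => D.wt w :=
  continuousOn_iff_continuous_domRestrict.mp (D.cont_idx fun j => D.v (sc j))

/-- The weighted function attached to a polynomial. -/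
noncomputable def pf (P : MvPolynomial (Fin (n + 1)) ℂ) : D.Om →ᵇ ℂ :=
  BoundedContinuousFunction.ofNormedAddCommGroup
    (fun w : D.Om => (D.wt w : ℂ) * eval (w : Fin (n + 1) → ℂ) P)
    ((Complex.continuous_ofReal.comp D.cont_wt).mul
      ((MvPolynomial.continuous_eval P).comp continuous_subtype_val))
    (Classical.choose (D.poly_bdd P)) (by
      intro w
      have h := Classical.choose_spec (D.poly_bdd P)
      rw [norm_mul, Complex.norm_real, Real.norm_eq_abs, abs_of_pos (D.wt_pos w)]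
      calc D.wt w * ‖eval (w : Fin (n + 1) → ℂ) P‖ ≤ 1 * Classical.choose (D.poly_bdd P) := by
            gcongr
            · exact D.wt_le w
            · exact h.2 w w.2
        _ = _ := one_mul _)

theorem pf_apply (P : MvPolynomial (Fin (n + 1)) ℂ) (w : D.Om) :
    D.pf P w = (D.wt w : ℂ) * eval (w : Fin (n + 1) → ℂ) P := rfl

/-- The linear map `P ↦ (P(0, h) ψ, wt * P)`. -/
noncomputable def E : MvPolynomial (Fin (n + 1)) ℂ →ₗ[ℂ] (M × (D.Om →ᵇ ℂ)) where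
  toFun P := (m.op (z0 n P) D.ψ, D.pf P)
  map_add' P Q := by
    apply Prod.ext
    · change m.op (z0 n (P + Q)) D.ψ = m.op (z0 n P) D.ψ + m.op (z0 n Q) D.ψ
      rw [map_add, m.op_add]
    · ext w
      change D.pf (P + Q) w = D.pf P w + D.pf Q w
      simp only [pf_apply, map_add]
      ring
  map_smul' c P := by
    apply Prod.ext
    · change m.op (z0 n (c • P)) D.ψ = c • m.op (z0 n P) D.ψ
      rw [map_smul, m.op_smul]
    · ext w
      change D.pf (c • P) w = c • D.pf P w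
      simp only [pf_apply, smul_eval, smul_eq_mul]
      ring

/-- The realisation space: the closure of the polynomials. -/
noncomputable def Sp : Submodule ℂ (M × (D.Om →ᵇ ℂ)) := (LinearMap.range D.E).topologicalClosure

noncomputable instance : CompleteSpace D.Sp :=
  (Submodule.isClosed_topologicalClosure _).completeSpace_coe

theorem mem_Sp_iff (G : M × (D.Om →ᵇ ℂ)) :
    G ∈ D.Sp ↔ ∀ ε : ℝ, 0 < ε → ∃ P : MvPolynomial (Fin (n + 1)) ℂ,
      ‖m.op (z0 n P) D.ψ - G.1‖ ≤ ε ∧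
      ∀ w : D.Om, ‖G.2 w - (D.wt w : ℂ) * eval (w : Fin (n + 1) → ℂ) P‖ ≤ ε := by
  rw [Sp, ← SetLike.mem_coe, Submodule.topologicalClosure_coe, Metric.mem_closure_iff]
  constructor
  · intro h ε hε
    obtain ⟨b, ⟨P, rfl⟩, hb⟩ := h ε hε
    rw [dist_eq_norm] at hb
    refine ⟨P, ?_, fun w => ?_⟩
    · rw [norm_sub_rev]
      exact (norm_fst_le (G - D.E P)).trans hb.le
    · exact (((G - D.E P).2).norm_coe_le_norm w).trans ((norm_snd_le (G - D.E P)).trans hb.le)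
  · intro h ε hε
    obtain ⟨P, hP1, hP2⟩ := h (ε / 2) (by positivity)
    refine ⟨D.E P, ⟨P, rfl⟩, ?_⟩
    rw [dist_eq_norm]
    refine lt_of_le_of_lt ?_ (half_lt_self hε)
    rw [Prod.norm_def]
    apply max_le
    · rw [norm_sub_rev] at hP1
      exact hP1
    · exact (BoundedContinuousFunction.norm_le (by positivity)).mpr hP2

theorem pf_mem (P : MvPolynomial (Fin (n + 1)) ℂ) : D.E P ∈ D.Sp :=
  subset_closure ⟨P, rfl⟩

/-- the coordinate function -/
noncomputable def zf (i : Fin (n + 1)) : D.Om →ᵇ ℂ :=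
  BoundedContinuousFunction.ofNormedAddCommGroup (fun w : D.Om => (w : Fin (n + 1) → ℂ) i)
    ((continuous_apply i).comp continuous_subtype_val) (Classical.choose D.Om_bd)
    (fun w => (norm_le_pi_norm _ i).trans ((Classical.choose_spec D.Om_bd).2 w w.2))

theorem zf_apply (i : Fin (n + 1)) (w : D.Om) : D.zf i w = (w : Fin (n + 1) → ℂ) i := rfl

/-- the shift on the product -/
noncomputable def sh (i : Fin (n + 1)) : (M × (D.Om →ᵇ ℂ)) →L[ℂ] (M × (D.Om →ᵇ ℂ)) :=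
  (m.op (z0 n (X i))).prodMap (ContinuousLinearMap.mul ℂ (D.Om →ᵇ ℂ) (D.zf i))

theorem sh_fst (i : Fin (n + 1)) (G : M × (D.Om →ᵇ ℂ)) :
    (D.sh i G).1 = m.op (z0 n (X i)) G.1 := rfl

theorem sh_snd (i : Fin (n + 1)) (G : M × (D.Om →ᵇ ℂ)) (w : D.Om) :
    (D.sh i G).2 w = (w : Fin (n + 1) → ℂ) i * G.2 w := rfl

theorem sh_E (i : Fin (n + 1)) (P : MvPolynomial (Fin (n + 1)) ℂ) :
    D.sh i (D.E P) = D.E (X i * P) := by
  apply Prod.ext
  · change m.op (z0 n (X i)) (m.op (z0 n P) D.ψ) = m.op (z0 n (X i * P)) D.ψ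
    rw [m.op_op, map_mul]
  · ext w
    rw [sh_snd]
    change (w : Fin (n + 1) → ℂ) i * D.pf P w = D.pf (X i * P) w
    rw [pf_apply, pf_apply, map_mul, eval_X]
    ring

theorem sh_mem (i : Fin (n + 1)) (G : M × (D.Om →ᵇ ℂ)) (hG : G ∈ D.Sp) : D.sh i G ∈ D.Sp := by
  have h1 : Set.MapsTo (D.sh i) (LinearMap.range D.E : Set (M × (D.Om →ᵇ ℂ)))
      (LinearMap.range D.E : Set (M × (D.Om →ᵇ ℂ))) := by
    rintro _ ⟨P, rfl⟩
    exact ⟨X i * P, (D.sh_E i P).symm⟩
  exact h1.closure (D.sh i).continuous hG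

/-- the shift on the space -/
noncomputable def shiftOp (i : Fin (n + 1)) : D.Sp →L[ℂ] D.Sp :=
  ((D.sh i).comp D.Sp.subtypeL).codRestrict D.Sp (fun G => D.sh_mem i _ G.2)

theorem shiftOp_apply (i : Fin (n + 1)) (G : D.Sp) (w : D.Om) :
    (D.shiftOp i G : M × (D.Om →ᵇ ℂ)).2 w =
      (w : Fin (n + 1) → ℂ) i * (G : M × (D.Om →ᵇ ℂ)).2 w := rfl

/-- the value map -/
noncomputable def valMap : D.Sp →ₗ[ℂ] (D.Om → ℂ) where
  toFun G := fun w => (G : M × (D.Om →ᵇ ℂ)).2 w / (D.wt w : ℂ)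
  map_add' G H := by
    funext w
    simp [add_div]
  map_smul' c G := by
    funext w
    simp [mul_div_assoc]

theorem valMap_apply (G : D.Sp) (w : D.Om) :
    D.valMap G w = (G : M × (D.Om →ᵇ ℂ)).2 w / (D.wt w : ℂ) := rfl

end RD

end Pool.Agent.Helper34.Cq
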