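import Pool.Agent.Helper34.Cq.RealA

set_option autoImplicit false
set_option linter.unusedVariables false

namespace Pool.Agent.Helper34.Cq

open MvPolynomial Topology Filter BoundedContinuousFunction

universe u v

theorem evalDiffN {n : ℕ} (P : MvPolynomial (Fin n) ℂ) :
    Differentiable ℂ fun w : Fin n → ℂ => eval w P := by
  intro w
  exact ((BSAF.analytic_eval P Set.univ) w (Set.mem_univ _)).differentiableAt univ_mem

namespace RD

variable {d' : ℕ} {Ω' : Set (Fin d' → ℂ)} {Y : Type v} [NormedAddCommGroup Y]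
  [NormedSpace ℂ Y] [CompleteSpace Y] {T : BSAF d' Ω' Y} {n : ℕ} {M : Type u}
  [NormedAddCommGroup M] [NormedSpace ℂ M] [CompleteSpace M] {m : FMod T n M} (D : RD m)

theorem exists_analytic (G : D.Sp) : ∃ g : (Fin (n + 1) → ℂ) → ℂ, DifferentiableOn ℂ g D.Om ∧
    ∀ w : D.Om, D.valMap G w = g w := by
  classical
  set f : (Fin (n + 1) → ℂ) → ℂ := fun w => if h : w ∈ D.Om then D.valMap G ⟨w, h⟩ else 0 with hf
  have hmem := (D.mem_Sp_iff (G : M × (D.Om →ᵇ ℂ))).mp G.2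
  choose! Q hQ1 hQ using fun k : ℕ => hmem (1 / ((k : ℝ) + 1)) (by positivity)
  refine ⟨f, ?_, ?_⟩
  · rintro w ⟨j, hj⟩
    have hd : DifferentiableOn ℂ f (D.B j) := by
      refine diff_of_unif Metric.isOpen_ball (fun k w => eval w (Q k)) f
        (fun k => evalDiffN (Q k)) ?_
      intro ε hε
      have hv := D.v_pos (sc j)
      obtain ⟨N, hN⟩ := exists_nat_one_div_lt (show 0 < ε * D.v (sc j) by positivity)
      refine ⟨N, fun k hk x hx => ?_⟩
      have hxO : x ∈ D.Om := ⟨j, hx⟩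
      have h1 := hQ k ⟨x, hxO⟩
      have hfx : f x = D.valMap G ⟨x, hxO⟩ := by
        rw [hf]; simp only [hxO, dif_pos]
      have hwt : D.wt x = D.v (sc j) := by
        rw [wt, D.idx_eq hx]
      have hne : (D.v (sc j) : ℂ) ≠ 0 := by exact_mod_cast hv.ne'
      have h2 : eval x (Q k) - f x = -(((G : M × (D.Om →ᵇ ℂ)).2 ⟨x, hxO⟩ -
          (D.wt x : ℂ) * eval x (Q k)) / (D.v (sc j) : ℂ)) := by
        rw [hfx, valMap_apply]
        change eval x (Q k) - (G : M × (D.Om →ᵇ ℂ)).2 ⟨x, hxO⟩ / (D.wt x : ℂ) = _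
        rw [hwt]
        field_simp
        ring
      change ‖eval x (Q k) - f x‖ ≤ ε
      rw [h2, norm_neg, norm_div, Complex.norm_real, Real.norm_eq_abs, abs_of_pos hv,
        div_le_iff₀ hv]
      have h3 : 1 / ((k : ℝ) + 1) ≤ 1 / ((N : ℝ) + 1) := by
        apply one_div_le_one_div_of_le (by positivity)
        have : (N : ℝ) ≤ k := by exact_mod_cast hk
        linarith
      exact h1.trans (h3.trans hN.le)
    exact ((hd w hj).differentiableAt (Metric.isOpen_ball.mem_nhds hj)).differentiableWithinAt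
  · intro w
    rw [hf]
    simp only [w.2, dif_pos]

/-- a point of the `j`-th level -/
noncomputable def pt (j : ℕ) : D.Om := ⟨D.a j, ⟨j, Metric.mem_ball_self (D.ρ_pos j)⟩⟩

theorem idx_pt (j : ℕ) : D.idx (D.pt j) = j := D.idx_eq (Metric.mem_ball_self (D.ρ_pos j))

theorem a_tendsto (i : ℕ) : Tendsto (fun k => D.a (Nat.pair i k)) atTop
    (𝓝 (Fin.cons (0 : ℂ) (m.h (D.W i)) : Fin (n + 1) → ℂ)) := by
  rw [tendsto_pi_nhds]
  intro l
  refine Fin.cases ?_ (fun l => ?_) l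
  · change Tendsto (fun k => ((mu (Nat.pair i k) : ℝ) : ℂ)) atTop (𝓝 0)
    have h1 : Tendsto (fun k : ℕ => mu k) atTop (𝓝 0) := by
      unfold mu
      exact (tendsto_pow_atTop_nhds_zero_of_lt_one (by norm_num) (by norm_num)).comp
        (tendsto_add_atTop_nat 1)
    have h2 : Tendsto (fun k : ℕ => Nat.pair i k) atTop atTop := by
      apply tendsto_atTop_mono (fun k => Nat.right_le_pair i k) tendsto_id
    have h3 := (Complex.continuous_ofReal.tendsto 0).comp (h1.comp h2)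
    simpa [Function.comp_def] using h3
  · have : ∀ k, D.a (Nat.pair i k) l.succ = m.h (D.W i) l := by
      intro k
      change m.h (D.W (sc (Nat.pair i k))) l = _
      rw [sc, Nat.unpair_pair]
    simp only [this, Fin.cons_succ]
    exact tendsto_const_nhds

theorem val_inj : Function.Injective D.valMap := by
  rw [injective_iff_map_eq_zero]
  intro G hG
  have h2 : (G : M × (D.Om →ᵇ ℂ)).2 = 0 := by
    ext w
    have h := congrFun hG w
    rw [valMap_apply] at h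
    simpa [D.wt_ne w] using h
  have h1 : (G : M × (D.Om →ᵇ ℂ)).1 = 0 := by
    apply D.det
    intro i
    by_contra hne
    set c := T.ev (D.W i) (m.j (G : M × (D.Om →ᵇ ℂ)).1) with hc
    set Λ : M →L[ℂ] ℂ := (T.ev (D.W i)).comp m.j with hΛ
    set s := T.ev (D.W i) (m.j D.ψ) with hs
    have hcpos : 0 < ‖c‖ := norm_pos_iff.mpr hne
    have hv := D.v_pos i
    set K : ℝ := ‖Λ‖ + ‖s‖ / D.v i + 1 with hK
    have hKpos : 0 < K := by positivity
    obtain ⟨P, hP1, hP2⟩ := (D.mem_Sp_iff (G : M × (D.Om →ᵇ ℂ))).mp G.2 (‖c‖ / (2 * K))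
      (by positivity)
    have h3 : ∀ k, ‖eval (D.a (Nat.pair i k)) P‖ ≤ ‖c‖ / (2 * K) / D.v i := by
      intro k
      have h4 := hP2 (D.pt (Nat.pair i k))
      rw [h2] at h4
      have h5 : D.wt (D.pt (Nat.pair i k)) = D.v i := by
        rw [wt, idx_pt, sc, Nat.unpair_pair]
      rw [h5] at h4
      change ‖0 - (D.v i : ℂ) * eval (D.a (Nat.pair i k)) P‖ ≤ _ at h4
      rw [zero_sub, norm_neg, norm_mul, Complex.norm_real, Real.norm_eq_abs, abs_of_pos hv] at h4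
      rw [le_div_iff₀ hv]
      linarith
    have h4 : ‖eval (Fin.cons (0 : ℂ) (m.h (D.W i)) : Fin (n + 1) → ℂ) P‖ ≤
        ‖c‖ / (2 * K) / D.v i := by
      have h5 := ((MvPolynomial.continuous_eval P).tendsto _).comp (D.a_tendsto i)
      exact le_of_tendsto h5.norm (Eventually.of_forall h3)
    have h5 : Λ (m.op (z0 n P) D.ψ) =
        eval (Fin.cons (0 : ℂ) (m.h (D.W i)) : Fin (n + 1) → ℂ) P * s := by
      change T.ev (D.W i) (m.j (m.op (z0 n P) D.ψ)) = _
      rw [m.ev_op, eval_z0]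
    have h6 : c = eval (Fin.cons (0 : ℂ) (m.h (D.W i)) : Fin (n + 1) → ℂ) P * s -
        Λ (m.op (z0 n P) D.ψ - (G : M × (D.Om →ᵇ ℂ)).1) := by
      rw [map_sub, h5]
      change c = _ - (_ - c)
      ring
    have h7 : ‖c‖ ≤ ‖c‖ / (2 * K) / D.v i * ‖s‖ + ‖Λ‖ * (‖c‖ / (2 * K)) := by
      calc ‖c‖ = ‖eval (Fin.cons (0 : ℂ) (m.h (D.W i)) : Fin (n + 1) → ℂ) P * s -
          Λ (m.op (z0 n P) D.ψ - (G : M × (D.Om →ᵇ ℂ)).1)‖ := by rw [← h6]
        _ ≤ ‖eval (Fin.cons (0 : ℂ) (m.h (D.W i)) : Fin (n + 1) → ℂ) P * s‖ +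
          ‖Λ (m.op (z0 n P) D.ψ - (G : M × (D.Om →ᵇ ℂ)).1)‖ := norm_sub_le _ _
        _ ≤ _ := by
            rw [norm_mul]
            gcongr
            exact (Λ.le_opNorm _).trans (by gcongr)
    have h8 : ‖c‖ / (2 * K) / D.v i * ‖s‖ + ‖Λ‖ * (‖c‖ / (2 * K)) ≤ ‖c‖ / 2 := by
      have e1 : ‖c‖ / (2 * K) / D.v i * ‖s‖ + ‖Λ‖ * (‖c‖ / (2 * K)) =
          (‖c‖ / (2 * K)) * (‖Λ‖ + ‖s‖ / D.v i) := by
        field_simp
        ring
      rw [e1]
      calc (‖c‖ / (2 * K)) * (‖Λ‖ + ‖s‖ / D.v i) ≤ (‖c‖ / (2 * K)) * K := by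
            gcongr
            rw [hK]
            linarith
        _ = ‖c‖ / 2 := by field_simp
    linarith
  apply Subtype.ext
  exact Prod.ext h1 h2

/-- The realisation space is a Banach space of analytic functions. -/
noncomputable def bs : BSAF (n + 1) D.Om D.Sp where
  val := D.valMap
  isOpen := D.isOpen_Om
  inj := D.val_inj
  analytic := D.exists_analytic
  poly P := ⟨⟨D.E P, D.pf_mem P⟩, fun w => by
    rw [valMap_apply]
    change D.pf P w / _ = _
    rw [pf_apply, mul_div_cancel_left₀ _ (D.wt_ne w)]⟩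
  dense := by
    rw [Metric.dense_iff]
    intro G r hr
    obtain ⟨P, hP1, hP2⟩ := (D.mem_Sp_iff G).mp G.2 (r / 2) (by positivity)
    refine ⟨⟨D.E P, D.pf_mem P⟩, ?_, ⟨P, fun w => ?_⟩⟩
    · rw [Metric.mem_ball, dist_comm, dist_eq_norm]
      refine lt_of_le_of_lt ?_ (half_lt_self hr)
      change ‖(G : M × (D.Om →ᵇ ℂ)) - D.E P‖ ≤ r / 2
      rw [Prod.norm_def]
      apply max_le
      · rw [norm_sub_rev] at hP1
        exact hP1
      · exact (BoundedContinuousFunction.norm_le (by positivity)).mpr hP2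
    · rw [valMap_apply]
      change D.pf P w / _ = _
      rw [pf_apply, mul_div_cancel_left₀ _ (D.wt_ne w)]
  eval_bdd w := ⟨1 / D.wt w, fun G => by
    rw [valMap_apply, norm_div, Complex.norm_real, Real.norm_eq_abs, abs_of_pos (D.wt_pos w),
      div_eq_mul_one_div, mul_comm]
    have h1 := (G : M × (D.Om →ᵇ ℂ)).2.norm_coe_le_norm w
    have h3 : ‖(G : M × (D.Om →ᵇ ℂ)).2‖ ≤ ‖G‖ := norm_snd_le (G : M × (D.Om →ᵇ ℂ))
    have h2 : 0 ≤ 1 / D.wt w := (one_div_pos.mpr (D.wt_pos w)).le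
    exact mul_le_mul_of_nonneg_left (h1.trans h3) h2⟩
  shift i := ⟨D.shiftOp i, fun G w => by
    rw [valMap_apply, valMap_apply, shiftOp_apply]
    ring⟩

theorem bs_val (G : D.Sp) (w : D.Om) :
    D.bs.val G w = (G : M × (D.Om →ᵇ ℂ)).2 w / (D.wt w : ℂ) := rfl

/-- the map into `Y` -/
noncomputable def A : D.Sp →L[ℂ] Y :=
  m.j.comp ((ContinuousLinearMap.fst ℂ M (D.Om →ᵇ ℂ)).comp D.Sp.subtypeL)

theorem A_apply (G : D.Sp) : D.A G = m.j (G : M × (D.Om →ᵇ ℂ)).1 := rfl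

/-- the evaluation functional at the limit point attached to `w` -/
noncomputable def Λ (w : T.maxDomain) : D.Sp →L[ℂ] ℂ :=
  (T.ev w (m.j D.ψ))⁻¹ • ((T.ev w).comp D.A)

theorem Λ_apply (w : T.maxDomain) (G : D.Sp) :
    D.Λ w G = (T.ev w (m.j D.ψ))⁻¹ * T.ev w (D.A G) := rfl

/-- the polynomial `P` as an element of the space -/
noncomputable def el (P : MvPolynomial (Fin (n + 1)) ℂ) : D.Sp := ⟨D.E P, D.pf_mem P⟩

theorem val_el (P : MvPolynomial (Fin (n + 1)) ℂ) (w : D.Om) :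
    D.bs.val (D.el P) w = eval (w : Fin (n + 1) → ℂ) P := by
  rw [bs_val]
  change D.pf P w / _ = _
  rw [pf_apply, mul_div_cancel_left₀ _ (D.wt_ne w)]

theorem isEval_Λ (w : T.maxDomain) :
    D.bs.IsEval (Fin.cons (0 : ℂ) (m.h w) : Fin (n + 1) → ℂ) (D.Λ w) := by
  intro f P hf
  have h1 : f = D.el P := by
    apply D.bs.inj
    funext u
    rw [hf, val_el]
  rw [h1, Λ_apply, A_apply]
  change (T.ev w (m.j D.ψ))⁻¹ * T.ev w (m.j (m.op (z0 n P) D.ψ)) = _
  rw [m.ev_op, eval_z0]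
  have := D.ne w
  field_simp

/-- the map of maximal domains -/
noncomputable def φ (w : T.maxDomain) : D.bs.maxDomain :=
  ⟨(Fin.cons (0 : ℂ) (m.h w) : Fin (n + 1) → ℂ), D.Λ w, D.isEval_Λ w⟩

theorem A_eq (G : D.Sp) (w : T.maxDomain) :
    T.ev w (D.A G) = T.ev w (m.j D.ψ) * D.bs.ev (D.φ w) G := by
  have h1 : D.bs.ev (D.φ w) = D.Λ w := D.bs.isEval_unique (D.bs.ev_spec (D.φ w)) (D.isEval_Λ w)
  rw [h1, Λ_apply]
  have := D.ne w
  field_simp

end RD

end Pool.Agent.Helper34.Cq
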