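import Pool.Agent.Helper34.Cq.RealB

set_option autoImplicit false
set_option linter.unusedVariables false

namespace Pool.Agent.Helper34.Cq

open Topology Filter

universe u v

theorem evalN {n : ℕ} (P : Polynomial ℂ) (w : Fin (n + 1) → ℂ) :
    MvPolynomial.eval w (Polynomial.aeval (MvPolynomial.X 0 : MvPolynomial (Fin (n + 1)) ℂ) P) =
      P.eval (w 0) := by
  induction P using Polynomial.induction_on' with
  | add p q hp hq => simp [hp, hq]
  | monomial n a => simp

/-- a polynomial in one variable, small on the first discs and close to one on the others -/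
theorem Vstep (J : ℕ) {ε : ℝ} (hε : 0 < ε) : ∃ s : Polynomial ℂ, s.eval 0 = 1 ∧
    (∀ j < J, ∀ z ∈ V j, ‖s.eval z‖ ≤ ε) ∧ (∀ j, J ≤ j → ∀ z ∈ V j, ‖s.eval z - 1‖ ≤ ε) := by
  rcases J with _ | k
  · refine ⟨1, by simp, fun j hj => absurd hj (by omega), fun j _ z _ => ?_⟩
    simp [hε.le]
  · obtain ⟨r, h1, h2, h3⟩ := sep (qV k) hε
    refine ⟨r, h3 0 ?_, fun j hj z hz => h1 z (qV_small (by omega) hz),
      fun j hj z hz => h2 z (qV_near (by omega) hz)⟩
    rw [qV_eval]
    simp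

theorem Viota (k : ℕ) {ε : ℝ} (hε : 0 < ε) : ∃ s : Polynomial ℂ, s.eval 0 = 0 ∧
    (∀ j, ∀ z ∈ V j, ‖s.eval z - (if j = k then 1 else 0)‖ ≤ ε) := by
  obtain ⟨s1, a1, b1, c1⟩ := Vstep k (half_pos hε)
  obtain ⟨s2, a2, b2, c2⟩ := Vstep (k + 1) (half_pos hε)
  refine ⟨s1 - s2, by rw [Polynomial.eval_sub, a1, a2, sub_self], fun j z hz => ?_⟩
  rw [Polynomial.eval_sub]
  rcases lt_trichotomy j k with hj | hj | hj
  · have h1 := b1 j hj z hz
    have h2 := b2 j (by omega) z hz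
    simp only [hj.ne, if_false, sub_zero]
    calc _ ≤ _ := norm_sub_le _ _
      _ ≤ ε := by linarith
  · subst hj
    have h1 := c1 j le_rfl z hz
    have h2 := b2 j (by omega) z hz
    simp only [if_true]
    rw [show s1.eval z - s2.eval z - 1 = (s1.eval z - 1) - s2.eval z by ring]
    calc _ ≤ _ := norm_sub_le _ _
      _ ≤ ε := by linarith
  · have h1 := c1 j hj.le z hz
    have h2 := c2 j (by omega) z hz
    simp only [hj.ne', if_false, sub_zero]
    rw [show s1.eval z - s2.eval z = (s1.eval z - 1) - (s2.eval z - 1) by ring]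
    calc _ ≤ _ := norm_sub_le _ _
      _ ≤ ε := by linarith

namespace RD

variable {d' : ℕ} {Ω' : Set (Fin d' → ℂ)} {Y : Type v} [NormedAddCommGroup Y]
  [NormedSpace ℂ Y] [CompleteSpace Y] {T : BSAF d' Ω' Y} {n : ℕ} {M : Type u}
  [NormedAddCommGroup M] [NormedSpace ℂ M] [CompleteSpace M] {m : FMod T n M} (D : RD m)

open MvPolynomial in
theorem approx (p : MvPolynomial (Fin n) ℂ) (J : ℕ) (c : ℕ → ℂ) {δ : ℝ} (hδ : 0 < δ) :
    ∃ P : MvPolynomial (Fin (n + 1)) ℂ, z0 n P = p ∧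
      (∀ j < J, ∀ w ∈ D.B j, ‖eval w P - c j‖ ≤ δ) ∧
      (∀ j, J ≤ j → ∀ w ∈ D.B j, ‖eval w P - eval (fun i : Fin n => w i.succ) p‖ ≤ δ) := by
  obtain ⟨C0, hC0, hC⟩ := D.poly_bdd (rename Fin.succ p)
  have hren : ∀ w : Fin (n + 1) → ℂ, eval w (rename Fin.succ p) =
      eval (fun i : Fin n => w i.succ) p := by
    intro w
    rw [eval_rename]
    rfl
  set K : ℝ := 1 + C0 + ∑ k ∈ Finset.range J, ‖c k‖ with hK
  have hS0 : 0 ≤ ∑ k ∈ Finset.range J, ‖c k‖ := Finset.sum_nonneg fun k _ => norm_nonneg _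
  have hKpos : 0 < K := by positivity
  set ε : ℝ := δ / K with hε
  have hεpos : 0 < ε := by positivity
  have hKε : C0 * ε + ∑ k ∈ Finset.range J, ‖c k‖ * ε ≤ δ := by
    rw [← Finset.sum_mul]
    have h1 : K * ε = δ := by rw [hε]; field_simp
    nlinarith
  obtain ⟨s, hs0, hs1, hs2⟩ := Vstep J hεpos
  choose ι hι0 hι using fun k : ℕ => Viota k hεpos
  set P : MvPolynomial (Fin (n + 1)) ℂ :=
    rename Fin.succ p * Polynomial.aeval (X 0 : MvPolynomial (Fin (n + 1)) ℂ) s +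
      ∑ k ∈ Finset.range J,
        C (c k) * Polynomial.aeval (X 0 : MvPolynomial (Fin (n + 1)) ℂ) (ι k) with hP
  have hev : ∀ w : Fin (n + 1) → ℂ, eval w P =
      eval (fun i : Fin n => w i.succ) p * s.eval (w 0) +
        ∑ k ∈ Finset.range J, c k * (ι k).eval (w 0) := by
    intro w
    rw [hP, map_add, map_mul, map_sum, hren, evalN]
    congr 1
    apply Finset.sum_congr rfl
    intro k _
    rw [map_mul, eval_C, evalN]
  refine ⟨P, ?_, ?_, ?_⟩
  · apply MvPolynomial.funext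
    intro u
    rw [eval_z0, hev]
    simp [hs0, hι0]
  · intro j hj w hw
    have hwV := D.mem_V hw
    have h1 : eval w P - c j = eval (fun i : Fin n => w i.succ) p * s.eval (w 0) +
        ∑ k ∈ Finset.range J, c k * ((ι k).eval (w 0) - (if j = k then 1 else 0)) := by
      rw [hev]
      have h2 : ∑ k ∈ Finset.range J, c k * ((ι k).eval (w 0) - (if j = k then 1 else 0)) =
          ∑ k ∈ Finset.range J, c k * (ι k).eval (w 0) - c j := by
        simp only [mul_sub, Finset.sum_sub_distrib, mul_ite, mul_one, mul_zero,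
          Finset.sum_ite_eq, Finset.mem_range, hj, if_true]
      rw [h2]
      ring
    rw [h1]
    have h3 := hC w ⟨j, hw⟩
    rw [hren] at h3
    have h4 := hs1 j hj _ hwV
    calc _ ≤ ‖eval (fun i : Fin n => w i.succ) p * s.eval (w 0)‖ +
          ‖∑ k ∈ Finset.range J, c k * ((ι k).eval (w 0) - (if j = k then 1 else 0))‖ :=
          norm_add_le _ _
      _ ≤ C0 * ε + ∑ k ∈ Finset.range J, ‖c k‖ * ε := by
          refine add_le_add ?_ ((norm_sum_le _ _).trans (Finset.sum_le_sum fun k _ => ?_))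
          · rw [norm_mul]
            gcongr
          · rw [norm_mul]
            exact mul_le_mul_of_nonneg_left (hι k j _ hwV) (norm_nonneg _)
      _ ≤ δ := hKε
  · intro j hj w hw
    have hwV := D.mem_V hw
    have h1 : eval w P - eval (fun i : Fin n => w i.succ) p =
        eval (fun i : Fin n => w i.succ) p * (s.eval (w 0) - 1) +
        ∑ k ∈ Finset.range J, c k * (ι k).eval (w 0) := by
      rw [hev]
      ring
    rw [h1]
    have h3 := hC w ⟨j, hw⟩
    rw [hren] at h3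
    have h4 := hs2 j hj _ hwV
    calc _ ≤ ‖eval (fun i : Fin n => w i.succ) p * (s.eval (w 0) - 1)‖ +
          ‖∑ k ∈ Finset.range J, c k * (ι k).eval (w 0)‖ := norm_add_le _ _
      _ ≤ C0 * ε + ∑ k ∈ Finset.range J, ‖c k‖ * ε := by
          refine add_le_add ?_ ((norm_sum_le _ _).trans (Finset.sum_le_sum fun k hk => ?_))
          · rw [norm_mul]
            gcongr
          · rw [norm_mul]
            have h5 := hι k j _ hwV
            rw [if_neg (by rw [Finset.mem_range] at hk; omega), sub_zero] at h5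
            exact mul_le_mul_of_nonneg_left h5 (norm_nonneg _)
      _ ≤ δ := hKε

/-- the quotient of the values of `z` and `ψ` at the `i`-th point -/
noncomputable def cc (z : M) (i : ℕ) : ℂ := T.ev (D.W i) (m.j z) / T.ev (D.W i) (m.j D.ψ)

/-- approximation of one element by the multiples of another one -/
theorem appr (z z' : M) (p : ℕ → MvPolynomial (Fin n) ℂ)
    (hz : ∀ i, T.ev (D.W i) (m.j z) ≠ 0) (hv1 : ∀ i, D.v i * ‖D.cc z i‖ ≤ 1)
    (hv2 : ∀ i, D.v i * (‖(T.ev (D.W i)).comp m.j‖ / ‖T.ev (D.W i) (m.j D.ψ)‖) ≤ 1)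
    (hp : ∀ k : ℕ, ‖m.op (p k) z - z'‖ ≤ 1 / ((k : ℝ) + 1))
    (hosc : ∀ j : ℕ, ∀ k ≤ j, ∀ w ∈ D.B j,
      ‖MvPolynomial.eval (fun i : Fin n => w i.succ) (p k) -
        MvPolynomial.eval (m.h (D.W (sc j))) (p k)‖ ≤ 1 / ((j : ℝ) + 1))
    {ε : ℝ} (hε : 0 < ε) : ∃ P : MvPolynomial (Fin (n + 1)) ℂ, ‖m.op (z0 n P) z - z'‖ ≤ ε ∧
      ∀ w : D.Om, ‖MvPolynomial.eval (w : Fin (n + 1) → ℂ) P * ((D.wt w : ℂ) *
        D.cc z (sc (D.idx w))) - (D.wt w : ℂ) * D.cc z' (sc (D.idx w))‖ ≤ ε := by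
  obtain ⟨k, hk⟩ := exists_nat_one_div_lt (show 0 < ε / 3 by positivity)
  obtain ⟨P, hP0, hP1, hP2⟩ := D.approx (p k) k (fun j => D.cc z' (sc j) / D.cc z (sc j))
    (show 0 < ε / 3 by positivity)
  refine ⟨P, ?_, ?_⟩
  · rw [hP0]
    exact (hp k).trans (by linarith)
  · intro w
    set j := D.idx w with hj
    have hw : (w : Fin (n + 1) → ℂ) ∈ D.B j := D.mem_idx w.2
    have hwt : D.wt w = D.v (sc j) := rfl
    have hvpos := D.v_pos (sc j)
    have hne := D.ne (D.W (sc j))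
    have hcne : D.cc z (sc j) ≠ 0 := div_ne_zero (hz _) hne
    have hvn : ‖(D.wt w : ℂ)‖ = D.v (sc j) := by
      rw [hwt, Complex.norm_real, Real.norm_eq_abs, abs_of_pos hvpos]
    have hvc : ‖(D.wt w : ℂ) * D.cc z (sc j)‖ ≤ 1 := by
      rw [norm_mul, hvn]
      exact hv1 (sc j)
    rcases lt_or_ge j k with hjk | hjk
    · have h1 := hP1 j hjk w hw
      have h2 : MvPolynomial.eval (w : Fin (n + 1) → ℂ) P * ((D.wt w : ℂ) * D.cc z (sc j)) -
          (D.wt w : ℂ) * D.cc z' (sc j) = (MvPolynomial.eval (w : Fin (n + 1) → ℂ) P -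
            D.cc z' (sc j) / D.cc z (sc j)) * ((D.wt w : ℂ) * D.cc z (sc j)) := by
        field_simp
      rw [h2, norm_mul]
      calc _ ≤ ε / 3 * 1 := by gcongr
        _ ≤ ε := by linarith
    · have h1 := hP2 j hjk w hw
      have h2 := hosc j k hjk w hw
      have hjk' : 1 / ((j : ℝ) + 1) ≤ 1 / ((k : ℝ) + 1) := by
        apply one_div_le_one_div_of_le (by positivity)
        have : (k : ℝ) ≤ j := by exact_mod_cast hjk
        linarith
      have h3 : ‖(D.wt w : ℂ) * (MvPolynomial.eval (m.h (D.W (sc j))) (p k) * D.cc z (sc j) -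
          D.cc z' (sc j))‖ ≤ ε / 3 := by
        have h4 : MvPolynomial.eval (m.h (D.W (sc j))) (p k) * D.cc z (sc j) - D.cc z' (sc j) =
            ((T.ev (D.W (sc j))).comp m.j) (m.op (p k) z - z') / T.ev (D.W (sc j)) (m.j D.ψ) := by
          rw [map_sub]
          change _ = (T.ev (D.W (sc j)) (m.j (m.op (p k) z)) - T.ev (D.W (sc j)) (m.j z')) / _
          rw [m.ev_op, cc, cc]
          ring
        rw [h4, norm_mul, hvn, norm_div]
        have h5 := ((T.ev (D.W (sc j))).comp m.j).le_opNorm (m.op (p k) z - z')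
        have hsp : 0 < ‖T.ev (D.W (sc j)) (m.j D.ψ)‖ := norm_pos_iff.mpr hne
        calc D.v (sc j) * (‖((T.ev (D.W (sc j))).comp m.j) (m.op (p k) z - z')‖ /
              ‖T.ev (D.W (sc j)) (m.j D.ψ)‖)
            ≤ D.v (sc j) * ((‖(T.ev (D.W (sc j))).comp m.j‖ * ‖m.op (p k) z - z'‖) /
              ‖T.ev (D.W (sc j)) (m.j D.ψ)‖) := by gcongr
          _ = (D.v (sc j) * (‖(T.ev (D.W (sc j))).comp m.j‖ / ‖T.ev (D.W (sc j)) (m.j D.ψ)‖)) *
              ‖m.op (p k) z - z'‖ := by ring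
          _ ≤ 1 * (1 / ((k : ℝ) + 1)) := mul_le_mul (hv2 _) (hp k) (norm_nonneg _) zero_le_one
          _ ≤ ε / 3 := by linarith
      have h6 : MvPolynomial.eval (w : Fin (n + 1) → ℂ) P * ((D.wt w : ℂ) * D.cc z (sc j)) -
          (D.wt w : ℂ) * D.cc z' (sc j) =
          (MvPolynomial.eval (w : Fin (n + 1) → ℂ) P -
            MvPolynomial.eval (fun i : Fin n => (w : Fin (n + 1) → ℂ) i.succ) (p k)) *
            ((D.wt w : ℂ) * D.cc z (sc j)) +
          (MvPolynomial.eval (fun i : Fin n => (w : Fin (n + 1) → ℂ) i.succ) (p k) -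
            MvPolynomial.eval (m.h (D.W (sc j))) (p k)) * ((D.wt w : ℂ) * D.cc z (sc j)) +
          (D.wt w : ℂ) * (MvPolynomial.eval (m.h (D.W (sc j))) (p k) * D.cc z (sc j) -
          D.cc z' (sc j)) := by ring
      rw [h6]
      have e1 : ‖(MvPolynomial.eval (w : Fin (n + 1) → ℂ) P -
            MvPolynomial.eval (fun i : Fin n => (w : Fin (n + 1) → ℂ) i.succ) (p k)) *
            ((D.wt w : ℂ) * D.cc z (sc j))‖ ≤ ε / 3 * 1 := by
        rw [norm_mul]
        gcongr
      have e2 : ‖(MvPolynomial.eval (fun i : Fin n => (w : Fin (n + 1) → ℂ) i.succ) (p k) -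
            MvPolynomial.eval (m.h (D.W (sc j))) (p k)) *
            ((D.wt w : ℂ) * D.cc z (sc j))‖ ≤ ε / 3 * 1 := by
        rw [norm_mul]
        have : ‖MvPolynomial.eval (fun i : Fin n => (w : Fin (n + 1) → ℂ) i.succ) (p k) -
            MvPolynomial.eval (m.h (D.W (sc j))) (p k)‖ ≤ ε / 3 := h2.trans (by linarith)
        gcongr
      calc _ ≤ _ := norm_add_le _ _
        _ ≤ (_ + _) + _ := by gcongr; exact norm_add_le _ _
        _ ≤ ε := by linarith

end RD

end Pool.Agent.Helper34.Cq
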