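import Pool.Agent.Helper34.Cq.RealC
import Pool.Agent.Helper34.Cq.RTa

set_option autoImplicit false
set_option linter.unusedVariables false

namespace Pool.Agent.Helper34.Cq

open Topology Filter BoundedContinuousFunction

universe u v

namespace RD

variable {d' : ℕ} {Ω' : Set (Fin d' → ℂ)} {Y : Type v} [NormedAddCommGroup Y]
  [NormedSpace ℂ Y] [CompleteSpace Y] {T : BSAF d' Ω' Y} {n : ℕ} {M : Type u}
  [NormedAddCommGroup M] [NormedSpace ℂ M] [CompleteSpace M] {m : FMod T n M} (D : RD m)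

/-- the second component of the distinguished element -/
noncomputable def gg (z : M) (hv1 : ∀ i, D.v i * ‖D.cc z i‖ ≤ 1) : D.Om →ᵇ ℂ :=
  BoundedContinuousFunction.ofNormedAddCommGroup
    (fun w : D.Om => (D.wt w : ℂ) * D.cc z (sc (D.idx w)))
    ((Complex.continuous_ofReal.comp D.cont_wt).mul
      (continuousOn_iff_continuous_domRestrict.mp (D.cont_idx fun j => D.cc z (sc j)))) 1 (by
      intro w
      rw [norm_mul, Complex.norm_real, Real.norm_eq_abs, abs_of_pos (D.wt_pos w)]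
      exact hv1 _)

theorem gg_apply (z : M) (hv1 : ∀ i, D.v i * ‖D.cc z i‖ ≤ 1) (w : D.Om) :
    D.gg z hv1 w = (D.wt w : ℂ) * D.cc z (sc (D.idx w)) := rfl

theorem mul_fst (P : MvPolynomial (Fin (n + 1)) ℂ) (f : D.Sp) :
    (D.bs.mul P f : M × (D.Om →ᵇ ℂ)).1 = m.op (z0 n P) (f : M × (D.Om →ᵇ ℂ)).1 := by
  apply m.ext_ev
  intro w
  rw [m.ev_op, ← D.A_apply, ← D.A_apply, D.A_eq, D.A_eq, D.bs.isEval_mul (D.bs.ev_spec _)]
  rw [eval_z0]
  change _ * (MvPolynomial.eval (Fin.cons (0 : ℂ) (m.h w) : Fin (n + 1) → ℂ) P * _) = _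
  ring

theorem mul_snd (P : MvPolynomial (Fin (n + 1)) ℂ) (f : D.Sp) (w : D.Om) :
    (D.bs.mul P f : M × (D.Om →ᵇ ℂ)).2 w = MvPolynomial.eval (w : Fin (n + 1) → ℂ) P *
      (f : M × (D.Om →ᵇ ℂ)).2 w := by
  have h := D.bs.val_mul P f w
  rw [bs_val, bs_val] at h
  have h1 := D.wt_ne w
  field_simp at h
  exact h

theorem one_eq : D.bs.one = D.el 1 := by
  apply D.bs.inj
  funext w
  rw [D.bs.val_one, val_el, map_one]

theorem one_fst : (D.bs.one : M × (D.Om →ᵇ ℂ)).1 = D.ψ := by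
  rw [one_eq]
  change m.op (z0 n 1) D.ψ = D.ψ
  rw [map_one, m.op_one]

theorem one_snd (w : D.Om) : (D.bs.one : M × (D.Om →ᵇ ℂ)).2 w = (D.wt w : ℂ) := by
  rw [one_eq]
  change D.pf 1 w = _
  rw [pf_apply, map_one, mul_one]

theorem cc_ψ (i : ℕ) : D.cc D.ψ i = 1 := div_self (D.ne _)

/-- The conclusion for the data of a realisation. -/
theorem main (F : M) (p q : ℕ → MvPolynomial (Fin n) ℂ)
    (hF : ∀ i, T.ev (D.W i) (m.j F) ≠ 0) (hv1 : ∀ i, D.v i * ‖D.cc F i‖ ≤ 1)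
    (hv2 : ∀ i, D.v i * (‖(T.ev (D.W i)).comp m.j‖ / ‖T.ev (D.W i) (m.j D.ψ)‖) ≤ 1)
    (hp : ∀ k : ℕ, ‖m.op (p k) D.ψ - F‖ ≤ 1 / ((k : ℝ) + 1))
    (hq : ∀ k : ℕ, ‖m.op (q k) F - D.ψ‖ ≤ 1 / ((k : ℝ) + 1))
    (hop : ∀ j : ℕ, ∀ k ≤ j, ∀ w ∈ D.B j,
      ‖MvPolynomial.eval (fun i : Fin n => w i.succ) (p k) -
        MvPolynomial.eval (m.h (D.W (sc j))) (p k)‖ ≤ 1 / ((j : ℝ) + 1))
    (hoq : ∀ j : ℕ, ∀ k ≤ j, ∀ w ∈ D.B j,
      ‖MvPolynomial.eval (fun i : Fin n => w i.succ) (q k) -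
        MvPolynomial.eval (m.h (D.W (sc j))) (q k)‖ ≤ 1 / ((j : ℝ) + 1)) :
    ∃ f : D.Sp, D.bs.ShiftCyclic f ∧ D.A f = m.j F := by
  have hmem : (F, D.gg F hv1) ∈ D.Sp := by
    rw [mem_Sp_iff]
    intro ε hε
    obtain ⟨P, hP1, hP2⟩ := D.appr D.ψ F p (fun i => D.ne _) (fun i => by
      rw [cc_ψ, norm_one, mul_one]; exact D.v_le i) hv2 hp hop hε
    refine ⟨P, hP1, fun w => ?_⟩
    have h1 := hP2 w
    rw [cc_ψ, mul_one] at h1
    rw [← norm_neg]
    change ‖-((D.wt w : ℂ) * D.cc F (sc (D.idx w)) -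
      (D.wt w : ℂ) * MvPolynomial.eval (w : Fin (n + 1) → ℂ) P)‖ ≤ ε
    rw [show -((D.wt w : ℂ) * D.cc F (sc (D.idx w)) -
      (D.wt w : ℂ) * MvPolynomial.eval (w : Fin (n + 1) → ℂ) P) =
      MvPolynomial.eval (w : Fin (n + 1) → ℂ) P * (D.wt w : ℂ) -
        (D.wt w : ℂ) * D.cc F (sc (D.idx w)) by ring]
    exact h1
  set f : D.Sp := ⟨(F, D.gg F hv1), hmem⟩ with hf
  refine ⟨f, ?_, rfl⟩
  apply D.bs.cyclic_of_mem (g := D.bs.one) _ D.bs.cyclic_one
  rw [Metric.mem_closure_iff]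
  intro ε hε
  obtain ⟨P, hP1, hP2⟩ := D.appr F D.ψ q hF hv1 hv2 hq hoq (half_pos hε)
  refine ⟨D.bs.mul P f, (D.bs.mem_orbit_iff _ _).mpr ⟨P, rfl⟩, ?_⟩
  rw [dist_comm, dist_eq_norm]
  refine lt_of_le_of_lt ?_ (half_lt_self hε)
  change ‖((D.bs.mul P f - D.bs.one : D.Sp) : M × (D.Om →ᵇ ℂ))‖ ≤ ε / 2
  rw [Prod.norm_def]
  apply max_le
  · change ‖(D.bs.mul P f : M × (D.Om →ᵇ ℂ)).1 - (D.bs.one : M × (D.Om →ᵇ ℂ)).1‖ ≤ ε / 2
    rw [mul_fst, one_fst]
    exact hP1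
  · refine (BoundedContinuousFunction.norm_le (by positivity)).mpr fun w => ?_
    change ‖(D.bs.mul P f : M × (D.Om →ᵇ ℂ)).2 w - (D.bs.one : M × (D.Om →ᵇ ℂ)).2 w‖ ≤ ε / 2
    rw [mul_snd, one_snd]
    have h1 := hP2 w
    rw [cc_ψ, mul_one] at h1
    exact h1

end RD

/-- choice of the radii -/
theorem exists_radius {n : ℕ} (p q : ℕ → MvPolynomial (Fin n) ℂ) (a : Fin (n + 1) → ℂ) (j : ℕ) :
    ∃ ρ : ℝ, 0 < ρ ∧ ρ ≤ mu j / 2 ∧ ∀ k ≤ j, ∀ w ∈ Metric.ball a ρ,
      ‖MvPolynomial.eval (fun i : Fin n => w i.succ) (p k) -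
        MvPolynomial.eval (fun i : Fin n => a i.succ) (p k)‖ ≤ 1 / ((j : ℝ) + 1) ∧
      ‖MvPolynomial.eval (fun i : Fin n => w i.succ) (q k) -
        MvPolynomial.eval (fun i : Fin n => a i.succ) (q k)‖ ≤ 1 / ((j : ℝ) + 1) := by
  have hsucc : Continuous fun w : Fin (n + 1) → ℂ => (fun i : Fin n => w i.succ) :=
    continuous_pi fun i => continuous_apply _
  set S : (Fin (n + 1) → ℂ) → ℝ := fun w => ∑ k ∈ Finset.range (j + 1),
    (‖MvPolynomial.eval (fun i : Fin n => w i.succ) (p k) -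
        MvPolynomial.eval (fun i : Fin n => a i.succ) (p k)‖ +
      ‖MvPolynomial.eval (fun i : Fin n => w i.succ) (q k) -
        MvPolynomial.eval (fun i : Fin n => a i.succ) (q k)‖) with hS
  have hScont : Continuous S := by
    refine continuous_finsetSum _ fun k _ => ?_
    exact ((((MvPolynomial.continuous_eval (p k)).comp hsucc).sub continuous_const).norm).add
      ((((MvPolynomial.continuous_eval (q k)).comp hsucc).sub continuous_const).norm)
  have hS0 : S a = 0 := by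
    rw [hS]
    simp
  have hev : ∀ᶠ w in 𝓝 a, S w < 1 / ((j : ℝ) + 1) := by
    apply hScont.continuousAt.eventually_lt continuousAt_const
    rw [hS0]
    positivity
  obtain ⟨r, hr, hrb⟩ := Metric.eventually_nhds_iff_ball.mp hev
  refine ⟨min r (mu j / 2), lt_min hr (by have := mu_pos j; positivity), min_le_right _ _, ?_⟩
  intro k hk w hw
  have h1 := hrb w (Metric.ball_subset_ball (min_le_left _ _) hw)
  have h2 : ‖MvPolynomial.eval (fun i : Fin n => w i.succ) (p k) -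
        MvPolynomial.eval (fun i : Fin n => a i.succ) (p k)‖ +
      ‖MvPolynomial.eval (fun i : Fin n => w i.succ) (q k) -
        MvPolynomial.eval (fun i : Fin n => a i.succ) (q k)‖ ≤ S w :=
    Finset.single_le_sum (f := fun k => ‖MvPolynomial.eval (fun i : Fin n => w i.succ) (p k) -
        MvPolynomial.eval (fun i : Fin n => a i.succ) (p k)‖ +
      ‖MvPolynomial.eval (fun i : Fin n => w i.succ) (q k) -
        MvPolynomial.eval (fun i : Fin n => a i.succ) (q k)‖) (fun k _ => by positivity)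
      (Finset.mem_range.mpr (by omega))
  have h3 := norm_nonneg (MvPolynomial.eval (fun i : Fin n => w i.succ) (p k) -
        MvPolynomial.eval (fun i : Fin n => a i.succ) (p k))
  have h4 := norm_nonneg (MvPolynomial.eval (fun i : Fin n => w i.succ) (q k) -
        MvPolynomial.eval (fun i : Fin n => a i.succ) (q k))
  constructor <;> linarith

/-- Property (CP) implies the intrinsic condition. -/
theorem inv_of_hasCP {d' : ℕ} {Ω' : Set (Fin d' → ℂ)} {Y : Type v} [NormedAddCommGroup Y]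
    [NormedSpace ℂ Y] [CompleteSpace Y] (T : BSAF d' Ω' Y) (hCP : HasCP.{u} T) : ModCond.{u} T := by
  intro n M _ _ _ m ψ F hψ hF hψc
  rcases Set.eq_empty_or_nonempty Ω' with hem | hne
  · have h1 : m.j F = m.j ψ := by
      apply T.inj
      funext w
      exact (Set.eq_empty_iff_forall_notMem.mp hem w w.2).elim
    rw [h1]
    exact hψc
  have hψ0 : ∀ w : T.maxDomain, T.ev w (m.j ψ) ≠ 0 := fun w => T.cyclic_ne_zero hψc (T.ev_spec w)
  have hF0 : ∀ w : T.maxDomain, T.ev w (m.j F) ≠ 0 := fun w => m.cyc_ne hF w (hψ0 w)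
  have : Nonempty Ω' := hne.to_subtype
  set W : ℕ → T.maxDomain := fun i =>
    ⟨(TopologicalSpace.denseSeq Ω' i : Ω'), T.mem_maxDomain _⟩ with hW
  have hdet : ∀ x : M, (∀ i, T.ev (W i) (m.j x) = 0) → x = 0 := by
    intro x hx
    apply m.inj
    rw [map_zero]
    apply T.inj
    rw [map_zero]
    obtain ⟨g, hg1, hg2⟩ := T.analytic (m.j x)
    have hcont : Continuous (T.val (m.j x)) := by
      have h1 : Continuous fun w : Ω' => g w :=
        continuousOn_iff_continuous_domRestrict.mp hg1.continuousOn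
      have h2 : T.val (m.j x) = fun w : Ω' => g w := funext hg2
      rw [h2]
      exact h1
    apply Continuous.ext_on (TopologicalSpace.denseRange_denseSeq Ω') hcont continuous_const
    rintro _ ⟨i, rfl⟩
    have h1 := hx i
    rw [hW] at h1
    simp only at h1
    rw [T.ev_of_mem] at h1
    exact h1
  choose p hp using fun k : ℕ => m.cyc_near hψ F (show (0 : ℝ) < 1 / ((k : ℝ) + 1) by positivity)
  choose q hq using fun k : ℕ => m.cyc_near hF ψ (show (0 : ℝ) < 1 / ((k : ℝ) + 1) by positivity)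
  choose ρ hρ1 hρ2 hρ3 using fun j : ℕ =>
    exists_radius p q (Fin.cons (mu j : ℂ) (m.h (W (sc j)))) j
  set R : ℕ → ℝ := fun i => ‖(T.ev (W i)).comp m.j‖ / ‖T.ev (W i) (m.j ψ)‖ +
    ‖T.ev (W i) (m.j F) / T.ev (W i) (m.j ψ)‖ with hR
  have hR0 : ∀ i, 0 ≤ R i := fun i => by rw [hR]; positivity
  let D : RD m :=
    { ψ := ψ
      cyc := hψ
      ne := hψ0
      W := W
      det := hdet
      v := fun i => 1 / (1 + R i)
      v_pos := fun i => by have := hR0 i; positivity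
      v_le := fun i => by
        have := hR0 i
        rw [div_le_one (by positivity)]
        linarith
      ρ := ρ
      ρ_pos := hρ1
      ρ_le := hρ2 }
  have hle : ∀ (i : ℕ) (t : ℝ), t ≤ R i → 1 / (1 + R i) * t ≤ 1 := by
    intro i t ht
    have := hR0 i
    rw [div_mul_eq_mul_div, one_mul, div_le_one (by positivity)]
    linarith
  obtain ⟨f, hf1, hf2⟩ := D.main F p q (fun i => hF0 _)
    (fun i => hle i _ (by
      change ‖T.ev (W i) (m.j F) / T.ev (W i) (m.j ψ)‖ ≤ R i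
      rw [hR]
      have : 0 ≤ ‖(T.ev (W i)).comp m.j‖ / ‖T.ev (W i) (m.j ψ)‖ := by positivity
      simp only
      linarith))
    (fun i => hle i _ (by
      change ‖(T.ev (W i)).comp m.j‖ / ‖T.ev (W i) (m.j ψ)‖ ≤ R i
      rw [hR]
      have := norm_nonneg (T.ev (W i) (m.j F) / T.ev (W i) (m.j ψ))
      simp only
      linarith))
    hp hq (fun j k hk w hw => (hρ3 j k hk w hw).1) (fun j k hk w hw => (hρ3 j k hk w hw).2)
  rw [← hf2]
  exact hCP (n + 1) D.Om D.Sp D.bs D.φ (m.j ψ) D.A hψc (fun f w => D.A_eq f w) f hf1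

/-- The intrinsic characterisation of property (CP). -/
theorem hasCP_iff_inv {d' : ℕ} {Ω' : Set (Fin d' → ℂ)} {Y : Type v} [NormedAddCommGroup Y]
    [NormedSpace ℂ Y] [CompleteSpace Y] (T : BSAF d' Ω' Y) : HasCP.{u} T ↔ ModCond.{u} T :=
  ⟨inv_of_hasCP T, hasCP_of_inv T⟩

end Pool.Agent.Helper34.Cq
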