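import Pool.Agent.Helper34.Da.F
import Pool.Agent.Helper34.Cq.Bal

set_option autoImplicit false
set_option linter.unusedVariables false

namespace Pool.Agent.Helper34.Cq.Slice

open Topology Filter Metric Pool.Agent.Helper34.Da
open scoped ENNReal

/-- uniqueness of Taylor coefficients -/
theorem tay_unique {Q : ℂ → ℂ} (hQ : DifferentiableOn ℂ Q (ball 0 1)) {a : ℕ → ℂ} (ha : Gr a)
    (h : ∀ z : ℂ, ‖z‖ < 1 → ser a z = Q z) : tay Q = a :=
  ser_inj (tay_Gr hQ) ha fun z hz => by rw [ser_tay hQ hz, h z hz]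

theorem diff_scale {Q : ℂ → ℂ} (hQ : DifferentiableOn ℂ Q (ball 0 1)) {c : ℂ} (hc : ‖c‖ ≤ 1) :
    DifferentiableOn ℂ (fun z => Q (c * z)) (ball 0 1) := by
  apply hQ.comp (differentiable_id.const_mul c).differentiableOn
  intro z hz
  rw [mem_ball_zero_iff] at hz ⊢
  change ‖c * z‖ < 1
  rw [norm_mul]
  have := norm_nonneg z
  nlinarith

theorem tay_scale {Q : ℂ → ℂ} (hQ : DifferentiableOn ℂ Q (ball 0 1)) {c : ℂ} (hc : ‖c‖ ≤ 1) :
    tay (fun z => Q (c * z)) = fun n => tay Q n * c ^ n := by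
  apply tay_unique (diff_scale hQ hc)
  · apply (tay_Gr hQ).mono
    intro n
    rw [norm_mul, norm_pow]
    have h1 : ‖c‖ ^ n ≤ 1 := pow_le_one₀ (norm_nonneg _) hc
    have := norm_nonneg (tay Q n)
    nlinarith
  · intro z hz
    have h1 : ‖c * z‖ < 1 := by
      rw [norm_mul]
      have := norm_nonneg z
      nlinarith
    rw [← ser_tay hQ h1]
    unfold ser
    apply tsum_congr
    intro n
    rw [mul_pow]
    ring

theorem tay_mul {P Q : ℂ → ℂ} (hP : DifferentiableOn ℂ P (ball 0 1))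
    (hQ : DifferentiableOn ℂ Q (ball 0 1)) :
    tay (fun z => P z * Q z) = conv (tay P) (tay Q) := by
  have hd : DifferentiableOn ℂ (fun z => P z * Q z) (ball 0 1) := hP.mul hQ
  apply tay_unique hd ((tay_Gr hP).conv (tay_Gr hQ))
  intro z hz
  rw [ser_conv (tay_Gr hP) (tay_Gr hQ) hz, ser_tay hP hz, ser_tay hQ hz]

/-- the Cauchy integral is the Taylor coefficient -/
theorem co_tay {Q : ℂ → ℂ} (hQ : DifferentiableOn ℂ Q (closedBall 0 1)) : Bal.co Q = tay Q := by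
  have hQ' : DifferentiableOn ℂ Q (ball 0 1) := hQ.mono ball_subset_closedBall
  symm
  have hps := hQ.hasFPowerSeriesOnBall (R := 1) (c := 0) zero_lt_one
  have hsum : ∀ z : ℂ, ‖z‖ < 1 → HasSum (fun k => Bal.co Q k * z ^ k) (Q z) := by
    intro z hz
    have hmem : z ∈ eball (0 : ℂ) ((1 : NNReal) : ENNReal) := by
      rw [Metric.mem_eball, edist_zero_right, ← ofReal_norm, ENNReal.coe_one, ← ENNReal.ofReal_one]
      exact (ENNReal.ofReal_lt_ofReal_iff one_pos).mpr hz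
    have hs := hps.hasSum hmem
    rw [zero_add] at hs
    refine hs.congr_fun ?_
    intro k
    have h3 := (cauchyPowerSeries Q 0 1 k).map_smul_univ (fun _ => z) (fun _ => 1)
    simp only [smul_eq_mul, mul_one, Finset.prod_const, Finset.card_univ, Fintype.card_fin] at h3
    rw [← Bal.co_eq, mul_comm]
    exact h3.symm
  apply tay_unique hQ'
  · intro ρ h0 h1
    have h2 : ‖(ρ : ℂ)‖ < 1 := by
      rw [Complex.norm_real, Real.norm_eq_abs, abs_of_nonneg h0]; exact h1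
    have h := (hsum ρ h2).summable.norm
    simpa [norm_mul, norm_pow, abs_of_nonneg h0] using h
  · intro z hz
    exact (hsum z hz).tsum_eq

/-- Taylor coefficients of bounded functions are bounded -/
theorem tay_le {Q : ℂ → ℂ} (hQ : DifferentiableOn ℂ Q (ball 0 1)) {M : ℝ}
    (hM : ∀ z : ℂ, ‖z‖ < 1 → ‖Q z‖ ≤ M) (n : ℕ) : ‖tay Q n‖ ≤ M := by
  have h1 : ∀ k, ‖tay Q n‖ * rk k ^ n ≤ M := by
    intro k
    have hr0 := rk_nonneg k
    have hr1 := rk_lt k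
    have hc : ‖((rk k : ℝ) : ℂ)‖ = rk k := by
      rw [Complex.norm_real, Real.norm_eq_abs, abs_of_nonneg hr0]
    have hd : DifferentiableOn ℂ (fun z => Q (((rk k : ℝ) : ℂ) * z)) (closedBall 0 1) := by
      apply hQ.comp (differentiable_id.const_mul _).differentiableOn
      intro z hz
      rw [mem_closedBall_zero_iff] at hz
      rw [mem_ball_zero_iff]
      change ‖((rk k : ℝ) : ℂ) * z‖ < 1
      rw [norm_mul, hc]
      nlinarith
    have h2 := congrFun (co_tay hd) n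
    have h3 := congrFun (tay_scale hQ (c := ((rk k : ℝ) : ℂ)) (by rw [hc]; exact hr1.le)) n
    rw [h3] at h2
    have h4 : ‖Bal.co (fun z => Q (((rk k : ℝ) : ℂ) * z)) n‖ ≤ M := by
      apply Bal.co_le
      intro z hz
      apply hM
      rw [norm_mul, hc, hz, mul_one]
      exact hr1
    rw [h2, norm_mul, norm_pow, hc] at h4
    exact h4
  have h2 : Tendsto (fun k => ‖tay Q n‖ * rk k ^ n) atTop (𝓝 (‖tay Q n‖ * 1 ^ n)) :=
    (rk_lim.pow n).const_mul _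
  rw [one_pow, mul_one] at h2
  exact le_of_tendsto h2 (Eventually.of_forall h1)

theorem norm_Dd (b : ℕ → ℂ) (n : ℕ) : ‖Dd b n‖ ^ 2 = ((n : ℝ) + 1) ^ (2 : ℝ) * ‖b n‖ ^ 2 := by
  have h6 : ‖(n : ℂ) + 1‖ = (n : ℝ) + 1 := by
    have : ((n : ℂ) + 1) = (((n : ℝ) + 1 : ℝ) : ℂ) := by push_cast; ring
    rw [this, Complex.norm_real, Real.norm_eq_abs, abs_of_pos (by positivity)]
  rw [Dd, norm_mul, h6, mul_pow, Real.rpow_two]

theorem En_le_two {a b c : ℕ → ℂ} (ha : Gr a) (hb : Gr b) (hc : Gr c)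
    {A B : ℝ} (hA : 0 ≤ A) (hB : 0 ≤ B)
    (h : ∀ ρ : ℝ, 0 ≤ ρ → ρ < 1 → N2 ρ (Dd a) ≤ A * N2 ρ (Dd b) + B * N2 ρ (Dd c)) :
    En 2 a ≤ ENNReal.ofReal A * En 2 b + ENNReal.ofReal B * En 2 c := by
  have hN : ∀ (b : ℕ → ℂ) (hb : Gr b) (ρ : ℝ), 0 ≤ ρ → ρ < 1 →
      ENNReal.ofReal (N2 ρ (Dd b)) ≤ En 2 b := by
    intro b hb ρ h0 h1
    unfold N2 En
    rw [ENNReal.ofReal_tsum_of_nonneg (fun n => by positivity) (N2_summable hb.Dd h0 h1)]
    apply ENNReal.tsum_le_tsum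
    intro n
    apply ENNReal.ofReal_le_ofReal
    rw [norm_Dd]
    have h2 : ρ ^ (2 * n) ≤ 1 := pow_le_one₀ h0 h1.le
    have h3 : 0 ≤ ((n : ℝ) + 1) ^ (2 : ℝ) * ‖b n‖ ^ 2 := by positivity
    nlinarith
  have hE : En 2 a = ⨆ s : Finset ℕ, ∑ n ∈ s,
      ENNReal.ofReal (((n : ℝ) + 1) ^ (2 : ℝ) * ‖a n‖ ^ 2) := by
    unfold En
    exact ENNReal.tsum_eq_iSup_sum
  rw [hE]
  apply iSup_le
  intro s
  rw [← ENNReal.ofReal_sum_of_nonneg (fun n _ => by positivity)]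
  have h1 : ∀ k, ENNReal.ofReal (∑ n ∈ s, ‖Dd a n‖ ^ 2 * rk k ^ (2 * n)) ≤
      ENNReal.ofReal A * En 2 b + ENNReal.ofReal B * En 2 c := by
    intro k
    have h0 := rk_nonneg k
    have h1 := rk_lt k
    have h2 : ∑ n ∈ s, ‖Dd a n‖ ^ 2 * rk k ^ (2 * n) ≤ N2 (rk k) (Dd a) := by
      unfold N2
      exact (N2_summable ha.Dd h0 h1).sum_le_tsum s (fun n _ => by positivity)
    have h3 := h _ h0 h1
    calc ENNReal.ofReal (∑ n ∈ s, ‖Dd a n‖ ^ 2 * rk k ^ (2 * n))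
        ≤ ENNReal.ofReal (A * N2 (rk k) (Dd b) + B * N2 (rk k) (Dd c)) :=
          ENNReal.ofReal_le_ofReal (h2.trans h3)
      _ = ENNReal.ofReal A * ENNReal.ofReal (N2 (rk k) (Dd b)) +
          ENNReal.ofReal B * ENNReal.ofReal (N2 (rk k) (Dd c)) := by
          have hb0 := N2_nonneg (a := Dd b) h0
          have hc0 := N2_nonneg (a := Dd c) h0
          rw [ENNReal.ofReal_add (by positivity) (by positivity), ENNReal.ofReal_mul hA,
            ENNReal.ofReal_mul hB]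
      _ ≤ _ := by
          gcongr
          · exact hN b hb _ h0 h1
          · exact hN c hc _ h0 h1
  have h2 : Tendsto (fun k => ∑ n ∈ s, ‖Dd a n‖ ^ 2 * rk k ^ (2 * n)) atTop
      (𝓝 (∑ n ∈ s, ((n : ℝ) + 1) ^ (2 : ℝ) * ‖a n‖ ^ 2)) := by
    apply tendsto_finsetSum
    intro n _
    have h3 := (rk_lim.pow (2 * n)).const_mul (‖Dd a n‖ ^ 2)
    rw [one_pow, mul_one, norm_Dd] at h3
    rw [norm_Dd]
    exact h3
  exact le_of_tendsto' ((ENNReal.continuous_ofReal.tendsto _).comp h2) h1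

/-- the dilation inequality in one variable -/
theorem En_dil {α : ℝ} (hα : α ≤ 2) {Q f : ℂ → ℂ} (hQ : DifferentiableOn ℂ Q (ball 0 1))
    (hf : DifferentiableOn ℂ f (ball 0 1)) {M : ℝ} (hM0 : 0 ≤ M) (hM : ∀ z : ℂ, ‖z‖ < 1 → ‖Q z‖ ≤ M)
    {r : ℝ} (h0 : 0 ≤ r) (h1 : r < 1) :
    En α (tay (fun z => Q ((r : ℂ) * z) * f z)) ≤ ENNReal.ofReal 4 * En α (tay (fun z => Q z * f z)) +
      ENNReal.ofReal (24 * M ^ 2) * En α (tay f) := by
  have hr : ‖((r : ℝ) : ℂ)‖ ≤ 1 := by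
    rw [Complex.norm_real, Real.norm_eq_abs, abs_of_nonneg h0]; exact h1.le
  rw [tay_mul (diff_scale hQ hr) hf, tay_mul hQ hf, tay_scale hQ hr]
  have hqr : Gr (dil r (tay Q)) := (tay_Gr hQ).dil h0 h1.le
  have hkey : ∀ ρ : ℝ, 0 ≤ ρ → ρ < 1 → N2 ρ (Dd (conv (dil r (tay Q)) (tay f))) ≤
      4 * N2 ρ (Dd (conv (tay Q) (tay f))) + 24 * M ^ 2 * N2 ρ (Dd (tay f)) :=
    fun ρ hρ0 hρ1 => key hQ hM0 hM (tay_Gr hf) h0 h1 hρ0 hρ1
  rcases lt_or_eq_of_le hα with hα' | hα'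
  · exact En_le hα' (hqr.conv (tay_Gr hf)) ((tay_Gr hQ).conv (tay_Gr hf)) (tay_Gr hf) (by norm_num)
      (by positivity) hkey
  · rw [hα']
    exact En_le_two (hqr.conv (tay_Gr hf)) ((tay_Gr hQ).conv (tay_Gr hf)) (tay_Gr hf) (by norm_num)
      (by positivity) hkey

/-- multiplication by a monomial in one variable -/
theorem En_shift (α : ℝ) {f : ℂ → ℂ} (hf : DifferentiableOn ℂ f (ball 0 1)) (c : ℂ) (n : ℕ) :
    En α (tay (fun z => (z ^ n * c) * f z)) ≤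
      ENNReal.ofReal ((‖c‖ * ((n : ℝ) + 1) ^ KK α) ^ 2) * En α (tay f) := by
  have hd : DifferentiableOn ℂ (fun z : ℂ => (z ^ n * c) * f z) (ball 0 1) :=
    DifferentiableOn.mul (by fun_prop) hf
  set b : ℕ → ℂ := fun m => if m < n then 0 else c * tay f (m - n) with hb
  have hb1 : ∀ m, b (m + n) = c * tay f m := by
    intro m
    rw [hb]
    simp only [Nat.not_lt.mpr (Nat.le_add_left n m), if_false, Nat.add_sub_cancel]
  have hGr : Gr b := by
    intro ρ h0 h1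
    rw [← summable_nat_add_iff n]
    have h2 := ((tay_Gr hf) ρ h0 h1).mul_left (‖c‖ * ρ ^ n)
    refine h2.congr fun m => ?_
    rw [hb1, norm_mul, pow_add]
    ring
  have htay : tay (fun z : ℂ => (z ^ n * c) * f z) = b := by
    apply tay_unique hd hGr
    intro z hz
    have h2 := (tay_hasSum hf hz).mul_left (z ^ n * c)
    have h3 : HasSum (fun m => b (m + n) * z ^ (m + n)) ((z ^ n * c) * f z) := by
      refine h2.congr_fun fun m => ?_
      rw [hb1, pow_add]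
      ring
    have h4 := (hasSum_nat_add_iff (f := fun m => b m * z ^ m) n).mp h3
    have h5 : ∑ i ∈ Finset.range n, b i * z ^ i = 0 := by
      apply Finset.sum_eq_zero
      intro i hi
      have : b i = 0 := if_pos (Finset.mem_range.mp hi)
      rw [this, zero_mul]
    rw [h5, add_zero] at h4
    exact h4.tsum_eq
  rw [htay]
  unfold En
  have h1 := Summable.sum_add_tsum_nat_add' (f := fun m : ℕ =>
    ENNReal.ofReal (((m : ℝ) + 1) ^ α * ‖b m‖ ^ 2)) (k := n) ENNReal.summable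
  have h2 : ∑ m ∈ Finset.range n, ENNReal.ofReal (((m : ℝ) + 1) ^ α * ‖b m‖ ^ 2) = 0 := by
    apply Finset.sum_eq_zero
    intro i hi
    have : b i = 0 := if_pos (Finset.mem_range.mp hi)
    rw [this]
    simp
  rw [h2, zero_add] at h1
  rw [← h1, ← ENNReal.tsum_mul_left]
  apply ENNReal.tsum_le_tsum
  intro m
  rw [← ENNReal.ofReal_mul (by positivity)]
  apply ENNReal.ofReal_le_ofReal
  rw [hb1, norm_mul, mul_pow, mul_pow]
  have hm0 : (0 : ℝ) ≤ m := Nat.cast_nonneg m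
  have hn0 : (0 : ℝ) ≤ n := Nat.cast_nonneg n
  have h3 : (((m + n : ℕ) : ℝ) + 1) ^ α ≤ ((n : ℝ) + 1) ^ KK α * ((m : ℝ) + 1) ^ α := by
    rcases le_total 0 α with hα | hα
    · have e1 : (((m + n : ℕ) : ℝ) + 1) ^ α ≤ (((n : ℝ) + 1) * ((m : ℝ) + 1)) ^ α := by
        apply Real.rpow_le_rpow (by positivity) _ hα
        push_cast
        nlinarith
      rw [Real.mul_rpow (by positivity) (by positivity)] at e1
      refine e1.trans ?_
      gcongr
      exact rpow_le_KK α (by linarith) (le_abs_self α)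
    · have e1 : (((m + n : ℕ) : ℝ) + 1) ^ α ≤ ((m : ℝ) + 1) ^ α := by
        apply Real.rpow_le_rpow_of_nonpos (by positivity) _ hα
        push_cast
        linarith
      have e2 : (1 : ℝ) ≤ ((n : ℝ) + 1) ^ KK α := one_le_pow₀ (by linarith)
      have e3 : 0 ≤ ((m : ℝ) + 1) ^ α := by positivity
      nlinarith
  have h4 : (((n : ℝ) + 1) ^ KK α) ≤ (((n : ℝ) + 1) ^ KK α) ^ 2 := by
    have e2 : (1 : ℝ) ≤ ((n : ℝ) + 1) ^ KK α := one_le_pow₀ (by linarith)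
    nlinarith
  have h5 : 0 ≤ ((m : ℝ) + 1) ^ α := by positivity
  calc (((m + n : ℕ) : ℝ) + 1) ^ α * (‖c‖ ^ 2 * ‖tay f m‖ ^ 2)
      ≤ ((((n : ℝ) + 1) ^ KK α) ^ 2 * ((m : ℝ) + 1) ^ α) * (‖c‖ ^ 2 * ‖tay f m‖ ^ 2) := by
        gcongr
        exact h3.trans (by gcongr)
    _ = ‖c‖ ^ 2 * (((n : ℝ) + 1) ^ KK α) ^ 2 * (((m : ℝ) + 1) ^ α * ‖tay f m‖ ^ 2) := by ring

end Pool.Agent.Helper34.Cq.Slice
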