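import Pool.Agent.Helper34.Cq.SliceA

set_option autoImplicit false
set_option linter.unusedVariables false

namespace Pool.Agent.Helper34.Cq.Slice

open MvPolynomial Topology Filter Metric MeasureTheory
open Pool.Agent.Helper34.Da (tay Gr En ser rk rk_nonneg rk_lt rk_lim KK tay_Gr tay_hasSum ser_tay
  ser_inj conv)
open scoped ENNReal

variable {d : ℕ} {Ω : Set (Fin d → ℂ)} {Y : Type*} [NormedAddCommGroup Y] [NormedSpace ℂ Y]
  [CompleteSpace Y]

/-- the slice of `g` in the direction `ζ` -/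
def sl (g : (Fin d → ℂ) → ℂ) (ζ : Fin d → ℂ) (z : ℂ) : ℂ := g (z • ζ)

/-- the open disc through `ζ` lies in `Ω` -/
def Good (Ω : Set (Fin d → ℂ)) (ζ : Fin d → ℂ) : Prop := ∀ z : ℂ, ‖z‖ < 1 → z • ζ ∈ Ω

theorem tay_congr {P Q : ℂ → ℂ} (hP : DifferentiableOn ℂ P (ball 0 1))
    (hQ : DifferentiableOn ℂ Q (ball 0 1)) (h : ∀ z : ℂ, ‖z‖ < 1 → P z = Q z) : tay P = tay Q :=
  tay_unique hP (tay_Gr hQ) fun z hz => by rw [ser_tay hQ hz, h z hz]

theorem sl_diff {g : (Fin d → ℂ) → ℂ} (hg : DifferentiableOn ℂ g Ω) {ζ : Fin d → ℂ}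
    (hζ : Good Ω ζ) : DifferentiableOn ℂ (sl g ζ) (ball 0 1) := by
  apply hg.comp (differentiable_id.smul_const ζ).differentiableOn
  intro z hz
  rw [mem_ball_zero_iff] at hz
  exact hζ z hz

theorem good_of_mem (hb : Bal.IsBal Ω) {w : Fin d → ℂ} (hw : w ∈ Ω) : Good Ω w :=
  fun z hz => hb w hw z hz.le

theorem tay_zero (Q : ℂ → ℂ) : tay Q 0 = Q 0 := by
  simp [tay]

theorem sl_smul {g : (Fin d → ℂ) → ℂ} (hg : DifferentiableOn ℂ g Ω) {ζ : Fin d → ℂ}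
    (hζ : Good Ω ζ) {c : ℂ} (hc : ‖c‖ ≤ 1) (n : ℕ) :
    tay (sl g (c • ζ)) n = tay (sl g ζ) n * c ^ n := by
  have h1 : sl g (c • ζ) = fun z => sl g ζ (c * z) := by
    funext z
    unfold sl
    rw [smul_smul, mul_comm]
  rw [h1, tay_scale (sl_diff hg hζ) hc]

theorem cpoly (T : BSAF d Ω Y) (hb : Bal.IsBal Ω) (f : Y) {g : (Fin d → ℂ) → ℂ}
    (hg : DifferentiableOn ℂ g Ω) (hfg : ∀ w : Ω, T.val f w = g w) (k : ℕ) :
    ∃ P : MvPolynomial (Fin d) ℂ, ∀ w ∈ Ω, tay (sl g w) k = eval w P := by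
  obtain ⟨P, hP⟩ := Bal.coeff_poly T hb f hg hfg k
  refine ⟨P, fun w hw => ?_⟩
  rw [← hP w hw, co_tay (Bal.line_cont hb hw hg)]
  rfl

/-- the Taylor coefficients of a quotient are polynomials -/
theorem qpoly (T : BSAF d Ω Y) (hb : Bal.IsBal Ω) (F G : Y) {q Fg : (Fin d → ℂ) → ℂ}
    (hq : DifferentiableOn ℂ q Ω) (hF : DifferentiableOn ℂ Fg Ω) (hFv : ∀ w : Ω, T.val F w = Fg w)
    (hG : ∀ w : Ω, T.val G w = q w * Fg w) (hF0 : Fg 0 ≠ 0) (k : ℕ) :
    ∃ P : MvPolynomial (Fin d) ℂ, ∀ w ∈ Ω, tay (sl q w) k = eval w P := by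
  have hqF : DifferentiableOn ℂ (fun w => q w * Fg w) Ω := hq.mul hF
  choose PF hPF using cpoly T hb F hF hFv
  choose PG hPG using cpoly T hb G hqF hG
  induction k using Nat.strong_induction_on with
  | _ k ih =>
    choose! a ha using ih
    refine ⟨C (Fg 0)⁻¹ * (PG k - ∑ i ∈ Finset.range k, a i * PF (k - i)), fun w hw => ?_⟩
    have hw' := good_of_mem hb hw
    have h1 : tay (sl (fun w => q w * Fg w) w) k =
        ∑ i ∈ Finset.range k, tay (sl q w) i * tay (sl Fg w) (k - i) + tay (sl q w) k * Fg 0 := by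
      have h2 : sl (fun w => q w * Fg w) w = fun z => sl q w z * sl Fg w z := rfl
      rw [h2, tay_mul (sl_diff hq hw') (sl_diff hF hw'), Da.conv,
        Finset.Nat.sum_antidiagonal_eq_sum_range_succ_mk, Finset.sum_range_succ, Nat.sub_self,
        tay_zero]
      unfold sl
      rw [zero_smul]
    rw [hPG k w hw] at h1
    have h3 : ∑ i ∈ Finset.range k, tay (sl q w) i * tay (sl Fg w) (k - i) =
        ∑ i ∈ Finset.range k, eval w (a i) * eval w (PF (k - i)) := by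
      apply Finset.sum_congr rfl
      intro i hi
      rw [ha i (Finset.mem_range.mp hi) w hw, hPF _ w hw]
    rw [h3] at h1
    have h4 : eval w (C (Fg 0)⁻¹ * (PG k - ∑ i ∈ Finset.range k, a i * PF (k - i))) =
        (Fg 0)⁻¹ * (eval w (PG k) - ∑ i ∈ Finset.range k, eval w (a i) * eval w (PF (k - i))) := by
      rw [map_mul, map_sub, map_sum, eval_C]
      simp only [map_mul]
    rw [h4, h1]
    field_simp
    ring

/-- orbits are submodules -/
def orbM (T : BSAF d Ω Y) (F : Y) : Submodule ℂ Y where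
  carrier := T.orbit F
  add_mem' := by
    rintro a b ⟨P, hP⟩ ⟨Q, hQ⟩
    refine ⟨P + Q, fun w => ?_⟩
    simp only [map_add, Pi.add_apply, hP, hQ]
    ring
  zero_mem' := ⟨0, fun w => by simp⟩
  smul_mem' := by
    rintro c a ⟨P, hP⟩
    refine ⟨MvPolynomial.C c * P, fun w => ?_⟩
    simp only [map_smul, Pi.smul_apply, smul_eq_mul, hP, map_mul, eval_C]
    ring

/-- `‖f‖^2 = ∫ ∑ (n+1)^α |f_n(ζ)|^2 dσ(ζ)`, where `f_n(ζ)` are the Taylor coefficients of the slice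
`z ↦ f(zζ)`, and `σ` is carried by points `ζ` such that the open disc through `ζ` lies in `Ω`. -/
structure IsSlice (T : BSAF d Ω Y) (α : ℝ) (σ : Measure (Fin d → ℂ)) : Prop where
  good : ∀ᵐ ζ ∂σ, Good Ω ζ
  norm : ∀ (g : (Fin d → ℂ) → ℂ) (f : Y), DifferentiableOn ℂ g Ω → (∀ w : Ω, T.val f w = g w) →
    ENNReal.ofReal (‖f‖ ^ 2) = ∫⁻ ζ, En α (tay (sl g ζ)) ∂σ

theorem le_of_ofReal {a b : ℝ} (ha : 0 ≤ a) (hb : 0 ≤ b)
    (h : ENNReal.ofReal (a ^ 2) ≤ ENNReal.ofReal (b ^ 2)) : a ≤ b := by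
  rw [ENNReal.ofReal_le_ofReal_iff (by positivity)] at h
  exact (pow_le_pow_iff_left₀ ha hb two_ne_zero).mp h

/-- norm of the product with a homogeneous coefficient -/
theorem mul_coeff (T : BSAF d Ω Y) {α : ℝ} {σ : Measure (Fin d → ℂ)}
    (hs : IsSlice T α σ) (F : Y) {q Fg : (Fin d → ℂ) → ℂ} (hq : DifferentiableOn ℂ q Ω)
    (hF : DifferentiableOn ℂ Fg Ω) (hFv : ∀ w : Ω, T.val F w = Fg w) {M : ℝ} (hM0 : 0 ≤ M)
    (hM : ∀ w ∈ Ω, ‖q w‖ ≤ M) {n : ℕ} {P : MvPolynomial (Fin d) ℂ}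
    (hP : ∀ w ∈ Ω, tay (sl q w) n = eval w P) :
    ‖T.mul P F‖ ≤ M * ((n : ℝ) + 1) ^ KK α * ‖F‖ := by
  apply le_of_ofReal (norm_nonneg _) (by positivity)
  have hd : DifferentiableOn ℂ (fun w => eval w P * Fg w) Ω := (BSAF.analytic_eval P Ω).mul hF
  rw [hs.norm (fun w => eval w P * Fg w) (T.mul P F) hd (fun w => by rw [T.val_mul, hFv])]
  rw [mul_pow, ENNReal.ofReal_mul (by positivity), hs.norm Fg F hF hFv,
    ← lintegral_const_mul' _ _ ENNReal.ofReal_ne_top]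
  apply lintegral_mono_ae
  filter_upwards [hs.good] with ζ hζ
  have h1 : tay (sl (fun w => eval w P * Fg w) ζ) =
      tay (fun z => (z ^ n * tay (sl q ζ) n) * sl Fg ζ z) := by
    apply tay_congr (sl_diff hd hζ)
    · exact DifferentiableOn.mul (by fun_prop) (sl_diff hF hζ)
    · intro z hz
      have e1 := hP _ (hζ z hz)
      rw [sl_smul hq hζ hz.le] at e1
      change eval (z • ζ) P * Fg (z • ζ) = (z ^ n * tay (sl q ζ) n) * Fg (z • ζ)
      rw [← e1]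
      ring
  rw [h1]
  refine (En_shift α (sl_diff hF hζ) _ n).trans ?_
  gcongr
  apply tay_le (sl_diff hq hζ)
  intro z hz
  exact hM _ (hζ z hz)

end Pool.Agent.Helper34.Cq.Slice
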