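import Pool.Agent.Helper34.Cq.SliceB
import Pool.Agent.Helper34.Cq.Main1

set_option autoImplicit false
set_option linter.unusedVariables false

namespace Pool.Agent.Helper34.Cq.Slice

open MvPolynomial Topology Filter Metric MeasureTheory
open Pool.Agent.Helper34.Da (tay Gr En ser rk rk_nonneg rk_lt rk_lim KK tay_Gr tay_hasSum ser_tay
  ser_inj conv)
open scoped ENNReal

section
variable {d : ℕ} {Ω : Set (Fin d → ℂ)} {Y : Type*} [NormedAddCommGroup Y] [NormedSpace ℂ Y]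
  [CompleteSpace Y]

/-- the products `q(r·) F` lie in the invariant subspace of `F` -/
theorem dil_mem (T : BSAF d Ω Y) (hb : Bal.IsBal Ω) {α : ℝ} {σ : Measure (Fin d → ℂ)}
    (hs : IsSlice T α σ) (F G : Y) {q Fg : (Fin d → ℂ) → ℂ} (hq : DifferentiableOn ℂ q Ω)
    (hF : DifferentiableOn ℂ Fg Ω) (hFv : ∀ w : Ω, T.val F w = Fg w)
    (hG : ∀ w : Ω, T.val G w = q w * Fg w) (hF0 : Fg 0 ≠ 0) {M : ℝ} (hM0 : 0 ≤ M)
    (hM : ∀ w ∈ Ω, ‖q w‖ ≤ M) {r : ℝ} (h0 : 0 ≤ r) (h1 : r < 1) :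
    ∃ y : Y, y ∈ closure (orbM T F : Set Y) ∧
      ∀ w : Ω, T.val y w = q ((r : ℂ) • (w : Fin d → ℂ)) * Fg w := by
  choose a ha using qpoly T hb F G hq hF hFv hG hF0
  have hGrM : Gr (fun _ : ℕ => (M : ℂ)) := by
    intro ρ hρ0 hρ1
    exact (summable_geometric_of_lt_one hρ0 hρ1).mul_left _
  have hGr : Gr (fun n : ℕ => ((((n : ℝ) + 1) ^ KK α : ℝ) : ℂ) * (M : ℂ)) := by
    apply hGrM.poly (KK α)
    intro n
    rw [norm_mul, Complex.norm_real, Real.norm_eq_abs, abs_of_pos (by positivity)]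
  have hsum0 : Summable fun n : ℕ => ‖((r : ℂ) ^ n) • T.mul (a n) F‖ := by
    have h2 := (hGr r h0 h1).mul_right ‖F‖
    refine Summable.of_nonneg_of_le (fun n => norm_nonneg _) (fun n => ?_) h2
    have h3 := mul_coeff T hs F hq hF hFv hM0 hM (ha n)
    rw [norm_smul, norm_pow, Complex.norm_real, Real.norm_eq_abs, abs_of_nonneg h0, norm_mul,
      Complex.norm_real, Real.norm_eq_abs, abs_of_pos (by positivity), Complex.norm_real,
      Real.norm_eq_abs, abs_of_nonneg hM0]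
    calc r ^ n * ‖T.mul (a n) F‖ ≤ r ^ n * (M * ((n : ℝ) + 1) ^ KK α * ‖F‖) := by gcongr
      _ = _ := by ring
  have hsum := hsum0.of_norm.hasSum
  refine ⟨∑' n, ((r : ℂ) ^ n) • T.mul (a n) F, ?_, ?_⟩
  · refine mem_closure_of_tendsto hsum (Eventually.of_forall fun s => ?_)
    refine Submodule.sum_mem _ fun n _ => Submodule.smul_mem _ _ ?_
    exact ⟨a n, fun w => T.val_mul (a n) F w⟩
  · intro w
    have h2 : HasSum (fun n => T.evΩ w (((r : ℂ) ^ n) • T.mul (a n) F))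
        (T.evΩ w (∑' n, ((r : ℂ) ^ n) • T.mul (a n) F)) := (T.evΩ w).hasSum hsum
    have hrn : ‖(r : ℂ)‖ < 1 := by
      rw [Complex.norm_real, Real.norm_eq_abs, abs_of_nonneg h0]; exact h1
    have h3 := (tay_hasSum (sl_diff hq (good_of_mem hb w.2)) hrn).mul_right (Fg w)
    have h4 : HasSum (fun n => T.evΩ w (((r : ℂ) ^ n) • T.mul (a n) F))
        (sl q (w : Fin d → ℂ) (r : ℂ) * Fg w) := by
      refine h3.congr_fun fun n => ?_
      rw [map_smul, BSAF.evΩ_apply, T.val_mul, hFv, ← ha n w w.2, smul_eq_mul]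
      ring
    exact h2.unique h4

theorem En_meas (T : BSAF d Ω Y) (hb : Bal.IsBal Ω) {α : ℝ} {σ : Measure (Fin d → ℂ)}
    (hs : IsSlice T α σ) (F : Y) {Fg : (Fin d → ℂ) → ℂ}
    (hF : DifferentiableOn ℂ Fg Ω) (hFv : ∀ w : Ω, T.val F w = Fg w) :
    AEMeasurable (fun ζ => En α (tay (sl Fg ζ))) σ := by
  choose a ha using cpoly T hb F hF hFv
  refine ⟨fun ζ => ∑' n : ℕ, ENNReal.ofReal (((n : ℝ) + 1) ^ α *
    ‖(2 : ℂ) ^ n * eval ((1 / 2 : ℂ) • ζ) (a n)‖ ^ 2), ?_, ?_⟩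
  · apply Measurable.ennreal_tsum
    intro n
    apply ENNReal.measurable_ofReal.comp
    apply Continuous.measurable
    have h1 : Continuous fun ζ : Fin d → ℂ => eval ((1 / 2 : ℂ) • ζ) (a n) :=
      (MvPolynomial.continuous_eval (a n)).comp (continuous_const_smul _)
    fun_prop
  · filter_upwards [hs.good] with ζ hζ
    unfold En
    apply tsum_congr
    intro n
    have hhalf : ‖(1 / 2 : ℂ)‖ ≤ 1 := by norm_num
    have hhalf' : ‖(1 / 2 : ℂ)‖ < 1 := by norm_num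
    have h2 := sl_smul hF hζ hhalf n
    rw [ha n _ (hζ _ hhalf')] at h2
    rw [h2]
    have h3 : (2 : ℂ) ^ n * (tay (sl Fg ζ) n * (1 / 2) ^ n) = tay (sl Fg ζ) n := by
      have : (2 : ℂ) ^ n * (1 / 2) ^ n = 1 := by rw [← mul_pow]; norm_num
      linear_combination (tay (sl Fg ζ) n) * this
    rw [h3]

/-- norm bound for the dilated products -/
theorem dil_bound (T : BSAF d Ω Y) (hb : Bal.IsBal Ω) {α : ℝ} (hα : α ≤ 2)
    {σ : Measure (Fin d → ℂ)}
    (hs : IsSlice T α σ) (F G y : Y) {q Fg : (Fin d → ℂ) → ℂ} (hq : DifferentiableOn ℂ q Ω)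
    (hF : DifferentiableOn ℂ Fg Ω) (hFv : ∀ w : Ω, T.val F w = Fg w)
    (hG : ∀ w : Ω, T.val G w = q w * Fg w) {M : ℝ} (hM0 : 0 ≤ M)
    (hM : ∀ w ∈ Ω, ‖q w‖ ≤ M) {r : ℝ} (h0 : 0 ≤ r) (h1 : r < 1)
    (hy : ∀ w : Ω, T.val y w = q ((r : ℂ) • (w : Fin d → ℂ)) * Fg w) :
    ‖y‖ ^ 2 ≤ 4 * ‖G‖ ^ 2 + 24 * M ^ 2 * ‖F‖ ^ 2 := by
  have hrn : ‖(r : ℂ)‖ ≤ 1 := by
    rw [Complex.norm_real, Real.norm_eq_abs, abs_of_nonneg h0]; exact h1.le
  have hqr : DifferentiableOn ℂ (fun w : Fin d → ℂ => q ((r : ℂ) • w)) Ω := by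
    apply hq.comp (differentiable_id.const_smul (r : ℂ)).differentiableOn
    intro w hw
    exact hb w hw _ hrn
  have hd : DifferentiableOn ℂ (fun w : Fin d → ℂ => q ((r : ℂ) • w) * Fg w) Ω := hqr.mul hF
  have hqF : DifferentiableOn ℂ (fun w => q w * Fg w) Ω := hq.mul hF
  have e1 := hs.norm _ y hd hy
  have e2 := hs.norm _ G hqF hG
  have e3 := hs.norm _ F hF hFv
  rw [← ENNReal.ofReal_le_ofReal_iff (by positivity), ENNReal.ofReal_add (by positivity)
    (by positivity), ENNReal.ofReal_mul (by norm_num), ENNReal.ofReal_mul (by positivity), e1, e2,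
    e3, ← lintegral_const_mul' _ _ ENNReal.ofReal_ne_top,
    ← lintegral_const_mul' _ _ ENNReal.ofReal_ne_top,
    ← lintegral_add_right' _ ((En_meas T hb hs F hF hFv).const_mul _)]
  apply lintegral_mono_ae
  filter_upwards [hs.good] with ζ hζ
  have h2 : sl (fun w : Fin d → ℂ => q ((r : ℂ) • w) * Fg w) ζ =
      fun z => sl q ζ ((r : ℂ) * z) * sl Fg ζ z := by
    funext z
    change q ((r : ℂ) • z • ζ) * Fg (z • ζ) = q (((r : ℂ) * z) • ζ) * Fg (z • ζ)
    rw [smul_smul]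
  rw [h2]
  exact En_dil hα (sl_diff hq hζ) (sl_diff hF hζ) hM0 (fun z hz => hM _ (hζ z hz)) h0 h1

/-- bounded sequences converging pointwise in a reflexive space converge weakly -/
theorem weak_of_bdd (S : BSAF d Ω Y)
    (hr : Function.Surjective (NormedSpace.inclusionInDoubleDual ℂ Y))
    (G : ℕ → Y) (G0 : Y) (B : ℝ) (hB : ∀ n, ‖G n‖ ≤ B)
    (hlim : ∀ w : Ω, Tendsto (fun n => S.val (G n) w) atTop (𝓝 (S.val G0 w))) (Λ : Y →L[ℂ] ℂ) :
    Tendsto (fun n => Λ (G n)) atTop (𝓝 (Λ G0)) := by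
  set M : Submodule ℂ (StrongDual ℂ Y) := Submodule.span ℂ (Set.range fun w : Ω => S.evΩ w) with hM
  have hmem : Λ ∈ closure (M : Set (StrongDual ℂ Y)) := by
    by_contra hcon
    have hconv : Convex ℝ (closure (M : Set (StrongDual ℂ Y))) := by
      have : Convex ℝ (M : Set (StrongDual ℂ Y)) := (M.restrictScalars ℝ).convex
      exact this.closure
    obtain ⟨f, u, h1, h2⟩ := RCLike.geometric_hahn_banach_closed_point (𝕜 := ℂ) hconv
      isClosed_closure hcon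
    have hf0 : ∀ a ∈ M, f a = 0 := by
      intro a ha
      by_contra hne
      have h3 := h1 ((((|u| + 1 : ℝ) : ℂ) / f a) • a) (subset_closure (M.smul_mem _ ha))
      rw [map_smul, smul_eq_mul, div_mul_cancel₀ _ hne] at h3
      have h4 : RCLike.re (((|u| + 1 : ℝ) : ℂ)) = |u| + 1 := Complex.ofReal_re _
      rw [h4] at h3
      linarith [le_abs_self u]
    obtain ⟨x, hx⟩ := hr f
    have hx0 : x = 0 := by
      apply S.inj
      funext w
      have h3 := hf0 (S.evΩ w) (Submodule.subset_span ⟨w, rfl⟩)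
      rw [← hx, NormedSpace.dual_def] at h3
      rw [map_zero]
      exact h3
    rw [hx0, map_zero] at hx
    have h3 := h1 0 (subset_closure M.zero_mem)
    rw [← hx] at h2 h3
    simp only [ContinuousLinearMap.zero_apply, map_zero] at h2 h3
    linarith
  have hspan : ∀ Λ' ∈ M, Tendsto (fun n => Λ' (G n)) atTop (𝓝 (Λ' G0)) := by
    intro Λ' hΛ'
    induction hΛ' using Submodule.span_induction with
    | mem x hx =>
      obtain ⟨w, rfl⟩ := hx
      exact hlim w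
    | zero => simp
    | add x y _ _ hx hy => exact hx.add hy
    | smul c x _ hx => exact hx.const_mul c
  rw [Metric.tendsto_atTop]
  intro ε hε
  set R : ℝ := |B| + ‖G0‖ + 1 with hR
  have hRpos : 0 < R := by positivity
  obtain ⟨Λ', hΛ'M, hΛ'⟩ := Metric.mem_closure_iff.mp hmem (ε / (4 * R)) (by positivity)
  obtain ⟨N, hN⟩ := Metric.tendsto_atTop.mp (hspan Λ' hΛ'M) (ε / 4) (by positivity)
  refine ⟨N, fun n hn => ?_⟩
  have h1 := hN n hn
  rw [dist_eq_norm] at h1 hΛ' ⊢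
  have h2 : ‖(Λ - Λ') (G n)‖ ≤ ε / (4 * R) * R := by
    calc ‖(Λ - Λ') (G n)‖ ≤ ‖Λ - Λ'‖ * ‖G n‖ := (Λ - Λ').le_opNorm _
      _ ≤ ε / (4 * R) * R := by
          gcongr
          have := hB n
          have := le_abs_self B
          have := norm_nonneg G0
          linarith
  have h3 : ‖(Λ - Λ') G0‖ ≤ ε / (4 * R) * R := by
    calc ‖(Λ - Λ') G0‖ ≤ ‖Λ - Λ'‖ * ‖G0‖ := (Λ - Λ').le_opNorm _
      _ ≤ ε / (4 * R) * R := by
          gcongr
          have := abs_nonneg B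
          linarith
  have h4 : ε / (4 * R) * R = ε / 4 := by field_simp
  rw [h4] at h2 h3
  have h5 : Λ (G n) - Λ G0 = (Λ - Λ') (G n) + (Λ' (G n) - Λ' G0) - (Λ - Λ') G0 := by
    simp only [ContinuousLinearMap.sub_apply]
    ring
  rw [h5]
  calc _ ≤ ‖(Λ - Λ') (G n) + (Λ' (G n) - Λ' G0)‖ + ‖(Λ - Λ') G0‖ := norm_sub_le _ _
    _ ≤ ‖(Λ - Λ') (G n)‖ + ‖Λ' (G n) - Λ' G0‖ + ‖(Λ - Λ') G0‖ := by
        gcongr
        exact norm_add_le _ _
    _ < ε := by linarith

theorem cyclic_of_empty (T : BSAF d Ω Y) (h : Ω = ∅) (F : Y) : T.ShiftCyclic F := by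
  have h1 : T.orbit F = Set.univ := by
    rw [Set.eq_univ_iff_forall]
    intro g
    refine ⟨0, fun w => ?_⟩
    exact absurd (h.subset w.2) (Set.notMem_empty _)
  unfold BSAF.ShiftCyclic
  rw [h1, closure_univ]

end

/-- Property (CP) for the spaces of slice type. -/
theorem hasCP_slice.{u, v} {d' : ℕ} {Ω' : Set (Fin d' → ℂ)} {Z : Type v} [NormedAddCommGroup Z]
    [NormedSpace ℂ Z] [CompleteSpace Z] (T : BSAF d' Ω' Z) (hb : Bal.IsBal Ω')
    (hr : Function.Surjective (NormedSpace.inclusionInDoubleDual ℂ Z)) {α : ℝ} (hα : α ≤ 2)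
    {σ : Measure (Fin d' → ℂ)} (hs : IsSlice T α σ) : HasCP.{u} T := by
  apply hasCP_of_bddCyclic
  intro F hF
  rcases Set.eq_empty_or_nonempty Ω' with hemp | ⟨w0, hw0⟩
  · exact cyclic_of_empty T hemp F
  have h00 : (0 : Fin d' → ℂ) ∈ Ω' := by
    have := hb w0 hw0 0 (by simp)
    rwa [zero_smul] at this
  obtain ⟨Fg, hFg, hFv⟩ := T.analytic F
  have hF0 : Fg 0 ≠ 0 := by
    intro h
    have h1 : closure (T.bOrbit F) ⊆ {g | T.evΩ ⟨0, h00⟩ g = 0} := by
      apply closure_minimal _ (isClosed_eq (T.evΩ ⟨0, h00⟩).continuous continuous_const)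
      intro g hg
      obtain ⟨q, hq1, hq2, hq3⟩ := T.bOrbit_spec hg
      change T.evΩ ⟨0, h00⟩ g = 0
      rw [BSAF.evΩ_apply, hq3, hFv]
      change q 0 * Fg 0 = 0
      rw [h, mul_zero]
    rw [hF] at h1
    have h2 : T.evΩ ⟨0, h00⟩ T.one = 0 := h1 (Set.mem_univ _)
    rw [BSAF.evΩ_apply, T.val_one] at h2
    exact one_ne_zero h2
  have h1 : closure (T.bOrbit F) ⊆ closure (T.orbit F) := by
    apply closure_minimal _ isClosed_closure
    intro G hG
    obtain ⟨q, hq1, ⟨M0, hM0⟩, hq3⟩ := T.bOrbit_spec hG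
    have hM00 : 0 ≤ M0 := (norm_nonneg _).trans (hM0 0 h00)
    have hG' : ∀ w : Ω', T.val G w = q w * Fg w := fun w => by rw [hq3, hFv]
    choose y hy1 hy2 using fun k => dil_mem T hb hs F G hq1 hFg hFv hG' hF0 hM00 hM0
      (rk_nonneg k) (rk_lt k)
    set B : ℝ := 4 * ‖G‖ ^ 2 + 24 * M0 ^ 2 * ‖F‖ ^ 2 with hB
    have hbd : ∀ k, ‖y k‖ ≤ Real.sqrt B := fun k => Real.le_sqrt_of_sq_le
      (dil_bound T hb hα hs F G (y k) hq1 hFg hFv hG' hM00 hM0 (rk_nonneg k) (rk_lt k) (hy2 k))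
    have hlim : ∀ w : Ω', Tendsto (fun k => T.val (y k) w) atTop (𝓝 (T.val G w)) := by
      intro w
      simp_rw [hy2, hG']
      apply Tendsto.mul_const
      have hcw : ContinuousWithinAt (fun c : ℂ => q (c • (w : Fin d' → ℂ))) (closedBall 0 1) 1 :=
        (Bal.line_cont hb w.2 hq1).continuousOn 1 (by simp)
      have h5 := hcw.tendsto
      rw [one_smul] at h5
      refine h5.comp ?_
      rw [tendsto_nhdsWithin_iff]
      constructor
      · have h3 := (Complex.continuous_ofReal.tendsto 1).comp rk_lim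
        rw [Complex.ofReal_one] at h3
        exact h3
      · refine Eventually.of_forall fun k => ?_
        rw [mem_closedBall_zero_iff, Complex.norm_real, Real.norm_eq_abs,
          abs_of_nonneg (rk_nonneg k)]
        exact (rk_lt k).le
    have h3 := mem_closure_of_weak (orbM T F).topologicalClosure y G (fun k => hy1 k)
      (weak_of_bdd T hr y G _ hbd hlim)
    rw [Submodule.topologicalClosure_coe, closure_closure] at h3
    exact h3
  rw [hF] at h1
  exact Set.eq_univ_of_univ_subset h1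

end Pool.Agent.Helper34.Cq.Slice
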