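import Pool.Agent.Helper34.Cq.SliceC

set_option autoImplicit false
set_option linter.unusedVariables false

namespace Pool.Agent.Helper34.Cq.Slice

open MvPolynomial Topology Filter Metric MeasureTheory
open Pool.Agent.Helper34.Da (tay Gr En ser rk rk_nonneg rk_lt rk_lim KK tay_Gr tay_hasSum ser_tay
  ser_inj conv)
open scoped ENNReal

/-- Hilbert spaces are reflexive. -/
theorem hilbert_reflexive {Z : Type*} [NormedAddCommGroup Z] [InnerProductSpace ℂ Z]
    [CompleteSpace Z] : Function.Surjective (NormedSpace.inclusionInDoubleDual ℂ Z) := by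
  intro f
  let L : Z →L[ℂ] ℂ := LinearMap.mkContinuous
    { toFun := fun z => (starRingEnd ℂ) (f (InnerProductSpace.toDual ℂ Z z))
      map_add' := fun x y => by rw [map_add, map_add, map_add]
      map_smul' := fun c x => by
        rw [LinearIsometryEquiv.map_smulₛₗ, map_smul, smul_eq_mul, map_mul, RingHom.id_apply,
          smul_eq_mul, starRingEnd_self_apply] } ‖f‖ (fun z => by
      change ‖(starRingEnd ℂ) (f (InnerProductSpace.toDual ℂ Z z))‖ ≤ ‖f‖ * ‖z‖
      rw [RCLike.norm_conj]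
      have h := f.le_opNorm (InnerProductSpace.toDual ℂ Z z)
      rwa [LinearIsometryEquiv.norm_map] at h)
  refine ⟨(InnerProductSpace.toDual ℂ Z).symm L, ?_⟩
  ext ℓ
  obtain ⟨z, rfl⟩ := (InnerProductSpace.toDual ℂ Z).surjective ℓ
  rw [NormedSpace.dual_def, InnerProductSpace.toDual_apply_apply]
  have h1 : inner ℂ ((InnerProductSpace.toDual ℂ Z).symm L) z = L z :=
    InnerProductSpace.toDual_symm_apply
  have h2 : L z = (starRingEnd ℂ) (f (InnerProductSpace.toDual ℂ Z z)) := rfl
  rw [← inner_conj_symm, h1, h2, starRingEnd_self_apply]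

variable {d : ℕ} {Ω : Set (Fin d → ℂ)} {Y : Type*} [NormedAddCommGroup Y] [NormedSpace ℂ Y]
  [CompleteSpace Y]

theorem tay_add {P Q : ℂ → ℂ} (hP : DifferentiableOn ℂ P (ball 0 1))
    (hQ : DifferentiableOn ℂ Q (ball 0 1)) : tay (fun z => P z + Q z) = tay P + tay Q := by
  have hd : DifferentiableOn ℂ (fun z => P z + Q z) (ball 0 1) := hP.add hQ
  have hs : ∀ z : ℂ, ‖z‖ < 1 → HasSum (fun n => (tay P + tay Q) n * z ^ n) (P z + Q z) := by
    intro z hz
    refine ((tay_hasSum hP hz).add (tay_hasSum hQ hz)).congr_fun fun n => ?_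
    rw [Pi.add_apply]
    ring
  apply tay_unique hd
  · intro ρ h0 h1
    have h2 : ‖(ρ : ℂ)‖ < 1 := by
      rw [Complex.norm_real, Real.norm_eq_abs, abs_of_nonneg h0]; exact h1
    have h := (hs ρ h2).summable.norm
    simpa [norm_mul, norm_pow, abs_of_nonneg h0] using h
  · intro z hz
    exact (hs z hz).tsum_eq

theorem tay_sub {P Q : ℂ → ℂ} (hP : DifferentiableOn ℂ P (ball 0 1))
    (hQ : DifferentiableOn ℂ Q (ball 0 1)) : tay (fun z => P z - Q z) = tay P - tay Q := by
  have hd : DifferentiableOn ℂ (fun z => P z - Q z) (ball 0 1) := hP.sub hQ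
  have h1 := tay_add hd hQ
  have h2 : (fun z => P z - Q z + Q z) = P := by funext z; ring
  rw [h2] at h1
  rw [h1, add_sub_cancel_right]

theorem En_par (α : ℝ) (a b : ℕ → ℂ) : En α (a + b) + En α (a - b) = 2 * (En α a + En α b) := by
  unfold En
  rw [← ENNReal.tsum_add, ← ENNReal.tsum_add, ← ENNReal.tsum_mul_left]
  apply tsum_congr
  intro n
  have h0 : 0 ≤ ((n : ℝ) + 1) ^ α := by positivity
  have h2 : (2 : ℝ≥0∞) = ENNReal.ofReal 2 := by simp
  rw [← ENNReal.ofReal_add (by positivity) (by positivity),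
    ← ENNReal.ofReal_add (by positivity) (by positivity), h2, ← ENNReal.ofReal_mul (by norm_num)]
  congr 1
  have h1 := parallelogram_law_with_norm ℂ (a n) (b n)
  rw [Pi.add_apply, Pi.sub_apply]
  nlinarith [h1]

theorem reflexive (T : BSAF d Ω Y) (hb : Bal.IsBal Ω) {α : ℝ} {σ : Measure (Fin d → ℂ)}
    (hs : IsSlice T α σ) : Function.Surjective (NormedSpace.inclusionInDoubleDual ℂ Y) := by
  have hpar : ∀ x y : Y, ‖x + y‖ * ‖x + y‖ + ‖x - y‖ * ‖x - y‖ =
      2 * (‖x‖ * ‖x‖ + ‖y‖ * ‖y‖) := by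
    intro x y
    obtain ⟨gx, hgx, hx⟩ := T.analytic x
    obtain ⟨gy, hgy, hy⟩ := T.analytic y
    have hda : DifferentiableOn ℂ (fun w => gx w + gy w) Ω := hgx.add hgy
    have hds : DifferentiableOn ℂ (fun w => gx w - gy w) Ω := hgx.sub hgy
    have hva : ∀ w : Ω, T.val (x + y) w = gx w + gy w := fun w => by
      rw [map_add, Pi.add_apply, hx, hy]
    have hvs : ∀ w : Ω, T.val (x - y) w = gx w - gy w := fun w => by
      rw [map_sub, Pi.sub_apply, hx, hy]
    have e1 := hs.norm _ (x + y) hda hva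
    have e2 := hs.norm _ (x - y) hds hvs
    have e3 := hs.norm _ x hgx hx
    have e4 := hs.norm _ y hgy hy
    have m2 := En_meas T hb hs (x - y) hds hvs
    have m4 := En_meas T hb hs y hgy hy
    have h2 : (2 : ℝ≥0∞) = ENNReal.ofReal 2 := by simp
    have key : ENNReal.ofReal (‖x + y‖ ^ 2) + ENNReal.ofReal (‖x - y‖ ^ 2) =
        2 * (ENNReal.ofReal (‖x‖ ^ 2) + ENNReal.ofReal (‖y‖ ^ 2)) := by
      rw [e1, e2, e3, e4, ← lintegral_add_right' _ m2, ← lintegral_add_right' _ m4,
        ← lintegral_const_mul' _ _ (by simp)]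
      apply lintegral_congr_ae
      filter_upwards [hs.good] with ζ hζ
      have t1 : tay (sl (fun w => gx w + gy w) ζ) = tay (sl gx ζ) + tay (sl gy ζ) :=
        tay_add (sl_diff hgx hζ) (sl_diff hgy hζ)
      have t2 : tay (sl (fun w => gx w - gy w) ζ) = tay (sl gx ζ) - tay (sl gy ζ) :=
        tay_sub (sl_diff hgx hζ) (sl_diff hgy hζ)
      rw [t1, t2]
      exact En_par α _ _
    rw [← ENNReal.ofReal_add (by positivity) (by positivity),
      ← ENNReal.ofReal_add (by positivity) (by positivity), h2,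
      ← ENNReal.ofReal_mul (by norm_num), ENNReal.ofReal_eq_ofReal_iff (by positivity)
      (by positivity)] at key
    nlinarith [key]
  let : InnerProductSpace ℂ Y := InnerProductSpace.ofNorm ℂ hpar
  exact hilbert_reflexive

/-- Property (CP) for the spaces of slice type, no reflexivity assumed. -/
theorem hasCP_slice'.{u, v} {d' : ℕ} {Ω' : Set (Fin d' → ℂ)} {Z : Type v} [NormedAddCommGroup Z]
    [NormedSpace ℂ Z] [CompleteSpace Z] (T : BSAF d' Ω' Z) (hb : Bal.IsBal Ω') {α : ℝ} (hα : α ≤ 2)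
    {σ : Measure (Fin d' → ℂ)} (hs : IsSlice T α σ) : HasCP.{u} T :=
  hasCP_slice T hb (reflexive T hb hs) hα hs

end Pool.Agent.Helper34.Cq.Slice
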