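import Pool.Agent.Helper34.Cq.Defs

set_option autoImplicit false

namespace Pool.Agent.Helper34.Cq

open MvPolynomial Topology Filter

universe u v

namespace BSAF

variable {d : ℕ} {Ω : Set (Fin d → ℂ)} {X : Type u} [NormedAddCommGroup X] [NormedSpace ℂ X]
  [CompleteSpace X]

/-- The set of all `g = q f`, where `q` is a bounded function on the maximal domain which is
analytic on `Ω`. -/
def bOrbit (S : BSAF d Ω X) (f : X) : Set X :=
  {g | ∃ (q : S.maxDomain → ℂ) (q0 : (Fin d → ℂ) → ℂ), (∃ C : ℝ, ∀ w, ‖q w‖ ≤ C) ∧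
    DifferentiableOn ℂ q0 Ω ∧ (∀ w : Ω, q0 w = q ⟨w, S.mem_maxDomain w⟩) ∧
    ∀ w : S.maxDomain, S.ev w g = q w * S.ev w f}

/-- `f` is boundedly cyclic. -/
def BddCyclic (S : BSAF d Ω X) (f : X) : Prop := closure (S.bOrbit f) = Set.univ

theorem analytic_eval (P : MvPolynomial (Fin d) ℂ) (Ω : Set (Fin d → ℂ)) :
    DifferentiableOn ℂ (fun w : Fin d → ℂ => eval w P) Ω := by
  induction P using MvPolynomial.induction_on with
  | C a => simp
  | add p q hp hq =>
    simp only [map_add]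
    exact hp.add hq
  | mul_X p j hp =>
    simp only [map_mul, eval_X]
    exact hp.mul (differentiable_apply j).differentiableOn

theorem mul_mem_closure_bOrbit (S : BSAF d Ω X) {f g : X} (hg : g ∈ closure (S.bOrbit f))
    (P : MvPolynomial (Fin d) ℂ) : S.mul P g ∈ closure (S.bOrbit f) := by
  have h1 : Set.MapsTo (S.mul P) (S.bOrbit f) (S.bOrbit f) := by
    rintro h ⟨q, q0, ⟨C, hC⟩, hq0, hqq, hq2⟩
    obtain ⟨C', hC'⟩ := S.maxDomain_bdd P
    refine ⟨fun w => eval (w : Fin d → ℂ) P * q w, fun w => eval w P * q0 w,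
      ⟨C' * C, fun w => ?_⟩, (analytic_eval P Ω).mul hq0, fun w => ?_, fun w => ?_⟩
    · have h1 := hC' w w.2
      have h2 := hC w
      rw [norm_mul]
      have h3 : 0 ≤ C' := (norm_nonneg _).trans h1
      gcongr
    · exact congrArg (fun x => eval (w : Fin d → ℂ) P * x) (hqq w)
    · rw [S.isEval_mul (S.ev_spec w), hq2]
      ring
  exact h1.closure (S.mul P).continuous hg

end BSAF

/-- A general sufficient condition for property (CP). -/
theorem hasCP_of_bddCyclic {d' : ℕ} {Ω' : Set (Fin d' → ℂ)} {Y : Type v} [NormedAddCommGroup Y]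
    [NormedSpace ℂ Y] [CompleteSpace Y] (T : BSAF d' Ω' Y)
    (h : ∀ F : Y, T.BddCyclic F → T.ShiftCyclic F) : HasCP.{u} T := by
  intro d Ω X _ _ _ S φ ψ A hψ hA f hf
  apply h
  -- the values of `A g` on `Ω'`
  have hval : ∀ (g : X) (w : Ω'), T.val (A g) w =
      T.val ψ w * S.ev (φ ⟨w, T.mem_maxDomain w⟩) g := by
    intro g w
    rw [← T.ev_of_mem, ← T.ev_of_mem, hA]
  have hψ0 : ∀ w : Ω', T.val ψ w ≠ 0 := by
    intro w
    rw [← T.evΩ_apply]
    exact T.cyclic_ne_zero hψ (T.isEval_evΩ w)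
  -- multiplication by a polynomial on `X` becomes multiplication by a bounded function
  have horb : ∀ P : MvPolynomial (Fin d) ℂ, A (S.mul P f) ∈ T.bOrbit (A f) := by
    intro P
    obtain ⟨g1, hg1, hg1'⟩ := T.analytic (A (S.mul P S.one))
    obtain ⟨g2, hg2, hg2'⟩ := T.analytic ψ
    have hne : ∀ w ∈ Ω', g2 w ≠ 0 := by
      intro w hw
      rw [← hg2' ⟨w, hw⟩]
      exact hψ0 ⟨w, hw⟩
    have hq : ∀ w : Ω', g1 w / g2 w =
        eval (φ ⟨w, T.mem_maxDomain w⟩ : Fin d → ℂ) P := by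
      intro w
      rw [← hg1' w, ← hg2' w, hval, (S.isEval_iff _ _).mp (S.ev_spec _)]
      field_simp [hψ0 w]
    obtain ⟨C, hC⟩ := S.maxDomain_bdd P
    refine ⟨fun w => eval (φ w : Fin d → ℂ) P, fun w => g1 w / g2 w,
      ⟨C, fun w => hC _ (φ w).2⟩, ?_, hq, ?_⟩
    · simp only [div_eq_mul_inv]
      exact hg1.mul (hg2.inv hne)
    intro w
    rw [hA, hA, S.isEval_mul (S.ev_spec _)]
    ring
  have hone : A S.one = ψ := by
    apply T.inj
    funext w
    rw [hval, S.isEval_one (S.ev_spec _), mul_one]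
  have hψmem : ψ ∈ closure (T.bOrbit (A f)) := by
    have h1 : Set.MapsTo A (S.orbit f) (T.bOrbit (A f)) := by
      intro g hg
      obtain ⟨P, rfl⟩ := (S.mem_orbit_iff _ _).mp hg
      exact horb P
    have h2 : S.one ∈ closure (S.orbit f) := by rw [hf]; exact Set.mem_univ _
    have h3 := h1.closure A.continuous h2
    rwa [hone] at h3
  have h4 : closure (T.orbit ψ) ⊆ closure (T.bOrbit (A f)) := by
    apply closure_minimal _ isClosed_closure
    intro g hg
    obtain ⟨P, rfl⟩ := (T.mem_orbit_iff _ _).mp hg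
    exact T.mul_mem_closure_bOrbit hψmem P
  rw [hψ] at h4
  exact Set.eq_univ_of_univ_subset h4

end Pool.Agent.Helper34.Cq
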