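import Pool.Agent.Helper34.Cq.Defs

set_option autoImplicit false

namespace Pool.Agent.Helper34.Cq

open MvPolynomial Topology Filter BoundedContinuousFunction

/-- Data for a weighted sup-norm space on a bounded open subset of `ℂ^1`. -/
structure WData where
  Ω : Set (Fin 1 → ℂ)
  isOpen : IsOpen Ω
  bdd : ∀ w ∈ Ω, ‖w 0‖ ≤ 1
  wt : (Fin 1 → ℂ) → ℝ
  wt_cont : ContinuousOn wt Ω
  wt_pos : ∀ w ∈ Ω, 0 < wt w
  wt_le : ∀ w ∈ Ω, wt w ≤ 1

namespace WData

variable (D : WData)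

theorem poly_bdd (P : MvPolynomial (Fin 1) ℂ) : ∃ C : ℝ, 0 ≤ C ∧ ∀ w ∈ D.Ω, ‖eval w P‖ ≤ C := by
  have hc : IsCompact (Metric.closedBall (0 : Fin 1 → ℂ) 1) := isCompact_closedBall _ _
  have hcont : Continuous fun w : Fin 1 → ℂ => ‖eval w P‖ :=
    continuous_norm.comp (MvPolynomial.continuous_eval P)
  obtain ⟨C, hC⟩ := hc.exists_bound_of_continuousOn (f := fun w : Fin 1 → ℂ => eval w P)
    (MvPolynomial.continuous_eval P).continuousOn
  refine ⟨max C 0, le_max_right _ _, fun w hw => ?_⟩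
  refine (hC w ?_).trans (le_max_left _ _)
  rw [mem_closedBall_zero_iff, pi_norm_le_iff_of_nonneg zero_le_one]
  intro i
  rw [Subsingleton.elim i 0]
  exact D.bdd w hw

theorem cont_wt : Continuous fun w : D.Ω => D.wt w :=
  continuousOn_iff_continuous_domRestrict.mp D.wt_cont

/-- The weighted function attached to a polynomial. -/
noncomputable def pf (P : MvPolynomial (Fin 1) ℂ) : D.Ω →ᵇ ℂ :=
  BoundedContinuousFunction.ofNormedAddCommGroup (fun w : D.Ω => (D.wt w : ℂ) * eval (w : Fin 1 → ℂ) P)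
    ((Complex.continuous_ofReal.comp D.cont_wt).mul
      ((MvPolynomial.continuous_eval P).comp continuous_subtype_val))
    (Classical.choose (D.poly_bdd P)) (by
      intro w
      have h := Classical.choose_spec (D.poly_bdd P)
      rw [norm_mul, Complex.norm_real, Real.norm_eq_abs, abs_of_pos (D.wt_pos w w.2)]
      calc D.wt w * ‖eval (w : Fin 1 → ℂ) P‖ ≤ 1 * Classical.choose (D.poly_bdd P) := by
            gcongr
            · exact D.wt_le w w.2
            · exact h.2 w w.2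
        _ = _ := one_mul _)

theorem pf_apply (P : MvPolynomial (Fin 1) ℂ) (w : D.Ω) :
    D.pf P w = (D.wt w : ℂ) * eval (w : Fin 1 → ℂ) P := rfl

/-- The linear map `P ↦ wt * P`. -/
noncomputable def E : MvPolynomial (Fin 1) ℂ →ₗ[ℂ] (D.Ω →ᵇ ℂ) where
  toFun := D.pf
  map_add' P Q := by
    ext w
    simp only [pf_apply, map_add, BoundedContinuousFunction.coe_add, Pi.add_apply]
    ring
  map_smul' c P := by
    ext w
    simp only [pf_apply, smul_eval, BoundedContinuousFunction.coe_smul, RingHom.id_apply,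
      smul_eq_mul]
    ring

/-- The weighted sup-norm space: the closure of the polynomials. -/
noncomputable def Sp : Submodule ℂ (D.Ω →ᵇ ℂ) := (LinearMap.range D.E).topologicalClosure

noncomputable instance : CompleteSpace D.Sp :=
  (Submodule.isClosed_topologicalClosure _).completeSpace_coe

theorem mem_Sp_iff (G : D.Ω →ᵇ ℂ) :
    G ∈ D.Sp ↔ ∀ ε : ℝ, 0 < ε → ∃ P : MvPolynomial (Fin 1) ℂ,
      ∀ w : D.Ω, ‖G w - (D.wt w : ℂ) * eval (w : Fin 1 → ℂ) P‖ ≤ ε := by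
  rw [Sp, ← SetLike.mem_coe, Submodule.topologicalClosure_coe, Metric.mem_closure_iff]
  constructor
  · intro h ε hε
    obtain ⟨b, ⟨P, rfl⟩, hb⟩ := h ε hε
    refine ⟨P, fun w => ?_⟩
    rw [dist_eq_norm] at hb
    exact ((G - D.E P).norm_coe_le_norm w).trans hb.le
  · intro h ε hε
    obtain ⟨P, hP⟩ := h (ε / 2) (by positivity)
    refine ⟨D.E P, ⟨P, rfl⟩, ?_⟩
    rw [dist_eq_norm]
    refine lt_of_le_of_lt ((BoundedContinuousFunction.norm_le (by positivity)).mpr ?_)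
      (half_lt_self hε)
    intro w
    exact hP w

theorem pf_mem (P : MvPolynomial (Fin 1) ℂ) : D.pf P ∈ D.Sp :=
  subset_closure ⟨P, rfl⟩

/-- multiplication by the coordinate -/
noncomputable def zf : D.Ω →ᵇ ℂ :=
  BoundedContinuousFunction.ofNormedAddCommGroup (fun w : D.Ω => (w : Fin 1 → ℂ) 0)
    ((continuous_apply 0).comp continuous_subtype_val) 1 (fun w => D.bdd w w.2)

theorem zf_apply (w : D.Ω) : D.zf w = (w : Fin 1 → ℂ) 0 := rfl

theorem zf_mul_mem (G : D.Ω →ᵇ ℂ) (hG : G ∈ D.Sp) : D.zf * G ∈ D.Sp := by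
  rw [mem_Sp_iff] at hG ⊢
  intro ε hε
  obtain ⟨P, hP⟩ := hG ε hε
  refine ⟨X 0 * P, fun w => ?_⟩
  rw [BoundedContinuousFunction.mul_apply, zf_apply, map_mul, eval_X]
  have : (w : Fin 1 → ℂ) 0 * G w - (D.wt w : ℂ) * ((w : Fin 1 → ℂ) 0 * eval (w : Fin 1 → ℂ) P) =
      (w : Fin 1 → ℂ) 0 * (G w - (D.wt w : ℂ) * eval (w : Fin 1 → ℂ) P) := by ring
  rw [this, norm_mul]
  calc ‖(w : Fin 1 → ℂ) 0‖ * ‖G w - (D.wt w : ℂ) * eval (w : Fin 1 → ℂ) P‖ ≤ 1 * ε := by
        gcongr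
        · exact D.bdd w w.2
        · exact hP w
    _ = ε := one_mul _

/-- the shift on the weighted space -/
noncomputable def shiftOp : D.Sp →L[ℂ] D.Sp :=
  ((ContinuousLinearMap.mul ℂ (D.Ω →ᵇ ℂ) D.zf).comp D.Sp.subtypeL).codRestrict D.Sp
    (fun G => D.zf_mul_mem _ G.2)

theorem shiftOp_apply (G : D.Sp) (w : D.Ω) :
    (D.shiftOp G : D.Ω →ᵇ ℂ) w = (w : Fin 1 → ℂ) 0 * (G : D.Ω →ᵇ ℂ) w := rfl

/-- the value map -/
noncomputable def valMap : D.Sp →ₗ[ℂ] (D.Ω → ℂ) where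
  toFun G := fun w => (G : D.Ω →ᵇ ℂ) w / (D.wt w : ℂ)
  map_add' G H := by
    funext w
    simp [add_div]
  map_smul' c G := by
    funext w
    simp [mul_div_assoc]

theorem valMap_apply (G : D.Sp) (w : D.Ω) :
    D.valMap G w = (G : D.Ω →ᵇ ℂ) w / (D.wt w : ℂ) := rfl

theorem wt_ne (w : D.Ω) : (D.wt w : ℂ) ≠ 0 := by
  exact_mod_cast (D.wt_pos w w.2).ne'

theorem evalDiff (P : MvPolynomial (Fin 1) ℂ) :
    Differentiable ℂ fun z : ℂ => eval (fun _ : Fin 1 => z) P := by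
  induction P using MvPolynomial.induction_on with
  | C a => simp
  | add p q hp hq =>
    simp only [map_add]
    exact hp.add hq
  | mul_X p j hp =>
    simp only [map_mul, eval_X]
    exact hp.mul differentiable_id

theorem cst_eq (w : Fin 1 → ℂ) : (fun _ : Fin 1 => w 0) = w := by
  funext i
  rw [Subsingleton.elim i 0]

theorem exists_analytic (G : D.Sp) : ∃ g : (Fin 1 → ℂ) → ℂ, DifferentiableOn ℂ g D.Ω ∧
    ∀ w : D.Ω, D.valMap G w = g w := by
  classical
  set O : Set ℂ := {z | (fun _ : Fin 1 => z) ∈ D.Ω} with hO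
  have hcst : Continuous (fun z : ℂ => (fun _ : Fin 1 => z)) := continuous_pi fun _ => continuous_id
  have hOo : IsOpen O := D.isOpen.preimage hcst
  set gt : ℂ → ℂ := fun z => if h : (fun _ : Fin 1 => z) ∈ D.Ω then
    D.valMap G ⟨_, h⟩ else 0 with hgt
  have hmem := (D.mem_Sp_iff (G : D.Ω →ᵇ ℂ)).mp G.2
  choose! Q hQ using fun n : ℕ => hmem (1 / ((n : ℝ) + 1)) (by positivity)
  have hunif : TendstoLocallyUniformlyOn (fun (n : ℕ) (z : ℂ) => eval (fun _ : Fin 1 => z) (Q n)) gt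
      atTop O := by
    rw [Metric.tendstoLocallyUniformlyOn_iff]
    intro ε hε z0 hz0
    have hz0' : (fun _ : Fin 1 => z0) ∈ D.Ω := hz0
    set δ := D.wt (fun _ => z0) with hδ
    have hδpos : 0 < δ := D.wt_pos _ hz0'
    have hcO : ContinuousOn (fun z : ℂ => D.wt (fun _ => z)) O :=
      D.wt_cont.comp hcst.continuousOn (fun z hz => hz)
    have hnb : {z : ℂ | δ / 2 < D.wt (fun _ => z)} ∈ 𝓝[O] z0 := by
      have := (hcO z0 hz0).eventually (lt_mem_nhds (show δ / 2 < D.wt (fun _ => z0) by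
        rw [← hδ]; linarith))
      exact this
    refine ⟨{z : ℂ | δ / 2 < D.wt (fun _ => z)} ∩ O, Filter.inter_mem hnb self_mem_nhdsWithin, ?_⟩
    have hlim : Tendsto (fun n : ℕ => 1 / ((n : ℝ) + 1)) atTop (𝓝 0) :=
      tendsto_one_div_add_atTop_nhds_zero_nat
    have hev : ∀ᶠ n : ℕ in atTop, 1 / ((n : ℝ) + 1) < ε * (δ / 2) :=
      hlim.eventually (gt_mem_nhds (by positivity))
    filter_upwards [hev] with n hn z hz
    obtain ⟨hz1, hz2⟩ := hz
    have hz1' : δ / 2 < D.wt (fun _ => z) := hz1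
    have hz2' : (fun _ : Fin 1 => z) ∈ D.Ω := hz2
    have h1 := hQ n ⟨_, hz2'⟩
    have hgz : gt z = D.valMap G ⟨_, hz2'⟩ := by
      rw [hgt]; simp only [hz2', dif_pos]
    have hwpos : 0 < D.wt (fun _ => z) := D.wt_pos _ hz2'
    have hwne : (D.wt (fun _ => z) : ℂ) ≠ 0 := by exact_mod_cast hwpos.ne'
    rw [dist_eq_norm, hgz, valMap_apply]
    have h2 : (G : D.Ω →ᵇ ℂ) ⟨_, hz2'⟩ / (D.wt (fun _ => z) : ℂ) - eval (fun _ : Fin 1 => z) (Q n) =
        ((G : D.Ω →ᵇ ℂ) ⟨_, hz2'⟩ - (D.wt (fun _ => z) : ℂ) * eval (fun _ : Fin 1 => z) (Q n)) /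
          (D.wt (fun _ => z) : ℂ) := by
      field_simp
    change ‖(G : D.Ω →ᵇ ℂ) ⟨_, hz2'⟩ / (D.wt (fun _ => z) : ℂ) - eval (fun _ : Fin 1 => z) (Q n)‖ < ε
    rw [h2, norm_div, Complex.norm_real, Real.norm_eq_abs, abs_of_pos hwpos, div_lt_iff₀ hwpos]
    calc ‖(G : D.Ω →ᵇ ℂ) ⟨_, hz2'⟩ - (D.wt (fun _ => z) : ℂ) * eval (fun _ : Fin 1 => z) (Q n)‖
        ≤ 1 / ((n : ℝ) + 1) := h1
      _ < ε * (δ / 2) := hn
      _ < ε * D.wt (fun _ => z) := by gcongr
  have hdiff : DifferentiableOn ℂ gt O :=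
    hunif.differentiableOn (Eventually.of_forall fun n => (evalDiff (Q n)).differentiableOn) hOo
  refine ⟨fun w => gt (w 0), ?_, ?_⟩
  · refine hdiff.comp (differentiable_apply (0 : Fin 1)).differentiableOn ?_
    intro w hw
    change (fun _ : Fin 1 => w 0) ∈ D.Ω
    rw [cst_eq]; exact hw
  · intro w
    have hw : (fun _ : Fin 1 => (w : Fin 1 → ℂ) 0) ∈ D.Ω := by rw [cst_eq]; exact w.2
    change D.valMap G w = gt ((w : Fin 1 → ℂ) 0)
    rw [hgt]
    simp only [hw, dif_pos]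
    exact congrArg (D.valMap G) (Subtype.ext (cst_eq _).symm)

/-- The weighted sup-norm space is a Banach space of analytic functions. -/
noncomputable def bs : BSAF 1 D.Ω D.Sp where
  val := D.valMap
  isOpen := D.isOpen
  inj := by
    intro G H h
    apply Subtype.ext
    ext w
    have := congrFun h w
    rw [valMap_apply, valMap_apply] at this
    exact (div_left_inj' (D.wt_ne w)).mp this
  analytic := D.exists_analytic
  poly P := ⟨⟨D.pf P, D.pf_mem P⟩, fun w => by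
    rw [valMap_apply]
    change D.pf P w / _ = _
    rw [pf_apply, mul_div_cancel_left₀ _ (D.wt_ne w)]⟩
  dense := by
    rw [Metric.dense_iff]
    intro G r hr
    obtain ⟨P, hP⟩ := (D.mem_Sp_iff G).mp G.2 (r / 2) (by positivity)
    refine ⟨⟨D.pf P, D.pf_mem P⟩, ?_, ⟨P, fun w => ?_⟩⟩
    · rw [Metric.mem_ball, dist_comm, dist_eq_norm]
      refine lt_of_le_of_lt ?_ (half_lt_self hr)
      change ‖(G : D.Ω →ᵇ ℂ) - D.pf P‖ ≤ r / 2
      rw [BoundedContinuousFunction.norm_le (by positivity)]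
      exact hP
    · rw [valMap_apply]
      change D.pf P w / _ = _
      rw [pf_apply, mul_div_cancel_left₀ _ (D.wt_ne w)]
  eval_bdd w := ⟨1 / D.wt w, fun G => by
    rw [valMap_apply, norm_div, Complex.norm_real, Real.norm_eq_abs, abs_of_pos (D.wt_pos w w.2),
      div_eq_mul_one_div, mul_comm]
    have := (G : D.Ω →ᵇ ℂ).norm_coe_le_norm w
    have h2 : 0 ≤ 1 / D.wt w := (one_div_pos.mpr (D.wt_pos w w.2)).le
    exact mul_le_mul_of_nonneg_left this h2⟩
  shift j := ⟨D.shiftOp, fun G w => by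
    rw [valMap_apply, valMap_apply, shiftOp_apply, Subsingleton.elim j 0]
    ring⟩

theorem bs_val (G : D.Sp) (w : D.Ω) : D.bs.val G w = (G : D.Ω →ᵇ ℂ) w / (D.wt w : ℂ) := rfl

end WData

end Pool.Agent.Helper34.Cq
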